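import Mathlib

set_option autoImplicit false
open Filter Topology Polynomial

namespace Pool.Agent.H716R2

variable {ι : Type*} [Fintype ι]

/-- A number satisfying very lacunary relations has modulus at least one. -/
theorem one_le_norm_of_lacunary (c : ι → ℤ) (a : ℕ → ι → ℕ)
    (ha : ∀ j, Tendsto (fun m => a m j) atTop atTop) (z : ℂ)
    (hz : ∀ m, 1 + ∑ j, (c j : ℂ) * z ^ (a m j) = 0) : 1 ≤ ‖z‖ := by
  by_contra hlt
  push Not at hlt
  have h1 : Tendsto (fun m => 1 + ∑ j, (c j : ℂ) * z ^ (a m j)) atTop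
      (𝓝 (1 + ∑ j : ι, (c j : ℂ) * 0)) := by
    refine Tendsto.const_add _ (tendsto_finsetSum _ (fun j _ => ?_))
    refine Tendsto.const_mul _ ?_
    exact (tendsto_pow_atTop_nhds_zero_of_norm_lt_one hlt).comp (ha j)
  simp only [hz, mul_zero, Finset.sum_const_zero, add_zero] at h1
  exact one_ne_zero (tendsto_nhds_unique h1 tendsto_const_nhds)

theorem integral_of_lacunary (c : ι → ℤ) (b : ι → ℕ) (hb : ∀ j, 1 ≤ b j) {α : ℂ} (hα0 : α ≠ 0)
    (hα : 1 + ∑ j, (c j : ℂ) * α ^ (b j) = 0) : IsIntegral ℤ α⁻¹ := by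
  set d := ∑ j, b j with hd
  have hle : ∀ j, b j ≤ d := fun j =>
    Finset.single_le_sum (f := b) (fun i _ => Nat.zero_le _) (Finset.mem_univ j)
  have hι : Nonempty ι := by
    by_contra h
    rw [not_nonempty_iff] at h
    simp at hα
  have hd1 : 0 < d := by
    obtain ⟨j⟩ := hι
    exact lt_of_lt_of_le (hb j) (hle j)
  let Q : ℤ[X] := X ^ d + ∑ j, C (c j) * X ^ (d - b j)
  refine ⟨Q, ?_, ?_⟩
  · apply monic_X_pow_add
    refine lt_of_le_of_lt (degree_sum_le _ _) ?_
    rw [Finset.sup_lt_iff]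
    · intro j _
      refine lt_of_le_of_lt (degree_C_mul_X_pow_le _ _) ?_
      have := hb j
      have := hle j
      exact_mod_cast (by omega : d - b j < d)
    · exact_mod_cast WithBot.bot_lt_coe d
  · simp only [Q, eval₂_add, eval₂_pow, eval₂_X, eval₂_finsetSum, eval₂_mul, eval₂_C]
    have h1 : ∀ j, α⁻¹ ^ (d - b j) = α⁻¹ ^ d * α ^ (b j) := by
      intro j
      have h2 : α⁻¹ ^ d = α⁻¹ ^ (d - b j) * α⁻¹ ^ (b j) := by
        rw [← pow_add]
        congr 1
        have := hle j
        omega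
      rw [h2, mul_assoc, ← mul_pow, inv_mul_cancel₀ hα0, one_pow, mul_one]
    simp only [h1]
    have h3 : α⁻¹ ^ d + ∑ j, (algebraMap ℤ ℂ) (c j) * (α⁻¹ ^ d * α ^ (b j))
        = α⁻¹ ^ d * (1 + ∑ j, (c j : ℂ) * α ^ (b j)) := by
      rw [mul_add, mul_one, Finset.mul_sum]
      congr 1
      refine Finset.sum_congr rfl (fun j _ => ?_)
      simp only [algebraMap_int_eq, eq_intCast]
      ring
    rw [h3, hα, mul_zero]

/-- A common root of very lacunary polynomials with integer coefficients is a root of unity. -/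
theorem root_of_unity_of_lacunary (c : ι → ℤ) (a : ℕ → ι → ℕ)
    (ha : ∀ j, Tendsto (fun m => a m j) atTop atTop) (α : ℂ)
    (hα : ∀ m, 1 + ∑ j, (c j : ℂ) * α ^ (a m j) = 0) : ∃ k : ℕ, 0 < k ∧ α ^ k = 1 := by
  have hnorm := one_le_norm_of_lacunary c a ha α hα
  have hα0 : α ≠ 0 := by
    intro h
    rw [h, norm_zero] at hnorm
    linarith
  obtain ⟨m, hm⟩ : ∃ m, ∀ j, 1 ≤ a m j := by
    have : ∀ᶠ m in atTop, ∀ j, 1 ≤ a m j := by
      rw [eventually_all]
      exact fun j => (ha j).eventually_ge_atTop 1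
    exact this.exists
  have hint : IsIntegral ℤ α⁻¹ := integral_of_lacunary c (a m) hm hα0 (hα m)
  set β : ℂ := α⁻¹ with hβ
  have hβ0 : β ≠ 0 := inv_ne_zero hα0
  let K := IntermediateField.adjoin ℚ {β}
  have hintQ : IsIntegral ℚ β := hint.tower_top
  let _ : NumberField K := {
    to_charZero := inferInstance
    to_finiteDimensional := IntermediateField.adjoin.finiteDimensional hintQ }
  let y : K := ⟨β, IntermediateField.mem_adjoin_simple_self ℚ β⟩
  have hy0 : y ≠ 0 := by
    intro h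
    apply hβ0
    exact congrArg Subtype.val h
  have hyint : IsIntegral ℤ y := by
    have : IsIntegral ℤ ((algebraMap K ℂ) y) := hint
    exact (isIntegral_algebraMap_iff (algebraMap K ℂ).injective).1 this
  have hyrel : ∀ m, 1 + ∑ j, (c j : K) * (y⁻¹) ^ (a m j) = 0 := by
    intro m
    apply (algebraMap K ℂ).injective
    rw [map_add, map_one, map_sum, map_zero]
    have h1 := hα m
    rw [← h1]
    congr 1
    refine Finset.sum_congr rfl (fun j _ => ?_)
    rw [map_mul, map_intCast, map_pow, map_inv₀]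
    congr 2
    have : (algebraMap K ℂ) y = β := rfl
    rw [this, hβ, inv_inv]
  obtain ⟨n, hn, hyn⟩ := NumberField.Embeddings.pow_eq_one_of_norm_le_one K ℂ hy0 hyint (by
    intro φ
    have hz : ∀ m, 1 + ∑ j, (c j : ℂ) * ((φ y)⁻¹) ^ (a m j) = 0 := by
      intro m
      have h1 := congrArg φ (hyrel m)
      rw [map_add, map_one, map_sum, map_zero] at h1
      rw [← h1]
      congr 1
      refine Finset.sum_congr rfl (fun j _ => ?_)
      rw [map_mul, map_intCast, map_pow, map_inv₀]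
    have h2 := one_le_norm_of_lacunary c a ha _ hz
    rw [norm_inv] at h2
    have h3 : 0 < ‖φ y‖ := by
      rw [norm_pos_iff]
      exact (map_ne_zero φ).2 hy0
    by_contra h4
    push Not at h4
    have h5 := inv_lt_one_of_one_lt₀ h4
    linarith)
  refine ⟨n, hn, ?_⟩
  have h1 := congrArg (algebraMap K ℂ) hyn
  rw [map_pow, map_one] at h1
  have h2 : (algebraMap K ℂ) y = β := rfl
  rw [h2, hβ, inv_pow, inv_eq_one] at h1
  exact h1

theorem clear_denom (R : ℚ[X]) : ∃ D : ℤ, D ≠ 0 ∧ ∃ Q : ℤ[X],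
      Q.map (Int.castRingHom ℚ) = C (D : ℚ) * R := by
  obtain ⟨b, hbm, hb⟩ := IsLocalization.integerNormalization_spec (nonZeroDivisors ℤ) R
  refine ⟨b, nonZeroDivisors.ne_zero hbm,
    IsLocalization.integerNormalization (nonZeroDivisors ℤ) R, ?_⟩
  have e : (Int.castRingHom ℚ) = algebraMap ℤ ℚ := rfl
  rw [e, hb]
  rw [Algebra.smul_def]
  rfl

theorem mem_map_int_rat {I : Ideal ℤ[X]} {P : ℚ[X]}
    (hP : P ∈ I.map (mapRingHom (Int.castRingHom ℚ))) :
    ∃ D : ℤ, D ≠ 0 ∧ ∃ Q ∈ I, Q.map (Int.castRingHom ℚ) = C (D : ℚ) * P := by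
  refine Submodule.span_induction (p := fun P _ => ∃ D : ℤ, D ≠ 0 ∧ ∃ Q ∈ I,
    Q.map (Int.castRingHom ℚ) = C (D : ℚ) * P) ?_ ?_ ?_ ?_ hP
  · rintro _ ⟨Q, hQ, rfl⟩
    exact ⟨1, one_ne_zero, Q, hQ, by simp⟩
  · exact ⟨1, one_ne_zero, 0, I.zero_mem, by simp⟩
  · rintro P1 P2 _ _ ⟨D1, h1, Q1, hQ1, e1⟩ ⟨D2, h2, Q2, hQ2, e2⟩
    refine ⟨D1 * D2, mul_ne_zero h1 h2, C D2 * Q1 + C D1 * Q2,
      I.add_mem (I.mul_mem_left _ hQ1) (I.mul_mem_left _ hQ2), ?_⟩
    simp only [Polynomial.map_add, Polynomial.map_mul, map_C, e1, e2]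
    simp only [eq_intCast, Int.cast_mul, map_mul]
    ring
  · rintro R P1 _ ⟨D1, h1, Q1, hQ1, e1⟩
    obtain ⟨D2, h2, Q2, e2⟩ := clear_denom R
    refine ⟨D1 * D2, mul_ne_zero h1 h2, Q2 * Q1, I.mul_mem_left _ hQ1, ?_⟩
    simp only [Polynomial.map_mul, e1, e2, smul_eq_mul, Int.cast_mul, map_mul]
    ring

/-- An ideal of `ℤ[X]` containing very lacunary polynomials and saturated with respect to the
polynomials `X ^ k - 1` contains a nonzero integer. -/
theorem int_mem_of_lacunary (I : Ideal ℤ[X])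
    (hsat : ∀ k : ℕ, 0 < k → ∀ q : ℤ[X], (X ^ k - 1) * q ∈ I → q ∈ I)
    (c : ι → ℤ) (a : ℕ → ι → ℕ) (ha : ∀ j, Tendsto (fun m => a m j) atTop atTop)
    (hI : ∀ m, 1 + ∑ j, C (c j) * X ^ (a m j) ∈ I) : ∃ D : ℤ, D ≠ 0 ∧ C D ∈ I := by
  set J := I.map (mapRingHom (Int.castRingHom ℚ)) with hJ
  have hinj : Function.Injective (Polynomial.map (Int.castRingHom ℚ)) :=
    Polynomial.map_injective _ (RingHom.injective_int _)
  have hmemJ : ∀ Q ∈ I, Q.map (Int.castRingHom ℚ) ∈ J := fun Q hQ =>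
    Ideal.mem_map_of_mem (mapRingHom (Int.castRingHom ℚ)) hQ
  by_cases htop : J = ⊤
  · have h1 : (1 : ℚ[X]) ∈ J := by rw [htop]; trivial
    obtain ⟨D, hD, Q, hQ, e⟩ := mem_map_int_rat h1
    refine ⟨D, hD, ?_⟩
    have : Q = C D := by
      apply hinj
      rw [e, mul_one, map_C]
      rfl
    rw [← this]
    exact hQ
  · exfalso
    obtain ⟨g, hg⟩ : ∃ g : ℚ[X], J = Ideal.span {g} :=
      ⟨_, (Submodule.IsPrincipal.span_singleton_generator J).symm⟩
    have hgJ : ∀ P, P ∈ J ↔ g ∣ P := fun P => by rw [hg, Ideal.mem_span_singleton]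
    have hgunit : ¬ IsUnit g := by
      intro h
      apply htop
      rw [hg]
      exact Ideal.span_singleton_eq_top.2 h
    obtain ⟨m, hm⟩ : ∃ m, ∀ j, 1 ≤ a m j := by
      have : ∀ᶠ m in atTop, ∀ j, 1 ≤ a m j := by
        rw [eventually_all]
        exact fun j => (ha j).eventually_ge_atTop 1
      exact this.exists
    have hg0 : g ≠ 0 := by
      intro h
      have h1 := (hgJ _).1 (hmemJ _ (hI m))
      rw [h, zero_dvd_iff] at h1
      have h2 := congrArg (fun P : ℚ[X] => P.coeff 0) h1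
      simp only [Polynomial.map_add, Polynomial.map_one, Polynomial.map_sum, Polynomial.map_mul,
        Polynomial.map_pow, map_X, map_C, coeff_add, finsetSum_coeff, coeff_C_mul,
        coeff_X_pow, coeff_zero, coeff_one_zero] at h2
      rw [Finset.sum_eq_zero] at h2
      · norm_num at h2
      · intro j _
        have := hm j
        rw [if_neg (by omega), mul_zero]
    have hdeg : g.degree ≠ 0 := by
      intro h
      exact hgunit (isUnit_iff_degree_eq_zero.2 h)
    obtain ⟨α, hα⟩ := IsAlgClosed.exists_aeval_eq_zero ℂ g hdeg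
    have hαrel : ∀ m, 1 + ∑ j, (c j : ℂ) * α ^ (a m j) = 0 := by
      intro m
      obtain ⟨u, hu⟩ := (hgJ _).1 (hmemJ _ (hI m))
      have h1 := congrArg (aeval α) hu
      rw [map_mul, hα, zero_mul] at h1
      simpa [Polynomial.map_sum] using h1
    obtain ⟨k, hk, hαk⟩ := root_of_unity_of_lacunary c a ha α hαrel
    have hαint : IsIntegral ℚ α := by
      refine ⟨X ^ k - 1, ?_, ?_⟩
      · exact monic_X_pow_sub_C 1 (by omega : k ≠ 0)
      · simp [hαk]
    obtain ⟨q, hq⟩ : minpoly ℚ α ∣ g := minpoly.dvd ℚ α hα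
    obtain ⟨s, hs⟩ : minpoly ℚ α ∣ (X ^ k - 1 : ℚ[X]) := minpoly.dvd ℚ α (by simp [hαk])
    have h1 : (X ^ k - 1) * q ∈ J := by
      rw [hgJ, hs]
      refine ⟨s, ?_⟩
      rw [hq]
      ring
    obtain ⟨D, hD, Q, hQ, eQ⟩ := mem_map_int_rat h1
    obtain ⟨E, hE, q', eq'⟩ := clear_denom q
    have h2 : C E * Q = (X ^ k - 1) * (C D * q') := by
      apply hinj
      have eC : ∀ n : ℤ, (C n : ℤ[X]).map (Int.castRingHom ℚ) = C (n : ℚ) := fun n => by
        rw [map_C]; rfl
      simp only [Polynomial.map_mul, Polynomial.map_sub, Polynomial.map_pow, Polynomial.map_one,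
        map_X, eC, eQ, eq']
      ring
    have h3 : C D * q' ∈ I := by
      apply hsat k hk
      rw [← h2]
      exact I.mul_mem_left _ hQ
    have h4 := hmemJ _ h3
    rw [Polynomial.map_mul, eq', map_C, eq_intCast] at h4
    have h5 : q ∈ J := by
      have h6 : q = C ((D : ℚ) * E)⁻¹ * (C (D : ℚ) * (C (E : ℚ) * q)) := by
        have hDE : (D : ℚ) * E ≠ 0 := mul_ne_zero (by exact_mod_cast hD) (by exact_mod_cast hE)
        rw [← mul_assoc (C (D : ℚ)), ← C_mul, ← mul_assoc, ← C_mul, inv_mul_cancel₀ hDE, C_1,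
          one_mul]
      rw [h6]
      exact J.mul_mem_left _ h4
    obtain ⟨u, hu⟩ := (hgJ _).1 h5
    have hq0 : q ≠ 0 := by
      intro h
      apply hg0
      rw [hq, h, mul_zero]
    have h7 : minpoly ℚ α * u = 1 := by
      have : q * (minpoly ℚ α * u) = q * 1 := by
        rw [mul_one]
        conv_rhs => rw [hu, hq]
        ring
      exact mul_left_cancel₀ hq0 this
    have h8 : IsUnit (minpoly ℚ α) := IsUnit.of_mul_eq_one _ h7
    exact (minpoly.not_isUnit ℚ α) h8

/-- Rigidity of very lacunary relations: if `τ` has no periodic vectors and is injective, then a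
vector satisfying very lacunary relations vanishes. -/
theorem lacunary_rigid {V : Type*} [AddCommGroup V] (τ : Module.End ℤ V)
    (h0 : Function.Injective τ) (hτ : ∀ k : ℕ, 0 < k → ∀ v : V, (τ ^ k) v = v → v = 0)
    (c : ι → ℤ) (a : ℕ → ι → ℕ) (ha : ∀ j, Tendsto (fun m => a m j) atTop atTop) (v : V)
    (hv : ∀ m, v + ∑ j, c j • (τ ^ (a m j)) v = 0) : v = 0 := by
  obtain ⟨m, hm⟩ : ∃ m, ∀ j, 1 ≤ a m j := by
    have : ∀ᶠ m in atTop, ∀ j, 1 ≤ a m j := by
      rw [eventually_all]
      exact fun j => (ha j).eventually_ge_atTop 1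
    exact this.exists
  let I : Ideal ℤ[X] :=
    { carrier := {P | aeval τ P v = 0}
      add_mem' := fun {P Q} hP hQ => by
        simp only [Set.mem_ofPred_eq] at hP hQ ⊢
        rw [map_add, LinearMap.add_apply, hP, hQ, add_zero]
      zero_mem' := by simp
      smul_mem' := fun P Q hQ => by
        simp only [Set.mem_ofPred_eq] at hQ ⊢
        rw [smul_eq_mul, map_mul, Module.End.mul_apply, hQ, map_zero] }
  have hIm : ∀ P, P ∈ I ↔ aeval τ P v = 0 := fun P => Iff.rfl
  obtain ⟨D, hD, hDI⟩ := int_mem_of_lacunary I (by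
    intro k hk q hq
    rw [hIm] at hq ⊢
    rw [map_mul, Module.End.mul_apply, map_sub, map_pow, aeval_X, map_one, LinearMap.sub_apply,
      Module.End.one_apply, sub_eq_zero] at hq
    exact hτ k hk _ hq) c a ha (by
    intro m
    rw [hIm, map_add, map_one, map_sum, LinearMap.add_apply, Module.End.one_apply,
      LinearMap.sum_apply]
    have h1 := hv m
    rw [← h1]
    congr 1
    refine Finset.sum_congr rfl (fun j _ => ?_)
    rw [map_mul, map_pow, aeval_X, aeval_C, Module.End.mul_apply]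
    rfl)
  have hDv : D • v = 0 := by
    rw [hIm, aeval_C] at hDI
    exact hDI
  -- the finite group spanned by a long piece of the orbit
  set d := 1 + ∑ j, a m j with hd
  have hle : ∀ j, a m j < d := fun j => by
    have := Finset.single_le_sum (f := a m) (fun i _ => Nat.zero_le _) (Finset.mem_univ j)
    omega
  let W : Submodule ℤ V := Submodule.span ℤ (Set.range (fun i : Fin d => (τ ^ (i : ℕ)) v))
  have hWfg : Module.Finite ℤ W := Module.Finite.span_of_finite ℤ (Set.finite_range _)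
  have hWD : ∀ w ∈ W, D • w = 0 := by
    intro w hw
    refine Submodule.span_induction (p := fun w _ => D • w = 0) ?_ ?_ ?_ ?_ hw
    · rintro _ ⟨i, rfl⟩
      simp only
      rw [← map_smul, hDv, map_zero]
    · simp
    · intro x y _ _ hx hy
      rw [smul_add, hx, hy, add_zero]
    · intro n x _ hx
      rw [smul_comm, hx, smul_zero]
  have hWfin : Finite W := by
    apply Module.finite_of_fg_torsion
    intro w
    refine ⟨⟨D, mem_nonZeroDivisors_of_ne_zero hD⟩, ?_⟩
    apply Subtype.ext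
    exact hWD w.1 w.2
  have hWset : (W : Set V).Finite := Set.toFinite _
  have hmem : ∀ i : ℕ, i < d → (τ ^ i) v ∈ W := fun i hi =>
    Submodule.subset_span ⟨⟨i, hi⟩, rfl⟩
  have hsub : (W : Set V) ⊆ τ '' (W : Set V) := by
    have h1 : W ≤ W.map τ := by
      rw [Submodule.span_le]
      rintro _ ⟨i, rfl⟩
      simp only [SetLike.mem_coe]
      by_cases hi : (i : ℕ) = 0
      · rw [hi, pow_zero, Module.End.one_apply]
        have h2 := eq_neg_of_add_eq_zero_left (hv m)
        rw [h2]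
        refine Submodule.neg_mem _ (Submodule.sum_mem _ (fun j _ => Submodule.smul_mem _ _ ?_))
        refine ⟨(τ ^ (a m j - 1)) v, hmem _ (by have := hle j; omega), ?_⟩
        rw [← Module.End.mul_apply, ← pow_succ']
        congr 2
        have := hm j
        omega
      · refine ⟨(τ ^ ((i : ℕ) - 1)) v, hmem _ (by omega), ?_⟩
        rw [← Module.End.mul_apply, ← pow_succ']
        congr 2
        omega
    intro w hw
    exact h1 hw
  have heq : (W : Set V) = τ '' (W : Set V) :=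
    Set.eq_of_subset_of_ncard_le hsub (Set.ncard_image_le hWset) (hWset.image _)
  have horb : ∀ k : ℕ, (τ ^ k) v ∈ (W : Set V) := by
    intro k
    induction k with
    | zero => exact hmem 0 (by omega)
    | succ k ih =>
      rw [heq, pow_succ', Module.End.mul_apply]
      exact ⟨_, ih, rfl⟩
  obtain ⟨i, j, hij, he⟩ := Set.Finite.exists_lt_map_eq_of_forall_mem horb hWset
  have hinj : Function.Injective (τ ^ i) := by
    rw [Module.End.coe_pow]
    exact h0.iterate i
  have h3 : (τ ^ (j - i)) v = v := by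
    apply hinj
    rw [← Module.End.mul_apply, ← pow_add, he]
    congr 2
    omega
  exact hτ (j - i) (by omega) v h3

end Pool.Agent.H716R2
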