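import Pool.Agent.H716R2.WeakLim

set_option autoImplicit false
set_option linter.unusedSectionVars false
open MeasureTheory Filter Topology

namespace Pool.Agent.H716R2

variable {X : Type*} [MeasurableSpace X]
variable {G : Type*} [AddCommGroup G] [Finite G] [MeasurableSpace G] [DiscreteMeasurableSpace G]
variable {ι : Type*} [Fintype ι]

/-- The far part `∑ j, c j • f (T^{a j} x)` of a linear expression. -/
def farSum (T : X ≃ᵐ X) (f : X → G) (c : ι → ℤ) (a : ι → ℕ) (x : X) : G :=
  ∑ j, c j • f ((⇑T)^[a j] x)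

/-- The linear expression `f x + ∑ j, c j • f (T^{a j} x)`. -/
def linSum (T : X ≃ᵐ X) (f : X → G) (c : ι → ℤ) (a : ι → ℕ) (x : X) : G :=
  f x + farSum T f c a x

theorem farSum_meas (T : X ≃ᵐ X) {f : X → G} (hf : Measurable f) (c : ι → ℤ) (a : ι → ℕ) :
    Measurable (farSum T f c a) := by
  unfold farSum
  refine Finset.measurable_sum _ (fun j _ => ?_)
  exact (Measurable.of_discrete (f := fun g : G => c j • g)).comp (hf.comp (iter_meas T (a j)))

theorem linSum_meas (T : X ≃ᵐ X) {f : X → G} (hf : Measurable f) (c : ι → ℤ) (a : ι → ℕ) :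
    Measurable (linSum T f c a) := hf.add (farSum_meas T hf c a)

omit [Finite G] [MeasurableSpace G] [DiscreteMeasurableSpace G] in
theorem array_identity (T : X ≃ᵐ X) (f : X → G) (c : ι → ℤ) (a b : ι → ℕ) (x : X) :
    farSum T f c b x + ∑ i, c i • farSum T f c b ((⇑T)^[a i] x)
      = ∑ j, c j • linSum T f c a ((⇑T)^[b j] x) := by
  simp only [linSum, farSum, smul_add, Finset.sum_add_distrib, Finset.smul_sum]
  congr 1
  rw [Finset.sum_comm]
  refine Finset.sum_congr rfl (fun j _ => Finset.sum_congr rfl (fun i _ => ?_))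
  rw [smul_comm]
  congr 2
  have : (⇑T)^[b j] ((⇑T)^[a i] x) = (⇑T)^[a i] ((⇑T)^[b j] x) := by
    rw [← Function.iterate_add_apply, ← Function.iterate_add_apply, add_comm]
  rw [this]

omit [Finite G] [MeasurableSpace G] [DiscreteMeasurableSpace G] in
theorem array_identity2 (T : X ≃ᵐ X) (f : X → G) (c : ι → ℤ) (a b : ι → ℕ) (x : X) :
    linSum T f c b x + ∑ i, c i • linSum T f c b ((⇑T)^[a i] x)
      = linSum T f c a x + ∑ j, c j • linSum T f c a ((⇑T)^[b j] x) := by
  have h := array_identity T f c a b x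
  have h2 : ∑ i, c i • linSum T f c b ((⇑T)^[a i] x)
      = farSum T f c a x + ∑ i, c i • farSum T f c b ((⇑T)^[a i] x) := by
    simp only [linSum, smul_add, Finset.sum_add_distrib]
    rfl
  rw [h2, ← h]
  simp only [linSum]
  abel

/-- An exact recurrence `f x = - ∑ c j f (T^{a j} x)` with all `a j ≥ 1` is impossible for a
mixing transformation unless `f` is constant. -/
theorem exact_const {μ : Measure X} [IsProbabilityMeasure μ] {T : X ≃ᵐ X}
    (hT : MeasurePreserving T μ μ) (hmix : Mixing μ T) {f : X → G} (hf : Measurable f)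
    (c : ι → ℤ) (a : ι → ℕ) (ha : ∀ j, 1 ≤ a j) (hV : ∀ᵐ x ∂μ, linSum T f c a x = 0) :
    ∃ g0 : G, ∀ᵐ x ∂μ, f x = g0 := by
  classical
  obtain ⟨L, hL1, hL⟩ : ∃ L : ℕ, 1 ≤ L ∧ ∀ j, a j ≤ L := by
    refine ⟨1 + ∑ j, a j, by omega, fun j => ?_⟩
    have := Finset.single_le_sum (f := a) (fun i _ => Nat.zero_le _) (Finset.mem_univ j)
    omega
  let W : X → (Fin L → G) := fun x i => f ((⇑T)^[(i : ℕ)] x)
  have hW : Measurable W := measurable_pi_lambda _ (fun i => hf.comp (iter_meas T i))
  let Φ : (Fin L → G) → (Fin L → G) := fun w i =>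
    if h : (i : ℕ) = 0 then - ∑ j, c j • w ⟨a j - 1, by have := ha j; have := hL j; omega⟩
    else w ⟨(i : ℕ) - 1, by omega⟩
  have hΦ : ∀ᵐ x ∂μ, W x = Φ (W (T x)) := by
    filter_upwards [hV] with x hx
    funext i
    by_cases h : (i : ℕ) = 0
    · simp only [W, Φ, h, dif_pos]
      have h2 : ∀ j, (⇑T)^[a j - 1] (T x) = (⇑T)^[a j] x := by
        intro j
        rw [← Function.iterate_succ_apply]
        congr 1
        have := ha j
        omega
      simp only [h2, Function.iterate_zero, id]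
      rw [linSum] at hx
      exact eq_neg_of_add_eq_zero_left hx
    · simp only [W, Φ, h, dif_neg, not_false_eq_true]
      rw [← Function.iterate_succ_apply]
      congr 2
      omega
  have hΦn : ∀ n : ℕ, ∀ᵐ x ∂μ, W x = Φ^[n] (W ((⇑T)^[n] x)) := by
    intro n
    induction n with
    | zero => simp
    | succ n ih =>
      have h1 : ∀ᵐ x ∂μ, W ((⇑T)^[n] x) = Φ (W (T ((⇑T)^[n] x))) :=
        (iter_mp hT n).quasiMeasurePreserving.ae hΦ
      filter_upwards [ih, h1] with x hx h1x
      rw [hx, h1x, Function.iterate_succ_apply (f := Φ), Function.iterate_succ_apply' (f := ⇑T)]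
  -- each fibre of `f` has measure 0 or 1
  have key : ∀ h : G, μ.real (f ⁻¹' {h}) = μ.real (f ⁻¹' {h}) * μ.real (f ⁻¹' {h}) := by
    intro h
    set p := μ.real (f ⁻¹' {h}) with hp
    have hFm : ∀ w : Fin L → G, MeasurableSet (W ⁻¹' {w}) := fun w =>
      hW (MeasurableSet.of_discrete)
    have hfm : MeasurableSet (f ⁻¹' {h}) := hf (MeasurableSet.of_discrete)
    haveI : Fintype (Fin L → G) := Fintype.ofFinite _
    have hlim : Tendsto (fun n : ℕ => ∑ w : Fin L → G,
        |μ.real (f ⁻¹' {h} ∩ (⇑T)^[n] ⁻¹' (W ⁻¹' {w})) - p * μ.real (W ⁻¹' {w})|) atTop (𝓝 0) := by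
      have : (0 : ℝ) = ∑ w : Fin L → G, |p * μ.real (W ⁻¹' {w}) - p * μ.real (W ⁻¹' {w})| := by
        simp
      rw [this]
      refine tendsto_finsetSum _ (fun w _ => ?_)
      exact ((hmix _ _ hfm (hFm w)).sub_const _).abs
    have hle : ∀ n : ℕ, |p - p * p| ≤ ∑ w : Fin L → G,
        |μ.real (f ⁻¹' {h} ∩ (⇑T)^[n] ⁻¹' (W ⁻¹' {w})) - p * μ.real (W ⁻¹' {w})| := by
      intro n
      let S : Finset (Fin L → G) := Finset.univ.filter (fun w => (Φ^[n] w) ⟨0, hL1⟩ = h)
      have hae : ∀ᵐ x ∂μ, (x ∈ f ⁻¹' {h} ↔ W ((⇑T)^[n] x) ∈ S) := by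
        filter_upwards [hΦn n] with x hx
        simp only [S, Finset.mem_filter, Finset.mem_univ, true_and, Set.mem_preimage,
          Set.mem_singleton_iff]
        rw [← hx]
        simp [W]
      have e1 : p = ∑ w ∈ S, μ.real (f ⁻¹' {h} ∩ (⇑T)^[n] ⁻¹' (W ⁻¹' {w})) := by
        rw [← measureReal_biUnion_finset]
        · rw [hp]
          apply measureReal_congr
          filter_upwards [hae] with x hx
          apply propext
          change x ∈ f ⁻¹' {h} ↔ x ∈ ⋃ w ∈ S, f ⁻¹' {h} ∩ (⇑T)^[n] ⁻¹' (W ⁻¹' {w})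
          simp only [Set.mem_iUnion, Set.mem_inter_iff]
          constructor
          · intro h1
            exact ⟨W ((⇑T)^[n] x), hx.1 h1, h1, rfl⟩
          · rintro ⟨w, _, h1, _⟩
            exact h1
        · intro w _ w' _ hww'
          apply Set.disjoint_left.2
          rintro x ⟨_, h1⟩ ⟨_, h2⟩
          apply hww'
          simp only [Set.mem_preimage, Set.mem_singleton_iff] at h1 h2
          rw [← h1, ← h2]
        · intro w _
          exact hfm.inter ((iter_meas T n) (hFm w))
      have e2 : p = ∑ w ∈ S, μ.real (W ⁻¹' {w}) := by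
        rw [← measureReal_biUnion_finset]
        · rw [hp]
          have h3 : μ.real (⋃ w ∈ S, W ⁻¹' {w})
              = μ.real ((⇑T)^[n] ⁻¹' (⋃ w ∈ S, W ⁻¹' {w})) := by
            simp only [Measure.real]
            rw [(iter_mp hT n).measure_preimage]
            exact (MeasurableSet.biUnion S.countable_toSet (fun w _ => hFm w)).nullMeasurableSet
          rw [h3]
          apply measureReal_congr
          filter_upwards [hae] with x hx
          apply propext
          change x ∈ f ⁻¹' {h} ↔ x ∈ (⇑T)^[n] ⁻¹' (⋃ w ∈ S, W ⁻¹' {w})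
          rw [hx]
          simp
        · intro w _ w' _ hww'
          apply Set.disjoint_left.2
          intro x h1 h2
          apply hww'
          simp only [Set.mem_preimage, Set.mem_singleton_iff] at h1 h2
          rw [← h1, ← h2]
        · intro w _
          exact hFm w
      have e3 : p - p * p = ∑ w ∈ S, (μ.real (f ⁻¹' {h} ∩ (⇑T)^[n] ⁻¹' (W ⁻¹' {w}))
          - p * μ.real (W ⁻¹' {w})) := by
        rw [Finset.sum_sub_distrib, ← e1, ← Finset.mul_sum, ← e2]
      rw [e3]
      refine (Finset.abs_sum_le_sum_abs _ _).trans ?_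
      exact Finset.sum_le_sum_of_subset_of_nonneg (Finset.subset_univ _)
        (fun _ _ _ => abs_nonneg _)
    have h0 : |p - p * p| ≤ 0 := ge_of_tendsto' hlim hle
    have := abs_nonpos_iff.1 h0
    linarith
  -- some fibre has positive measure
  haveI : Fintype G := Fintype.ofFinite _
  have hsum : ∑ h : G, μ.real (f ⁻¹' {h}) = 1 := by
    rw [← measureReal_biUnion_finset]
    · have : (⋃ h ∈ (Finset.univ : Finset G), f ⁻¹' {h}) = Set.univ := by
        ext x; simp
      rw [this]; simp
    · intro w _ w' _ hww'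
      apply Set.disjoint_left.2
      intro x h1 h2
      apply hww'
      simp only [Set.mem_preimage, Set.mem_singleton_iff] at h1 h2
      rw [← h1, ← h2]
    · intro w _
      exact hf (MeasurableSet.of_discrete)
  obtain ⟨h, -, hne⟩ : ∃ h ∈ (Finset.univ : Finset G), μ.real (f ⁻¹' {h}) ≠ 0 := by
    apply Finset.exists_ne_zero_of_sum_ne_zero
    rw [hsum]; norm_num
  have h1 : μ.real (f ⁻¹' {h}) = 1 := by
    have h2 := key h
    have h3 : μ.real (f ⁻¹' {h}) * (μ.real (f ⁻¹' {h}) - 1) = 0 := by linarith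
    rcases mul_eq_zero.1 h3 with h4 | h4
    · exact absurd h4 hne
    · linarith
  refine ⟨h, ?_⟩
  have hm : MeasurableSet (f ⁻¹' {h}) := hf (MeasurableSet.of_discrete)
  have h4 : μ (f ⁻¹' {h}) = 1 := by
    have : (μ (f ⁻¹' {h})).toReal = 1 := h1
    rw [← ENNReal.ofReal_toReal (measure_ne_top μ (f ⁻¹' {h})), this]
    simp
  have h5 := (prob_compl_eq_zero_iff hm).2 h4
  rw [ae_iff]
  exact h5

end Pool.Agent.H716R2
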