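import Pool.Agent.H716R2.Circ
import Pool.Agent.H716R2.Exact

set_option autoImplicit false
set_option linter.unusedSectionVars false
open MeasureTheory Filter Topology

namespace Pool.Agent.H716R2

variable {X : Type*} [MeasurableSpace X]
variable {ι : Type*} [Fintype ι]

theorem WLim.mul {μ : Measure X} {U : Ultrafilter ℕ} {y : ℕ → X → ℝ} {v : X → ℝ}
    (h : WLim μ U y v) {g : X → ℝ} (hg : Measurable g) {C : ℝ} (hC : ∀ x, |g x| ≤ C) :
    WLim μ U (fun n x => g x * y n x) (fun x => g x * v x) := by
  intro φ hφ ⟨C', hC'⟩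
  have := h (fun x => φ x * g x) (hφ.mul hg) ⟨C' * C, fun x => by
    rw [abs_mul]
    exact mul_le_mul (hC' x) (hC x) (abs_nonneg _) ((abs_nonneg _).trans (hC' x))⟩
  simpa only [mul_assoc] using this

theorem farSumA_meas (T : X ≃ᵐ X) {f : X → Real.Angle} (hf : Measurable f) (c : ι → ℤ)
    (a : ι → ℕ) : Measurable (farSum T f c a) := by
  unfold farSum
  refine Finset.measurable_sum _ (fun j _ => ?_)
  exact (hf.comp (iter_meas T (a j))).const_smul (c j)

theorem linSumA_meas (T : X ≃ᵐ X) {f : X → Real.Angle} (hf : Measurable f) (c : ι → ℤ)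
    (a : ι → ℕ) : Measurable (linSum T f c a) := hf.add (farSumA_meas T hf c a)

theorem toReal_meas : Measurable Real.Angle.toReal := by
  have h : Real.Angle.toReal = fun θ : Real.Angle =>
      Complex.arg ((θ.cos : ℂ) + (θ.sin : ℂ) * Complex.I) := by
    funext θ
    rw [← Real.Angle.coe_toCircle]
    have h1 := Real.Angle.arg_toCircle θ
    have h2 : ((Complex.arg (θ.toCircle : ℂ) : ℝ) : Real.Angle).toReal
        = Complex.arg (θ.toCircle : ℂ) :=
      Real.Angle.toReal_coe_eq_self_iff.2 ⟨Complex.neg_pi_lt_arg _, Complex.arg_le_pi _⟩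
    rw [h1] at h2
    exact h2
  rw [h]
  refine Complex.measurable_arg.comp ?_
  exact (Complex.measurable_ofReal.comp cos_measurable).add
    ((Complex.measurable_ofReal.comp sin_measurable).mul_const _)

/-- First step: the weak limit of the far sums has modulus close to one. -/
theorem ccore_modulus {μ : Measure X} [IsProbabilityMeasure μ] {T : X ≃ᵐ X}
    (hT : MeasurePreserving T μ μ) (hmix : Mixing μ T) {f : X → Real.Angle} (hf : Measurable f)
    (c : ι → ℤ) (hc : ∀ j, c j = 1 ∨ c j = -1) (a : ℕ → ι → ℕ)
    (ha : ∀ j, Tendsto (fun n => a n j) atTop atTop) (ε : ℝ)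
    (hV : ∀ n, ∫ x, dfc (linSum T f c (a n) x) ∂μ ≤ ε)
    (U : Ultrafilter ℕ) (hU : (U : Filter ℕ) ≤ atTop) {ur ui : X → ℝ}
    (hur : Measurable ur) (hui : Measurable ui) (hur1 : ∀ x, |ur x| ≤ 1) (hui1 : ∀ x, |ui x| ≤ 1)
    (hurl : WLim μ U (fun n x => (farSum T f c (a n) x).cos) ur)
    (huil : WLim μ U (fun n x => (farSum T f c (a n) x).sin) ui) :
    (∀ᵐ x ∂μ, 1 - 4 * (Fintype.card ι : ℝ) ^ 2 * ε ≤ ur x * ur x + ui x * ui x) ∧
    (∀ᵐ x ∂μ, ur x * ur x + ui x * ui x ≤ 1) := by
  set s : ℝ := (Fintype.card ι : ℝ) with hs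
  have hs0 : 0 ≤ s := Nat.cast_nonneg _
  have hfar : ∀ n, Measurable (farSum T f c (a n)) := fun n => farSumA_meas T hf c (a n)
  have hlin : ∀ n, Measurable (linSum T f c (a n)) := fun n => linSumA_meas T hf c (a n)
  have hdl : ∀ n, Measurable (fun x => dfc (linSum T f c (a n) x)) := fun n =>
    dfc_measurable.comp (hlin n)
  obtain ⟨d, hdm, hd2, hdlim⟩ := exists_wlim μ U (fun n x => dfc (linSum T f c (a n) x)) hdl 2
    (fun n x => abs_dfc_le _)
  have hdint : Integrable d μ := int_of_bound hdm hd2
  have hdε : ∫ x, d x ∂μ ≤ ε := le_of_tendsto' hdlim.univ (fun n => hV n)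
  have hdlint : ∀ n, Integrable (fun x => dfc (linSum T f c (a n) x)) μ := fun n =>
    int_of_bound (hdl n) (fun x => abs_dfc_le _)
  have huint : Integrable (fun x => ur x * ur x + ui x * ui x) μ := by
    refine int_of_bound ((hur.mul hur).add (hui.mul hui)) (C := 2) (fun x => ?_)
    have h1 := hur1 x
    have h2 := hui1 x
    rw [abs_of_nonneg (add_nonneg (mul_self_nonneg _) (mul_self_nonneg _))]
    have h3 : ur x * ur x ≤ 1 := by
      rw [← abs_mul_abs_self]; exact mul_le_one₀ h1 (abs_nonneg _) h1
    have h4 : ui x * ui x ≤ 1 := by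
      rw [← abs_mul_abs_self]; exact mul_le_one₀ h2 (abs_nonneg _) h2
    linarith
  have hcm : ∀ n, Measurable (fun x => (farSum T f c (a n) x).cos) := fun n =>
    cos_measurable.comp (hfar n)
  have hsm : ∀ n, Measurable (fun x => (farSum T f c (a n) x).sin) := fun n =>
    sin_measurable.comp (hfar n)
  -- the double limit
  have hlimn : ∀ (A : Set X), MeasurableSet A → ∀ m,
      Tendsto (fun n => ∫ x in A, (farSum T f c (a n) x - farSum T f c (a m) x).cos ∂μ) U
        (𝓝 (∫ x in A, ((farSum T f c (a m) x).cos * ur x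
          + (farSum T f c (a m) x).sin * ui x) ∂μ)) := by
    intro A hA m
    have h1 := hurl.setMul hA (hcm m) (fun x => abs_cos_le_one' _)
    have h2 := huil.setMul hA (hsm m) (fun x => abs_sin_le_one' _)
    have h3 := h1.add h2
    have e1 : ∀ n, ∫ x in A, (farSum T f c (a m) x).cos * (farSum T f c (a n) x).cos ∂μ
        + ∫ x in A, (farSum T f c (a m) x).sin * (farSum T f c (a n) x).sin ∂μ
        = ∫ x in A, (farSum T f c (a n) x - farSum T f c (a m) x).cos ∂μ := by
      intro n
      rw [← integral_add]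
      · congr 1
        ext x
        rw [sub_eq_add_neg, Real.Angle.cos_add, Real.Angle.cos_neg, Real.Angle.sin_neg]
        ring
      · refine (int_of_bound ((hcm m).mul (hcm n)) (C := 1) (fun x => ?_)).integrableOn
        rw [Pi.mul_apply, abs_mul]
        exact mul_le_one₀ (abs_cos_le_one' _) (abs_nonneg _) (abs_cos_le_one' _)
      · refine (int_of_bound ((hsm m).mul (hsm n)) (C := 1) (fun x => ?_)).integrableOn
        rw [Pi.mul_apply, abs_mul]
        exact mul_le_one₀ (abs_sin_le_one' _) (abs_nonneg _) (abs_sin_le_one' _)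
    have e2 : ∫ x in A, (farSum T f c (a m) x).cos * ur x ∂μ
        + ∫ x in A, (farSum T f c (a m) x).sin * ui x ∂μ
        = ∫ x in A, ((farSum T f c (a m) x).cos * ur x
          + (farSum T f c (a m) x).sin * ui x) ∂μ := by
      rw [← integral_add]
      · refine (int_of_bound ((hcm m).mul hur) (C := 1) (fun x => ?_)).integrableOn
        rw [Pi.mul_apply, abs_mul]
        exact mul_le_one₀ (abs_cos_le_one' _) (abs_nonneg _) (hur1 x)
      · refine (int_of_bound ((hsm m).mul hui) (C := 1) (fun x => ?_)).integrableOn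
        rw [Pi.mul_apply, abs_mul]
        exact mul_le_one₀ (abs_sin_le_one' _) (abs_nonneg _) (hui1 x)
    rw [← e2]
    exact h3.congr e1
  have hlimm : ∀ (A : Set X), MeasurableSet A →
      Tendsto (fun m => ∫ x in A, ((farSum T f c (a m) x).cos * ur x
          + (farSum T f c (a m) x).sin * ui x) ∂μ) U
        (𝓝 (∫ x in A, (ur x * ur x + ui x * ui x) ∂μ)) := by
    intro A hA
    have h1 := hurl.setMul hA hur hur1
    have h2 := huil.setMul hA hui hui1
    have h3 := h1.add h2
    have e1 : ∀ n, ∫ x in A, ur x * (farSum T f c (a n) x).cos ∂μ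
        + ∫ x in A, ui x * (farSum T f c (a n) x).sin ∂μ
        = ∫ x in A, ((farSum T f c (a n) x).cos * ur x
          + (farSum T f c (a n) x).sin * ui x) ∂μ := by
      intro n
      rw [← integral_add]
      · congr 1
        ext x
        ring
      · refine (int_of_bound (hur.mul (hcm n)) (C := 1) (fun x => ?_)).integrableOn
        rw [Pi.mul_apply, abs_mul]
        exact mul_le_one₀ (hur1 x) (abs_nonneg _) (abs_cos_le_one' _)
      · refine (int_of_bound (hui.mul (hsm n)) (C := 1) (fun x => ?_)).integrableOn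
        rw [Pi.mul_apply, abs_mul]
        exact mul_le_one₀ (hui1 x) (abs_nonneg _) (abs_sin_le_one' _)
    have e2 : ∫ x in A, ur x * ur x ∂μ + ∫ x in A, ui x * ui x ∂μ
        = ∫ x in A, (ur x * ur x + ui x * ui x) ∂μ := by
      rw [← integral_add]
      · refine (int_of_bound (hur.mul hur) (C := 1) (fun x => ?_)).integrableOn
        rw [Pi.mul_apply, abs_mul]
        exact mul_le_one₀ (hur1 x) (abs_nonneg _) (hur1 x)
      · refine (int_of_bound (hui.mul hui) (C := 1) (fun x => ?_)).integrableOn
        rw [Pi.mul_apply, abs_mul]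
        exact mul_le_one₀ (hui1 x) (abs_nonneg _) (hui1 x)
    rw [← e2]
    exact h3.congr e1
  have hcosm : ∀ m n, Measurable
      (fun x => (farSum T f c (a n) x - farSum T f c (a m) x).cos) := fun m n =>
    cos_measurable.comp ((hfar n).sub (hfar m))
  constructor
  · -- lower bound
    have h1 : (fun _ : X => (1 - 4 * s ^ 2 * ε : ℝ))
        ≤ᵐ[μ] (fun x => ur x * ur x + ui x * ui x) := by
      apply ae_le_of_forall_setIntegral_le (integrable_const _) huint
      intro A hA _
      have hpt : ∀ m n x, dfc (farSum T f c (a n) x - farSum T f c (a m) x)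
          ≤ 2 * s * (∑ j, dfc (linSum T f c (a m) ((⇑T)^[a n j] x))
            + ∑ i, dfc (linSum T f c (a n) ((⇑T)^[a m i] x))) := by
        intro m n x
        let h : ι ⊕ ι → Real.Angle := Sum.elim
          (fun j => c j • linSum T f c (a m) ((⇑T)^[a n j] x))
          (fun i => -(c i • linSum T f c (a n) ((⇑T)^[a m i] x)))
        have e1 : farSum T f c (a n) x - farSum T f c (a m) x = ∑ k, h k := by
          have h3 := array_identity2 T f c (a m) (a n) x
          simp only [h, Fintype.sum_sum_type, Sum.elim_inl, Sum.elim_inr, Finset.sum_neg_distrib]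
          simp only [linSum] at h3 ⊢
          have h4 : farSum T f c (a n) x - farSum T f c (a m) x
              = (f x + farSum T f c (a n) x) - (f x + farSum T f c (a m) x) := by abel
          rw [h4]
          rw [sub_eq_iff_eq_add]
          have h5 := eq_sub_of_add_eq h3
          rw [h5]
          abel
        rw [e1]
        refine (dfc_sum_le Finset.univ h).trans ?_
        have e2 : ((Finset.univ : Finset (ι ⊕ ι)).card : ℝ) = 2 * s := by
          rw [Finset.card_univ, Fintype.card_sum]
          push_cast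
          ring
        rw [e2]
        refine mul_le_mul_of_nonneg_left ?_ (by positivity)
        simp only [h, Fintype.sum_sum_type, Sum.elim_inl, Sum.elim_inr, dfc_neg]
        simp only [sgn_dfc (hc _)]
        exact le_rfl
      have hcomp : ∀ n (k : ℕ), Integrable (fun x => dfc (linSum T f c (a n) ((⇑T)^[k] x))) μ :=
        fun n k => int_of_bound ((hdl n).comp (iter_meas T k)) (fun x => abs_dfc_le _)
      have hint : ∀ m n, μ.real A - ∫ x in A, (farSum T f c (a n) x - farSum T f c (a m) x).cos ∂μ
          ≤ 2 * s * (∑ j, ∫ x in A, dfc (linSum T f c (a m) ((⇑T)^[a n j] x)) ∂μ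
            + ∑ i, ∫ x in A, dfc (linSum T f c (a n) ((⇑T)^[a m i] x)) ∂μ) := by
        intro m n
        have e1 : μ.real A - ∫ x in A, (farSum T f c (a n) x - farSum T f c (a m) x).cos ∂μ
            = ∫ x in A, dfc (farSum T f c (a n) x - farSum T f c (a m) x) ∂μ := by
          unfold dfc
          rw [integral_sub (integrable_const _)]
          · simp
          · exact (int_of_bound (hcosm m n) (C := 1) (fun x => abs_cos_le_one' _)).integrableOn
        have e2 : 2 * s * (∑ j, ∫ x in A, dfc (linSum T f c (a m) ((⇑T)^[a n j] x)) ∂μ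
            + ∑ i, ∫ x in A, dfc (linSum T f c (a n) ((⇑T)^[a m i] x)) ∂μ)
            = ∫ x in A, 2 * s * (∑ j, dfc (linSum T f c (a m) ((⇑T)^[a n j] x))
            + ∑ i, dfc (linSum T f c (a n) ((⇑T)^[a m i] x))) ∂μ := by
          rw [integral_const_mul, integral_add, integral_finsetSum, integral_finsetSum]
          · intro i _; exact (hcomp n (a m i)).integrableOn
          · intro i _; exact (hcomp m (a n i)).integrableOn
          · exact integrable_finsetSum _ (fun i _ => (hcomp m (a n i)).integrableOn)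
          · exact integrable_finsetSum _ (fun i _ => (hcomp n (a m i)).integrableOn)
        rw [e1, e2]
        refine setIntegral_mono ?_ ?_ (hpt m n)
        · exact (int_of_bound (dfc_measurable.comp ((hfar n).sub (hfar m)))
            (fun x => abs_dfc_le _)).integrableOn
        · refine Integrable.const_mul (Integrable.add ?_ ?_) _
          · exact integrable_finsetSum _ (fun i _ => (hcomp m (a n i)).integrableOn)
          · exact integrable_finsetSum _ (fun i _ => (hcomp n (a m i)).integrableOn)
      have hl1 : ∀ m, Tendsto (fun n => ∑ j, ∫ x in A, dfc (linSum T f c (a m) ((⇑T)^[a n j] x)) ∂μ)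
          U (𝓝 (∑ _j : ι, μ.real A * ∫ x, dfc (linSum T f c (a m) x) ∂μ)) := by
        intro m
        refine tendsto_finsetSum _ (fun j _ => ?_)
        exact ((mixing_fun hT hmix (hdlint m) hA).comp (ha j)).mono_left hU
      have hl2 : ∀ m, Tendsto (fun n => ∑ i, ∫ x in A, dfc (linSum T f c (a n) ((⇑T)^[a m i] x)) ∂μ)
          U (𝓝 (∑ i, ∫ x in A, d ((⇑T)^[a m i] x) ∂μ)) := by
        intro m
        exact tendsto_finsetSum _ (fun i _ => hdlim.shift hT (a m i) hA)
      have hb1 : ∀ m, μ.real A - ∫ x in A, ((farSum T f c (a m) x).cos * ur x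
          + (farSum T f c (a m) x).sin * ui x) ∂μ
          ≤ 2 * s * (s * ε * μ.real A + ∑ i, ∫ x in A, d ((⇑T)^[a m i] x) ∂μ) := by
        intro m
        have h2 := le_of_tendsto_of_tendsto' ((hlimn A hA m).const_sub (μ.real A))
          (((hl1 m).add (hl2 m)).const_mul (2 * s)) (fun n => hint m n)
        refine h2.trans ?_
        refine mul_le_mul_of_nonneg_left ?_ (by positivity)
        have h3 : ∑ _j : ι, μ.real A * ∫ x, dfc (linSum T f c (a m) x) ∂μ ≤ s * ε * μ.real A := by
          simp only [Finset.sum_const, Finset.card_univ, nsmul_eq_mul]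
          rw [← hs, mul_assoc, mul_comm (μ.real A)]
          exact mul_le_mul_of_nonneg_left
            (mul_le_mul_of_nonneg_right (hV m) measureReal_nonneg) hs0
        linarith
      have hl3 : Tendsto (fun m => ∑ i, ∫ x in A, d ((⇑T)^[a m i] x) ∂μ) U
          (𝓝 (∑ _i : ι, μ.real A * ∫ x, d x ∂μ)) := by
        refine tendsto_finsetSum _ (fun j _ => ?_)
        exact ((mixing_fun hT hmix hdint hA).comp (ha j)).mono_left hU
      have h2 := le_of_tendsto_of_tendsto' ((hlimm A hA).const_sub (μ.real A))
        ((hl3.const_add (s * ε * μ.real A)).const_mul (2 * s)) hb1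
      have h3 : ∑ _i : ι, μ.real A * ∫ x, d x ∂μ ≤ s * ε * μ.real A := by
        simp only [Finset.sum_const, Finset.card_univ, nsmul_eq_mul]
        rw [← hs, mul_assoc, mul_comm (μ.real A)]
        exact mul_le_mul_of_nonneg_left
          (mul_le_mul_of_nonneg_right hdε measureReal_nonneg) hs0
      have h4 : 2 * s * (s * ε * μ.real A + ∑ _i : ι, μ.real A * ∫ x, d x ∂μ)
          ≤ 2 * s * (s * ε * μ.real A + s * ε * μ.real A) :=
        mul_le_mul_of_nonneg_left (by linarith) (by positivity)
      have h5 : ∫ _x in A, (1 - 4 * s ^ 2 * ε) ∂μ = (1 - 4 * s ^ 2 * ε) * μ.real A := by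
        simp [mul_comm]
      rw [h5]
      nlinarith
    exact h1
  · have h1 : (fun x => ur x * ur x + ui x * ui x) ≤ᵐ[μ] (fun _ : X => (1 : ℝ)) := by
      apply ae_le_of_forall_setIntegral_le huint (integrable_const _)
      intro A hA _
      have h2 : ∀ m, ∫ x in A, ((farSum T f c (a m) x).cos * ur x
          + (farSum T f c (a m) x).sin * ui x) ∂μ ≤ ∫ _x in A, (1 : ℝ) ∂μ := by
        intro m
        refine le_of_tendsto' (hlimn A hA m) (fun n => ?_)
        refine setIntegral_mono ?_ (integrable_const _).integrableOn (fun x => cos_le_one' _)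
        exact (int_of_bound (hcosm m n) (C := 1) (fun x => abs_cos_le_one' _)).integrableOn
      exact le_of_tendsto' (hlimm A hA) h2
    exact h1

end Pool.Agent.H716R2
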