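import Pool.Agent.H716R2.Circ
import Pool.Agent.H716R2.Exact
import Pool.Agent.H716R2.Alg

set_option autoImplicit false
set_option linter.unusedSectionVars false
open MeasureTheory Filter Topology

namespace Pool.Agent.H716R2

variable {X : Type*} [MeasurableSpace X]
variable {ι : Type*} [Fintype ι]

theorem angle_eq_zero_of_dfc {θ : Real.Angle} (h : dfc θ ≤ 0) : θ = 0 := by
  have h1 := toReal_le_of_dfc h
  have h2 : Real.pi * Real.sqrt (0 / 2) = 0 := by simp
  rw [h2] at h1
  have h3 : θ.toReal = 0 := abs_nonpos_iff.1 h1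
  exact Real.Angle.toReal_eq_zero_iff.1 h3

/-- An angle with prescribed direction. -/
theorem exists_dir (p q : ℝ) : Real.sqrt (p * p + q * q)
    * ((Complex.arg (p + q * Complex.I) : ℝ) : Real.Angle).cos = p ∧
    Real.sqrt (p * p + q * q) * ((Complex.arg (p + q * Complex.I) : ℝ) : Real.Angle).sin = q := by
  have h1 : ‖(p : ℂ) + q * Complex.I‖ = Real.sqrt (p * p + q * q) := by
    rw [Complex.norm_add_mul_I]
    congr 1
    ring
  rw [← h1]
  constructor
  · rw [Real.Angle.cos_coe, Complex.norm_mul_cos_arg]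
    simp
  · rw [Real.Angle.sin_coe, Complex.norm_mul_sin_arg]
    simp

theorem const_of_integral {μ : Measure X} [IsProbabilityMeasure μ] {f : X → Real.Angle}
    (hf : Measurable f)
    (h : (∫ x, (f x).cos ∂μ) * (∫ x, (f x).cos ∂μ) + (∫ x, (f x).sin ∂μ) * (∫ x, (f x).sin ∂μ) = 1) :
    ∃ g0 : Real.Angle, ∀ᵐ x ∂μ, f x = g0 := by
  set p := ∫ x, (f x).cos ∂μ with hp
  set q := ∫ x, (f x).sin ∂μ with hq
  obtain ⟨h1, h2⟩ := exists_dir p q
  rw [h, Real.sqrt_one, one_mul] at h1 h2
  set g0 : Real.Angle := ((Complex.arg (p + q * Complex.I) : ℝ) : Real.Angle) with hg0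
  have hcm : Measurable (fun x => (f x).cos) := cos_measurable.comp hf
  have hsm : Measurable (fun x => (f x).sin) := sin_measurable.comp hf
  have hci : Integrable (fun x => (f x).cos) μ := int_of_bound hcm (fun x => abs_cos_le_one' _)
  have hsi : Integrable (fun x => (f x).sin) μ := int_of_bound hsm (fun x => abs_sin_le_one' _)
  have h3 : ∫ x, dfc (f x - g0) ∂μ = 0 := by
    have e : ∀ x, dfc (f x - g0) = 1 - ((f x).cos * p + (f x).sin * q) := by
      intro x
      unfold dfc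
      rw [sub_eq_add_neg (f x) g0, Real.Angle.cos_add, Real.Angle.cos_neg, Real.Angle.sin_neg,
        h1, h2]
      ring
    simp only [e]
    have e1 : ∫ x, ((f x).cos * p + (f x).sin * q) ∂μ = 1 := by
      rw [integral_add (hci.mul_const _) (hsi.mul_const _), integral_mul_const, integral_mul_const,
        ← hp, ← hq, h]
    rw [integral_sub (integrable_const _), e1]
    · simp
    · exact (hci.mul_const _).add (hsi.mul_const _)
  have h4 : (fun x => dfc (f x - g0)) =ᵐ[μ] 0 := by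
    refine (integral_eq_zero_iff_of_nonneg (fun x => dfc_nonneg _) ?_).1 h3
    exact int_of_bound (dfc_measurable.comp (hf.sub measurable_const)) (fun x => abs_dfc_le _)
  refine ⟨g0, ?_⟩
  filter_upwards [h4] with x hx
  exact sub_eq_zero.1 (angle_eq_zero_of_dfc hx.le)

/-- A mixing transformation has no eigenfunctions, even for its powers. -/
theorem shift_const {μ : Measure X} [IsProbabilityMeasure μ] {T : X ≃ᵐ X}
    (hT : MeasurePreserving T μ μ) (hmix : Mixing μ T) {f : X → Real.Angle} (hf : Measurable f)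
    {k : ℕ} (hk : 0 < k) (γ : Real.Angle) (h : ∀ᵐ x ∂μ, f ((⇑T)^[k] x) = f x + γ) :
    ∃ g0 : Real.Angle, ∀ᵐ x ∂μ, f x = g0 := by
  have hcm : Measurable (fun x => (f x).cos) := cos_measurable.comp hf
  have hsm : Measurable (fun x => (f x).sin) := sin_measurable.comp hf
  have hci : Integrable (fun x => (f x).cos) μ := int_of_bound hcm (fun x => abs_cos_le_one' _)
  have hsi : Integrable (fun x => (f x).sin) μ := int_of_bound hsm (fun x => abs_sin_le_one' _)
  have hn : ∀ n : ℕ, ∀ᵐ x ∂μ, f ((⇑T)^[k * n] x) = f x + n • γ := by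
    intro n
    induction n with
    | zero => simp
    | succ n ih =>
      have h1 : ∀ᵐ x ∂μ, f ((⇑T)^[k] ((⇑T)^[k * n] x)) = f ((⇑T)^[k * n] x) + γ :=
        (iter_mp hT (k * n)).quasiMeasurePreserving.ae h
      filter_upwards [ih, h1] with x hx h1x
      rw [hx, ← Function.iterate_add_apply] at h1x
      rw [Nat.mul_succ, add_comm (k * n) k, h1x, succ_nsmul, add_assoc]
  have hkn : Tendsto (fun n : ℕ => k * n) atTop atTop := Filter.tendsto_id.const_mul_atTop' hk
  have hc2m : ∀ n : ℕ, Measurable (fun x => (f ((⇑T)^[n] x)).cos) := fun n =>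
    hcm.comp (iter_meas T n)
  have hs2m : ∀ n : ℕ, Measurable (fun x => (f ((⇑T)^[n] x)).sin) := fun n =>
    hsm.comp (iter_meas T n)
  have b : ∀ {u v : X → ℝ}, Measurable u → Measurable v → (∀ x, |u x| ≤ 1) → (∀ x, |v x| ≤ 1) →
      Integrable (fun x => u x * v x) μ := by
    intro u v hu hv h1 h2
    refine int_of_bound (hu.mul hv) (C := 1) (fun x => ?_)
    rw [abs_mul]
    exact mul_le_one₀ (h1 x) (abs_nonneg _) (h2 x)
  have hcc := ((mixing_fun2 hT hmix hci hcm (fun x => abs_cos_le_one' _)).comp hkn)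
  have hss := ((mixing_fun2 hT hmix hsi hsm (fun x => abs_sin_le_one' _)).comp hkn)
  have hcs := ((mixing_fun2 hT hmix hci hsm (fun x => abs_sin_le_one' _)).comp hkn)
  have hsc := ((mixing_fun2 hT hmix hsi hcm (fun x => abs_cos_le_one' _)).comp hkn)
  have h1 := hcc.add hss
  have h2 := hcs.sub hsc
  have e1 : ∀ n : ℕ, ∫ x, (f x).cos * (f ((⇑T)^[k * n] x)).cos ∂μ
      + ∫ x, (f x).sin * (f ((⇑T)^[k * n] x)).sin ∂μ = (n • γ).cos := by
    intro n
    rw [← integral_add (b hcm (hc2m _) (fun x => abs_cos_le_one' _) (fun x => abs_cos_le_one' _))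
      (b hsm (hs2m _) (fun x => abs_sin_le_one' _) (fun x => abs_sin_le_one' _))]
    have : ∀ᵐ x ∂μ, (f x).cos * (f ((⇑T)^[k * n] x)).cos
        + (f x).sin * (f ((⇑T)^[k * n] x)).sin = (n • γ).cos := by
      filter_upwards [hn n] with x hx
      have : n • γ = f ((⇑T)^[k * n] x) + - f x := by rw [hx]; abel
      rw [this, Real.Angle.cos_add, Real.Angle.cos_neg, Real.Angle.sin_neg]
      ring
    rw [integral_congr_ae this]
    simp
  have e2 : ∀ n : ℕ, ∫ x, (f x).cos * (f ((⇑T)^[k * n] x)).sin ∂μ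
      - ∫ x, (f x).sin * (f ((⇑T)^[k * n] x)).cos ∂μ = (n • γ).sin := by
    intro n
    rw [← integral_sub (b hcm (hs2m _) (fun x => abs_cos_le_one' _) (fun x => abs_sin_le_one' _))
      (b hsm (hc2m _) (fun x => abs_sin_le_one' _) (fun x => abs_cos_le_one' _))]
    have : ∀ᵐ x ∂μ, (f x).cos * (f ((⇑T)^[k * n] x)).sin
        - (f x).sin * (f ((⇑T)^[k * n] x)).cos = (n • γ).sin := by
      filter_upwards [hn n] with x hx
      have : n • γ = f ((⇑T)^[k * n] x) + - f x := by rw [hx]; abel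
      rw [this, Real.Angle.sin_add, Real.Angle.cos_neg, Real.Angle.sin_neg]
      ring
    rw [integral_congr_ae this]
    simp
  have h1' : Tendsto (fun n : ℕ => (n • γ).cos) atTop (𝓝 ((∫ x, (f x).cos ∂μ)
      * (∫ x, (f x).cos ∂μ) + (∫ x, (f x).sin ∂μ) * (∫ x, (f x).sin ∂μ))) := h1.congr e1
  have h2' : Tendsto (fun n : ℕ => (n • γ).sin) atTop (𝓝 ((∫ x, (f x).cos ∂μ)
      * (∫ x, (f x).sin ∂μ) - (∫ x, (f x).sin ∂μ) * (∫ x, (f x).cos ∂μ))) := h2.congr e2
  have h3 := (h1'.pow 2).add (h2'.pow 2)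
  have h4 : ∀ n : ℕ, (n • γ).cos ^ 2 + (n • γ).sin ^ 2 = 1 := fun n =>
    Real.Angle.cos_sq_add_sin_sq _
  simp only [h4] at h3
  have h5 := tendsto_nhds_unique h3 tendsto_const_nhds
  apply const_of_integral hf
  have h6 : 0 ≤ (∫ x, (f x).cos ∂μ) * (∫ x, (f x).cos ∂μ)
    + (∫ x, (f x).sin ∂μ) * (∫ x, (f x).sin ∂μ) :=
    add_nonneg (mul_self_nonneg _) (mul_self_nonneg _)
  have h7 : ((∫ x, (f x).cos ∂μ) * (∫ x, (f x).cos ∂μ)
    + (∫ x, (f x).sin ∂μ) * (∫ x, (f x).sin ∂μ)) ^ 2 = 1 := by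
    have : (∫ x, (f x).cos ∂μ) * (∫ x, (f x).sin ∂μ) - (∫ x, (f x).sin ∂μ) * (∫ x, (f x).cos ∂μ)
      = 0 := by ring
    rw [this] at h5
    linarith
  exact (pow_eq_one_iff_of_nonneg h6 two_ne_zero).1 h7

/-- The group of measurable angle-valued functions. -/
noncomputable def MF (X : Type*) [MeasurableSpace X] : AddSubgroup (X → Real.Angle) where
  carrier := {f | Measurable f}
  zero_mem' := measurable_const
  add_mem' := fun hf hg => Measurable.add hf hg
  neg_mem' := fun hf => Measurable.neg hf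

/-- The subgroup of almost everywhere constant functions. -/
noncomputable def NF (μ : Measure X) : Submodule ℤ (MF X) := AddSubgroup.toIntSubmodule
  { carrier := {f | ∃ g0 : Real.Angle, ∀ᵐ x ∂μ, f.1 x = g0}
    zero_mem' := ⟨0, Eventually.of_forall (fun _ => rfl)⟩
    add_mem' := by
      rintro f g ⟨a, ha⟩ ⟨b, hb⟩
      refine ⟨a + b, ?_⟩
      filter_upwards [ha, hb] with x h1 h2
      change f.1 x + g.1 x = a + b
      rw [h1, h2]
    neg_mem' := by
      rintro f ⟨a, ha⟩
      refine ⟨-a, ?_⟩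
      filter_upwards [ha] with x h1
      change - f.1 x = - a
      rw [h1] }

theorem mem_NF {μ : Measure X} (f : MF X) :
    f ∈ NF μ ↔ ∃ g0 : Real.Angle, ∀ᵐ x ∂μ, f.1 x = g0 := Iff.rfl

/-- Composition with `T`. -/
noncomputable def shiftF (T : X ≃ᵐ X) : Module.End ℤ (MF X) := AddMonoidHom.toIntLinearMap
  { toFun := fun f => ⟨fun x => f.1 (T x), Measurable.comp f.2 T.measurable⟩
    map_zero' := rfl
    map_add' := fun _ _ => rfl }

theorem shiftF_pow (T : X ≃ᵐ X) (f : MF X) (k : ℕ) (x : X) :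
    ((shiftF T ^ k) f).1 x = f.1 ((⇑T)^[k] x) := by
  induction k generalizing x with
  | zero => rfl
  | succ k ih =>
    rw [pow_succ', Module.End.mul_apply]
    change ((shiftF T ^ k) f).1 (T x) = _
    rw [ih, Function.iterate_succ_apply]

/-- Very lacunary relations that hold up to constants force a function to be constant. -/
theorem lacunary_const {μ : Measure X} [IsProbabilityMeasure μ] {T : X ≃ᵐ X}
    (hT : MeasurePreserving T μ μ) (hmix : Mixing μ T) {f : X → Real.Angle} (hf : Measurable f)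
    (c : ι → ℤ) (a : ℕ → ι → ℕ) (ha : ∀ j, Tendsto (fun n => a n j) atTop atTop)
    (h : ∀ m, ∃ γ : Real.Angle, ∀ᵐ x ∂μ, linSum T f c (a m) x = γ) :
    ∃ g0 : Real.Angle, ∀ᵐ x ∂μ, f x = g0 := by
  have hN : NF μ ≤ (NF μ).comap (shiftF T) := by
    intro f hf
    rw [Submodule.mem_comap]
    rw [mem_NF] at hf ⊢
    obtain ⟨g0, hg0⟩ := hf
    exact ⟨g0, hT.quasiMeasurePreserving.ae hg0⟩
  let τ : Module.End ℤ (MF X ⧸ NF μ) := (NF μ).mapQ (NF μ) (shiftF T) hN
  have hτk : ∀ (k : ℕ) (f : MF X), (τ ^ k) (Submodule.Quotient.mk f)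
      = Submodule.Quotient.mk ((shiftF T ^ k) f) := by
    intro k f
    have h1 := Submodule.mapQ_pow (p := NF μ) hN k
    have h2 := congrArg (fun (φ : Module.End ℤ (MF X ⧸ NF μ)) => φ (Submodule.Quotient.mk f)) h1
    simp only [Submodule.mapQ_apply] at h2
    exact h2.symm
  have hzero : (Submodule.Quotient.mk ⟨f, hf⟩ : MF X ⧸ NF μ) = 0 := by
    refine lacunary_rigid τ ?_ ?_ c a ha _ ?_
    · rw [injective_iff_map_eq_zero]
      intro v hv
      obtain ⟨g, rfl⟩ := Submodule.Quotient.mk_surjective _ v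
      have h1 := hτk 1 g
      rw [pow_one, pow_one, hv] at h1
      have h2 := (Submodule.Quotient.mk_eq_zero _).1 h1.symm
      rw [Submodule.Quotient.mk_eq_zero]
      rw [mem_NF] at h2 ⊢
      obtain ⟨g0, hg0⟩ := h2
      refine ⟨g0, ?_⟩
      have h3 := (mp_symm hT).quasiMeasurePreserving.ae hg0
      filter_upwards [h3] with x hx
      change g.1 (T (T.symm x)) = g0 at hx
      rw [MeasurableEquiv.apply_symm_apply] at hx
      exact hx
    · intro k hk v hv
      obtain ⟨g, rfl⟩ := Submodule.Quotient.mk_surjective _ v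
      rw [hτk, Submodule.Quotient.eq] at hv
      rw [mem_NF] at hv
      obtain ⟨γ, hγ⟩ := hv
      rw [Submodule.Quotient.mk_eq_zero, mem_NF]
      refine shift_const hT hmix g.2 hk γ ?_
      filter_upwards [hγ] with x hx
      have h1 : ((shiftF T ^ k) g - g).1 x = g.1 ((⇑T)^[k] x) - g.1 x := by
        change ((shiftF T ^ k) g).1 x - g.1 x = _
        rw [shiftF_pow]
      rw [h1] at hx
      rw [← hx]
      abel
    · intro m
      have e1 : (Submodule.Quotient.mk ⟨f, hf⟩ : MF X ⧸ NF μ)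
          + ∑ j, c j • (τ ^ (a m j)) (Submodule.Quotient.mk ⟨f, hf⟩)
          = (Submodule.Quotient.mk (⟨f, hf⟩ + ∑ j, c j • (shiftF T ^ (a m j)) ⟨f, hf⟩)) := by
        simp only [hτk]
        have := (Submodule.mkQ (NF μ)).map_add ⟨f, hf⟩
          (∑ j, c j • (shiftF T ^ (a m j)) ⟨f, hf⟩)
        rw [map_sum] at this
        simp only [map_smul] at this
        exact this.symm
      rw [e1, Submodule.Quotient.mk_eq_zero, mem_NF]
      obtain ⟨γ, hγ⟩ := h m
      refine ⟨γ, ?_⟩
      filter_upwards [hγ] with x hx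
      rw [← hx]
      unfold linSum farSum
      have e2 : (⟨f, hf⟩ + ∑ j, c j • (shiftF T ^ (a m j)) ⟨f, hf⟩ : MF X).1 x
          = f x + (∑ j, c j • (shiftF T ^ (a m j)) ⟨f, hf⟩ : MF X).1 x := rfl
      rw [e2]
      congr 1
      rw [AddSubgroup.val_finsetSum, Finset.sum_apply]
      refine Finset.sum_congr rfl (fun j _ => ?_)
      change c j • ((shiftF T ^ (a m j)) ⟨f, hf⟩ : MF X).1 x = _
      rw [shiftF_pow]
  rw [Submodule.Quotient.mk_eq_zero, mem_NF] at hzero
  exact hzero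

end Pool.Agent.H716R2
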