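import Pool.Agent.H716R2.CCore
import Pool.Agent.H716R2.Rigid

set_option autoImplicit false
set_option linter.unusedSectionVars false
open MeasureTheory Filter Topology

namespace Pool.Agent.H716R2

variable {X : Type*} [MeasurableSpace X]
variable {ι : Type*} [Fintype ι]

theorem int_mul_bound {μ : Measure X} [IsProbabilityMeasure μ] {u v : X → ℝ} (hu : Measurable u)
    (hv : Measurable v) {C D : ℝ} (h1 : ∀ x, |u x| ≤ C) (h2 : ∀ x, |v x| ≤ D) :
    Integrable (fun x => u x * v x) μ := by
  refine int_of_bound (hu.mul hv) (C := C * D) (fun x => ?_)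
  rw [abs_mul]
  exact mul_le_mul (h1 x) (h2 x) (abs_nonneg _) ((abs_nonneg _).trans (h1 x))

/-- Second step: the function is close to an angle-valued function all of whose linear
expressions are uniformly close to zero. -/
theorem ccore_near {μ : Measure X} [IsProbabilityMeasure μ] {T : X ≃ᵐ X}
    (hT : MeasurePreserving T μ μ) (hmix : Mixing μ T) {f : X → Real.Angle} (hf : Measurable f)
    (c : ι → ℤ) (hc : ∀ j, c j = 1 ∨ c j = -1) (a : ℕ → ι → ℕ)
    (ha : ∀ j, Tendsto (fun n => a n j) atTop atTop) (ε : ℝ)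
    (hV : ∀ n, ∫ x, dfc (linSum T f c (a n) x) ∂μ ≤ ε) :
    ∃ F : X → Real.Angle, Measurable F ∧
      (∀ m, ∀ᵐ x ∂μ, dfc (linSum T F c (a m) x) ≤ (2 * (Fintype.card ι : ℝ) + 1) *
        (((Fintype.card ι : ℝ) + 1) * (4 * (Fintype.card ι : ℝ) ^ 2 * ε)
          + (Fintype.card ι : ℝ) * ε)) ∧
      ∫ x, dfc (f x - F x) ∂μ ≤ 2 * (ε + 4 * (Fintype.card ι : ℝ) ^ 2 * ε) := by
  obtain ⟨U, hU⟩ : ∃ U : Ultrafilter ℕ, (U : Filter ℕ) ≤ atTop :=
    ⟨Ultrafilter.of atTop, Ultrafilter.of_le atTop⟩
  have hfar : ∀ n, Measurable (farSum T f c (a n)) := fun n => farSumA_meas T hf c (a n)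
  have hlin : ∀ n, Measurable (linSum T f c (a n)) := fun n => linSumA_meas T hf c (a n)
  have hcm : ∀ n, Measurable (fun x => (farSum T f c (a n) x).cos) := fun n =>
    cos_measurable.comp (hfar n)
  have hsm : ∀ n, Measurable (fun x => (farSum T f c (a n) x).sin) := fun n =>
    sin_measurable.comp (hfar n)
  obtain ⟨ur, hur, hur1, hurl⟩ := exists_wlim μ U (fun n x => (farSum T f c (a n) x).cos) hcm 1
    (fun n x => abs_cos_le_one' _)
  obtain ⟨ui, hui, hui1, huil⟩ := exists_wlim μ U (fun n x => (farSum T f c (a n) x).sin) hsm 1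
    (fun n x => abs_sin_le_one' _)
  obtain ⟨hlow, hup⟩ := ccore_modulus hT hmix hf c hc a ha ε hV U hU hur hui hur1 hui1 hurl huil
  set s : ℝ := (Fintype.card ι : ℝ) with hs
  have hs0 : 0 ≤ s := Nat.cast_nonneg _
  set δ : ℝ := 4 * s ^ 2 * ε with hδ
  let ρ : X → ℝ := fun x => Real.sqrt (ur x * ur x + ui x * ui x)
  have hρm : Measurable ρ := ((hur.mul hur).add (hui.mul hui)).sqrt
  have hρ0 : ∀ x, 0 ≤ ρ x := fun x => Real.sqrt_nonneg _
  have hρ2 : ∀ x, ρ x * ρ x = ur x * ur x + ui x * ui x := fun x =>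
    Real.mul_self_sqrt (add_nonneg (mul_self_nonneg _) (mul_self_nonneg _))
  have hρle : ∀ x, |ρ x| ≤ 2 := by
    intro x
    rw [abs_of_nonneg (hρ0 x)]
    have h3 : ur x * ur x ≤ 1 := by
      rw [← abs_mul_abs_self]; exact mul_le_one₀ (hur1 x) (abs_nonneg _) (hur1 x)
    have h4 : ui x * ui x ≤ 1 := by
      rw [← abs_mul_abs_self]; exact mul_le_one₀ (hui1 x) (abs_nonneg _) (hui1 x)
    nlinarith [hρ2 x, hρ0 x]
  have hρδ : ∀ᵐ x ∂μ, 1 - ρ x ≤ δ := by
    filter_upwards [hlow, hup] with x h1 h2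
    have h3 := hρ2 x
    have h4 : ρ x ≤ 1 := by nlinarith [hρ0 x]
    nlinarith [hρ0 x]
  let F : X → Real.Angle := fun x =>
    ((Complex.arg (((ur x : ℝ) : ℂ) + ((-(ui x) : ℝ) : ℂ) * Complex.I) : ℝ) : Real.Angle)
  have hFm : Measurable F := by
    refine Real.Angle.continuous_coe.measurable.comp (Complex.measurable_arg.comp ?_)
    exact (Complex.measurable_ofReal.comp hur).add
      ((Complex.measurable_ofReal.comp hui.neg).mul_const _)
  have hFc : ∀ x, ρ x * (F x).cos = ur x := by
    intro x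
    have := (exists_dir (ur x) (-(ui x))).1
    rw [neg_mul_neg] at this
    exact this
  have hFs : ∀ x, ρ x * (F x).sin = - ui x := by
    intro x
    have := (exists_dir (ur x) (-(ui x))).2
    rw [neg_mul_neg] at this
    exact this
  have hFcm : Measurable (fun x => (F x).cos) := cos_measurable.comp hFm
  have hFsm : Measurable (fun x => (F x).sin) := sin_measurable.comp hFm
  -- the twisted far sums
  let w : ℕ → X → Real.Angle := fun n x => F x + farSum T f c (a n) x
  have hwm : ∀ n, Measurable (w n) := fun n => hFm.add (hfar n)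
  have hwlim : WLim μ U (fun n x => dfc (w n x)) (fun x => 1 - ρ x) := by
    intro φ hφ ⟨C, hC⟩
    have h1 := hurl (fun x => φ x * (F x).cos) (hφ.mul hFcm) ⟨C * 1, fun x => by
      rw [abs_mul]
      exact mul_le_mul (hC x) (abs_cos_le_one' _) (abs_nonneg _) ((abs_nonneg _).trans (hC x))⟩
    have h2 := huil (fun x => φ x * (F x).sin) (hφ.mul hFsm) ⟨C * 1, fun x => by
      rw [abs_mul]
      exact mul_le_mul (hC x) (abs_sin_le_one' _) (abs_nonneg _) ((abs_nonneg _).trans (hC x))⟩
    have h3 := ((h1.sub h2).const_sub (∫ x, φ x ∂μ))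
    have hφc : ∀ x, |φ x * (F x).cos| ≤ C * 1 := fun x => by
      rw [abs_mul]
      exact mul_le_mul (hC x) (abs_cos_le_one' _) (abs_nonneg _) ((abs_nonneg _).trans (hC x))
    have hφs : ∀ x, |φ x * (F x).sin| ≤ C * 1 := fun x => by
      rw [abs_mul]
      exact mul_le_mul (hC x) (abs_sin_le_one' _) (abs_nonneg _) ((abs_nonneg _).trans (hC x))
    have e1 : ∀ n, ∫ x, φ x ∂μ - (∫ x, φ x * (F x).cos * (farSum T f c (a n) x).cos ∂μ
        - ∫ x, φ x * (F x).sin * (farSum T f c (a n) x).sin ∂μ)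
        = ∫ x, φ x * dfc (w n x) ∂μ := by
      intro n
      rw [← integral_sub, ← integral_sub]
      · congr 1
        ext x
        simp only [w, dfc]
        rw [Real.Angle.cos_add]
        ring
      · exact int_of_bound hφ hC
      · exact (int_mul_bound (hφ.mul hFcm) (hcm n) hφc (fun x => abs_cos_le_one' _)).sub
          (int_mul_bound (hφ.mul hFsm) (hsm n) hφs (fun x => abs_sin_le_one' _))
      · exact int_mul_bound (hφ.mul hFcm) (hcm n) hφc (fun x => abs_cos_le_one' _)
      · exact int_mul_bound (hφ.mul hFsm) (hsm n) hφs (fun x => abs_sin_le_one' _)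
    have e2 : ∫ x, φ x ∂μ - (∫ x, φ x * (F x).cos * ur x ∂μ - ∫ x, φ x * (F x).sin * ui x ∂μ)
        = ∫ x, φ x * (1 - ρ x) ∂μ := by
      rw [← integral_sub, ← integral_sub]
      · congr 1
        ext x
        have h5 := hFc x
        have h6 := hFs x
        have h7 := (F x).cos_sq_add_sin_sq
        have h8 : (F x).cos * ur x - (F x).sin * ui x = ρ x := by
          have h9 : ui x = - (ρ x * (F x).sin) := by linarith
          rw [← h5, h9]
          have : (F x).cos * (ρ x * (F x).cos) - (F x).sin * -(ρ x * (F x).sin)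
              = ρ x * ((F x).cos ^ 2 + (F x).sin ^ 2) := by ring
          rw [this, h7, mul_one]
        rw [← h8]
        ring
      · exact int_of_bound hφ hC
      · exact (int_mul_bound (hφ.mul hFcm) hur hφc hur1).sub
          (int_mul_bound (hφ.mul hFsm) hui hφs hui1)
      · exact int_mul_bound (hφ.mul hFcm) hur hφc hur1
      · exact int_mul_bound (hφ.mul hFsm) hui hφs hui1
    rw [e2] at h3
    exact h3.congr e1
  have hdw : ∀ n, Measurable (fun x => dfc (w n x)) := fun n => dfc_measurable.comp (hwm n)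
  have hdl : ∀ n, Measurable (fun x => dfc (linSum T f c (a n) x)) := fun n =>
    dfc_measurable.comp (hlin n)
  have h1ρm : Measurable (fun x => 1 - ρ x) := measurable_const.sub hρm
  have h1ρi : ∀ k : ℕ, Integrable (fun x => 1 - ρ ((⇑T)^[k] x)) μ := by
    intro k
    refine int_of_bound (h1ρm.comp (iter_meas T k)) (C := 3) (fun x => ?_)
    have h1 := hρle ((⇑T)^[k] x)
    rw [abs_le] at h1 ⊢
    constructor <;> linarith [h1.1, h1.2]
  have h1ρset : ∀ (A : Set X) (k : ℕ), ∫ x in A, (1 - ρ ((⇑T)^[k] x)) ∂μ ≤ δ * μ.real A := by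
    intro A k
    have h1 : ∀ᵐ x ∂μ, 1 - ρ ((⇑T)^[k] x) ≤ δ := (iter_mp hT k).quasiMeasurePreserving.ae hρδ
    have h2 := setIntegral_mono_ae (s := A) (h1ρi k).integrableOn
      (integrable_const δ).integrableOn h1
    refine h2.trans (le_of_eq ?_)
    simp [mul_comm]
  have hdlint : ∀ n, Integrable (fun x => dfc (linSum T f c (a n) x)) μ := fun n =>
    int_of_bound (hdl n) (fun x => abs_dfc_le _)
  have hcomp : ∀ n (k : ℕ), Integrable (fun x => dfc (linSum T f c (a n) ((⇑T)^[k] x))) μ :=
    fun n k => int_of_bound ((hdl n).comp (iter_meas T k)) (fun x => abs_dfc_le _)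
  have hwcomp : ∀ n (k : ℕ), Integrable (fun x => dfc (w n ((⇑T)^[k] x))) μ :=
    fun n k => int_of_bound ((hdw n).comp (iter_meas T k)) (fun x => abs_dfc_le _)
  refine ⟨F, hFm, ?_, ?_⟩
  · intro m
    have hmeasF : Measurable (fun x => dfc (linSum T F c (a m) x)) :=
      dfc_measurable.comp (linSumA_meas T hFm c (a m))
    apply ae_le_of_forall_setIntegral_le (int_of_bound hmeasF (fun x => abs_dfc_le _))
      (integrable_const _)
    intro A hA _
    have hpt : ∀ n x, dfc (linSum T F c (a m) x)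
        ≤ (2 * s + 1) * (dfc (w n x) + (∑ i, dfc (w n ((⇑T)^[a m i] x))
          + ∑ j, dfc (linSum T f c (a m) ((⇑T)^[a n j] x)))) := by
      intro n x
      let h : Unit ⊕ (ι ⊕ ι) → Real.Angle := Sum.elim (fun _ => w n x) (Sum.elim
        (fun i => c i • w n ((⇑T)^[a m i] x))
        (fun j => -(c j • linSum T f c (a m) ((⇑T)^[a n j] x))))
      have e1 : linSum T F c (a m) x = ∑ k, h k := by
        have h3 := array_identity T f c (a m) (a n) x
        simp only [h, Fintype.sum_sum_type, Sum.elim_inl, Sum.elim_inr, Finset.sum_neg_distrib,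
          Finset.univ_unique, Finset.sum_singleton]
        rw [← h3]
        simp only [w, smul_add, Finset.sum_add_distrib]
        simp only [linSum]
        have h4 : farSum T F c (a m) x = ∑ i, c i • F ((⇑T)^[a m i] x) := rfl
        rw [h4]
        abel
      rw [e1]
      refine (dfc_sum_le Finset.univ h).trans ?_
      have e2 : ((Finset.univ : Finset (Unit ⊕ (ι ⊕ ι))).card : ℝ) = 2 * s + 1 := by
        rw [Finset.card_univ, Fintype.card_sum, Fintype.card_sum, Fintype.card_unit]
        push_cast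
        ring
      rw [e2]
      refine mul_le_mul_of_nonneg_left ?_ (by positivity)
      simp only [h, Fintype.sum_sum_type, Sum.elim_inl, Sum.elim_inr, dfc_neg,
        Finset.univ_unique, Finset.sum_singleton]
      simp only [sgn_dfc (hc _)]
      exact le_rfl
    have hint : ∀ n, ∫ x in A, dfc (linSum T F c (a m) x) ∂μ
        ≤ (2 * s + 1) * (∫ x in A, dfc (w n x) ∂μ + (∑ i, ∫ x in A, dfc (w n ((⇑T)^[a m i] x)) ∂μ
          + ∑ j, ∫ x in A, dfc (linSum T f c (a m) ((⇑T)^[a n j] x)) ∂μ)) := by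
      intro n
      have i1 : Integrable (fun x => ∑ i, dfc (w n ((⇑T)^[a m i] x))) μ :=
        integrable_finsetSum _ (fun i _ => hwcomp n (a m i))
      have i2 : Integrable (fun x => ∑ j, dfc (linSum T f c (a m) ((⇑T)^[a n j] x))) μ :=
        integrable_finsetSum _ (fun j _ => hcomp m (a n j))
      have i3 : Integrable (fun x => dfc (w n x)) μ := hwcomp n 0
      have i12 : Integrable (fun x => ∑ i, dfc (w n ((⇑T)^[a m i] x))
          + ∑ j, dfc (linSum T f c (a m) ((⇑T)^[a n j] x))) μ := i1.add i2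
      have e2 : (2 * s + 1) * (∫ x in A, dfc (w n x) ∂μ
          + (∑ i, ∫ x in A, dfc (w n ((⇑T)^[a m i] x)) ∂μ
          + ∑ j, ∫ x in A, dfc (linSum T f c (a m) ((⇑T)^[a n j] x)) ∂μ))
          = ∫ x in A, (2 * s + 1) * (dfc (w n x) + (∑ i, dfc (w n ((⇑T)^[a m i] x))
          + ∑ j, dfc (linSum T f c (a m) ((⇑T)^[a n j] x)))) ∂μ := by
        rw [integral_const_mul, integral_add i3.integrableOn i12.integrableOn,
          integral_add i1.integrableOn i2.integrableOn, integral_finsetSum, integral_finsetSum]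
        · intro i _; exact (hcomp m (a n i)).integrableOn
        · intro i _; exact (hwcomp n (a m i)).integrableOn
      rw [e2]
      refine setIntegral_mono ?_ ?_ (hpt n)
      · exact (int_of_bound hmeasF (fun x => abs_dfc_le _)).integrableOn
      · exact ((i3.add i12).const_mul _).integrableOn
    have hl0 : Tendsto (fun n => ∫ x in A, dfc (w n x) ∂μ) U (𝓝 (∫ x in A, (1 - ρ x) ∂μ)) :=
      hwlim.set hA
    have hl1 : Tendsto (fun n => ∑ i, ∫ x in A, dfc (w n ((⇑T)^[a m i] x)) ∂μ) U
        (𝓝 (∑ i, ∫ x in A, (1 - ρ ((⇑T)^[a m i] x)) ∂μ)) :=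
      tendsto_finsetSum _ (fun i _ => hwlim.shift hT (a m i) hA)
    have hl2 : Tendsto (fun n => ∑ j, ∫ x in A, dfc (linSum T f c (a m) ((⇑T)^[a n j] x)) ∂μ) U
        (𝓝 (∑ _j : ι, μ.real A * ∫ x, dfc (linSum T f c (a m) x) ∂μ)) := by
      refine tendsto_finsetSum _ (fun j _ => ?_)
      exact ((mixing_fun hT hmix (hdlint m) hA).comp (ha j)).mono_left hU
    have h2 := ge_of_tendsto' ((hl0.add (hl1.add hl2)).const_mul (2 * s + 1)) hint
    have h3 : ∑ _j : ι, μ.real A * ∫ x, dfc (linSum T f c (a m) x) ∂μ ≤ s * ε * μ.real A := by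
      simp only [Finset.sum_const, Finset.card_univ, nsmul_eq_mul]
      rw [← hs, mul_assoc, mul_comm (μ.real A)]
      exact mul_le_mul_of_nonneg_left
        (mul_le_mul_of_nonneg_right (hV m) measureReal_nonneg) hs0
    have h4 : ∑ i, ∫ x in A, (1 - ρ ((⇑T)^[a m i] x)) ∂μ ≤ s * (δ * μ.real A) := by
      refine (Finset.sum_le_sum (fun i _ => h1ρset A (a m i))).trans (le_of_eq ?_)
      simp [hs]
    have h5 : ∫ x in A, (1 - ρ x) ∂μ ≤ δ * μ.real A := h1ρset A 0
    have h6 : ∫ _x in A, ((2 * s + 1) * ((s + 1) * δ + s * ε)) ∂μ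
        = (2 * s + 1) * ((s + 1) * δ + s * ε) * μ.real A := by
      simp [mul_comm]
    rw [h6]
    refine h2.trans ?_
    rw [mul_assoc]
    refine mul_le_mul_of_nonneg_left ?_ (by positivity)
    linarith
  · have hpt : ∀ n x, dfc (f x - F x) ≤ 2 * (dfc (linSum T f c (a n) x) + dfc (w n x)) := by
      intro n x
      let h : Fin 2 → Real.Angle := ![linSum T f c (a n) x, -(w n x)]
      have e1 : f x - F x = ∑ k, h k := by
        simp only [h, Fin.sum_univ_two, Matrix.cons_val_zero, Matrix.cons_val_one, linSum, w]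
        abel
      rw [e1]
      refine (dfc_sum_le Finset.univ h).trans (le_of_eq ?_)
      simp only [h, Fin.sum_univ_two, Matrix.cons_val_zero, Matrix.cons_val_one, dfc_neg,
        Finset.card_univ, Fintype.card_fin]
      norm_num
    have hint : ∀ n, ∫ x, dfc (f x - F x) ∂μ ≤ 2 * (ε + ∫ x, dfc (w n x) ∂μ) := by
      intro n
      have i3 : Integrable (fun x => dfc (w n x)) μ := hwcomp n 0
      have h1 : ∫ x, dfc (f x - F x) ∂μ
          ≤ ∫ x, 2 * (dfc (linSum T f c (a n) x) + dfc (w n x)) ∂μ := by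
        refine integral_mono ?_ (((hdlint n).add i3).const_mul _) (hpt n)
        exact int_of_bound (dfc_measurable.comp (hf.sub hFm)) (fun x => abs_dfc_le _)
      rw [integral_const_mul, integral_add (hdlint n) i3] at h1
      linarith [hV n]
    have h2 := ge_of_tendsto' ((hwlim.univ.const_add ε).const_mul 2) hint
    have h3 := h1ρset Set.univ 0
    simp only [Measure.restrict_univ, Function.iterate_zero, id, probReal_univ, mul_one] at h3
    linarith

end Pool.Agent.H716R2
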