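import Pool.Agent.H716R2.CCore2

set_option autoImplicit false
set_option linter.unusedSectionVars false
open MeasureTheory Filter Topology

namespace Pool.Agent.H716R2

variable {X : Type*} [MeasurableSpace X]
variable {ι : Type*} [Fintype ι]

theorem coe_sum_angle (g : ι → ℝ) : ((∑ i, g i : ℝ) : Real.Angle) = ∑ i, (g i : Real.Angle) := by
  have := map_sum Real.Angle.coeHom g Finset.univ
  exact this

theorem abs_lin_le (c : ι → ℤ) (hc : ∀ j, c j = 1 ∨ c j = -1) (u : ℝ) (v : ι → ℝ) {t : ℝ}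
    (hu : |u| ≤ t) (hv : ∀ i, |v i| ≤ t) :
    |u + ∑ i, (c i : ℝ) * v i| ≤ ((Fintype.card ι : ℝ) + 1) * t := by
  have h1 : |∑ i, (c i : ℝ) * v i| ≤ (Fintype.card ι : ℝ) * t := by
    refine (Finset.abs_sum_le_sum_abs _ _).trans ?_
    have h2 : ∀ i ∈ (Finset.univ : Finset ι), |(c i : ℝ) * v i| ≤ t := by
      intro i _
      rw [abs_mul]
      have h3 : |(c i : ℝ)| = 1 := by
        rcases hc i with h | h <;> rw [h] <;> simp
      rw [h3, one_mul]
      exact hv i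
    refine (Finset.sum_le_sum h2).trans (le_of_eq ?_)
    simp
  have h4 := abs_add_le u (∑ i, (c i : ℝ) * v i)
  linarith

/-- Third step: lifting to the reals. -/
theorem ccore_lift {μ : Measure X} [IsProbabilityMeasure μ] {T : X ≃ᵐ X}
    (hT : MeasurePreserving T μ μ) (hmix : Mixing μ T) {F : X → Real.Angle} (hF : Measurable F)
    (c : ι → ℤ) (hc : ∀ j, c j = 1 ∨ c j = -1) (a : ℕ → ι → ℕ)
    (ha : ∀ j, Tendsto (fun n => a n j) atTop atTop) (θ0 : ℝ) (h0 : 0 ≤ θ0)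
    (hθ0 : ((Fintype.card ι : ℝ) + 1) * θ0 < Real.pi)
    (hV : ∀ m, ∀ᵐ x ∂μ, |(linSum T F c (a m) x).toReal| ≤ θ0) :
    ∃ g0 : Real.Angle, ∀ᵐ x ∂μ, dfc (F x - g0) ≤ θ0 ^ 2 / 2 := by
  obtain ⟨U, hU⟩ : ∃ U : Ultrafilter ℕ, (U : Filter ℕ) ≤ atTop :=
    ⟨Ultrafilter.of atTop, Ultrafilter.of_le atTop⟩
  let θ : ℕ → X → ℝ := fun m x => max (-θ0) (min θ0 (linSum T F c (a m) x).toReal)
  have hθm : ∀ m, Measurable (θ m) := fun m =>
    measurable_const.max (measurable_const.min (toReal_meas.comp (linSumA_meas T hF c (a m))))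
  have hθb : ∀ m x, |θ m x| ≤ θ0 := by
    intro m x
    rw [abs_le]
    exact ⟨le_max_left _ _, max_le (by linarith) (min_le_left _ _)⟩
  have hθae : ∀ᵐ x ∂μ, ∀ m k : ℕ,
      ((θ m ((⇑T)^[k] x) : ℝ) : Real.Angle) = linSum T F c (a m) ((⇑T)^[k] x) := by
    rw [ae_all_iff]
    intro m
    rw [ae_all_iff]
    intro k
    have h1 : ∀ᵐ x ∂μ, |(linSum T F c (a m) ((⇑T)^[k] x)).toReal| ≤ θ0 :=
      (iter_mp hT k).quasiMeasurePreserving.ae (hV m)
    filter_upwards [h1] with x hx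
    rw [abs_le] at hx
    have h2 : θ m ((⇑T)^[k] x) = (linSum T F c (a m) ((⇑T)^[k] x)).toReal := by
      simp only [θ]
      rw [min_eq_right hx.2, max_eq_right hx.1]
    rw [h2, Real.Angle.coe_toReal]
  have hreal : ∀ m n, ∀ᵐ x ∂μ, θ n x + ∑ i, (c i : ℝ) * θ n ((⇑T)^[a m i] x)
      = θ m x + ∑ j, (c j : ℝ) * θ m ((⇑T)^[a n j] x) := by
    intro m n
    filter_upwards [hθae] with x hx
    have h1 : ((θ n x + ∑ i, (c i : ℝ) * θ n ((⇑T)^[a m i] x) : ℝ) : Real.Angle)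
        = ((θ m x + ∑ j, (c j : ℝ) * θ m ((⇑T)^[a n j] x) : ℝ) : Real.Angle) := by
      rw [Real.Angle.coe_add, Real.Angle.coe_add, coe_sum_angle, coe_sum_angle]
      simp only [Real.Angle.intCast_mul_eq_zsmul, hx]
      have h2 := hx n 0
      have h3 := hx m 0
      simp only [Function.iterate_zero, id] at h2 h3
      rw [h2, h3]
      exact array_identity2 T F c (a m) (a n) x
    have hL := abs_lin_le c hc (θ n x) (fun i => θ n ((⇑T)^[a m i] x)) (hθb n x)
      (fun i => hθb n _)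
    have hR := abs_lin_le c hc (θ m x) (fun j => θ m ((⇑T)^[a n j] x)) (hθb m x)
      (fun i => hθb m _)
    have key : ∀ t : ℝ, |t| ≤ ((Fintype.card ι : ℝ) + 1) * θ0 → ((t : Real.Angle)).toReal = t :=
      fun t ht => Real.Angle.toReal_coe_eq_self_iff.2
        ⟨by linarith [(abs_le.1 ht).1], by linarith [(abs_le.1 ht).2]⟩
    rw [← key _ hL, ← key _ hR, h1]
  obtain ⟨α, hαm, hαb, hαl⟩ := exists_wlim μ U θ hθm θ0 hθb
  have hθi : ∀ m k : ℕ, Integrable (fun x => θ m ((⇑T)^[k] x)) μ := fun m k =>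
    int_of_bound ((hθm m).comp (iter_meas T k)) (fun x => hθb m _)
  have hαi : ∀ k : ℕ, Integrable (fun x => α ((⇑T)^[k] x)) μ := fun k =>
    int_of_bound (hαm.comp (iter_meas T k)) (fun x => hαb _)
  have hθi' : ∀ m : ℕ, Integrable (θ m) μ := fun m => hθi m 0
  have hαi' : Integrable α μ := hαi 0
  have hsumθ : ∀ m n, Integrable (fun x => ∑ i, (c i : ℝ) * θ n ((⇑T)^[a m i] x)) μ := fun m n =>
    integrable_finsetSum _ (fun i _ => (hθi n (a m i)).const_mul _)
  have hsumα : ∀ m, Integrable (fun x => ∑ i, (c i : ℝ) * α ((⇑T)^[a m i] x)) μ := fun m =>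
    integrable_finsetSum _ (fun i _ => (hαi (a m i)).const_mul _)
  have hlim : ∀ m, ∀ᵐ x ∂μ, α x + ∑ i, (c i : ℝ) * α ((⇑T)^[a m i] x)
      = θ m x + ∑ j, (c j : ℝ) * ∫ y, θ m y ∂μ := by
    intro m
    refine Integrable.ae_eq_of_forall_setIntegral_eq _ _ ((hαi').add (hsumα m))
      ((hθi' m).add (integrable_const _)) ?_
    intro A hA _
    have e1 : ∀ n, ∫ x in A, θ n x ∂μ + ∑ i, (c i : ℝ) * ∫ x in A, θ n ((⇑T)^[a m i] x) ∂μ
        = ∫ x in A, θ m x ∂μ + ∑ j, (c j : ℝ) * ∫ x in A, θ m ((⇑T)^[a n j] x) ∂μ := by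
      intro n
      have h1 : ∫ x in A, (θ n x + ∑ i, (c i : ℝ) * θ n ((⇑T)^[a m i] x)) ∂μ
          = ∫ x in A, (θ m x + ∑ j, (c j : ℝ) * θ m ((⇑T)^[a n j] x)) ∂μ := by
        apply integral_congr_ae
        exact ae_restrict_of_ae (hreal m n)
      rw [integral_add (hθi' n).integrableOn (hsumθ m n).integrableOn,
        integral_add (hθi' m).integrableOn (hsumθ n m).integrableOn,
        integral_finsetSum _ (fun i _ => ((hθi n (a m i)).const_mul _).integrableOn),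
        integral_finsetSum _ (fun i _ => ((hθi m (a n i)).const_mul _).integrableOn)] at h1
      simp only [integral_const_mul] at h1
      exact h1
    have h1 : Tendsto (fun n => ∫ x in A, θ n x ∂μ
        + ∑ i, (c i : ℝ) * ∫ x in A, θ n ((⇑T)^[a m i] x) ∂μ) U
        (𝓝 (∫ x in A, α x ∂μ + ∑ i, (c i : ℝ) * ∫ x in A, α ((⇑T)^[a m i] x) ∂μ)) := by
      refine (hαl.set hA).add (tendsto_finsetSum _ (fun i _ => ?_))
      exact (hαl.shift hT (a m i) hA).const_mul _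
    have h2 : Tendsto (fun n => ∫ x in A, θ m x ∂μ
        + ∑ j, (c j : ℝ) * ∫ x in A, θ m ((⇑T)^[a n j] x) ∂μ) U
        (𝓝 (∫ x in A, θ m x ∂μ + ∑ j, (c j : ℝ) * (μ.real A * ∫ y, θ m y ∂μ))) := by
      refine tendsto_const_nhds.add (tendsto_finsetSum _ (fun j _ => ?_))
      exact (((mixing_fun hT hmix (hθi' m) hA).comp (ha j)).mono_left hU).const_mul _
    have h3 := tendsto_nhds_unique (h1.congr e1) h2
    have e2 : ∫ x in A, (α x + ∑ i, (c i : ℝ) * α ((⇑T)^[a m i] x)) ∂μ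
        = ∫ x in A, α x ∂μ + ∑ i, (c i : ℝ) * ∫ x in A, α ((⇑T)^[a m i] x) ∂μ := by
      rw [integral_add hαi'.integrableOn (hsumα m).integrableOn,
        integral_finsetSum _ (fun i _ => ((hαi (a m i)).const_mul _).integrableOn)]
      simp only [integral_const_mul]
    have e3 : ∫ x in A, (θ m x + ∑ j, (c j : ℝ) * ∫ y, θ m y ∂μ) ∂μ
        = ∫ x in A, θ m x ∂μ + ∑ j, (c j : ℝ) * (μ.real A * ∫ y, θ m y ∂μ) := by
      rw [integral_add (hθi' m).integrableOn (integrable_const _).integrableOn]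
      congr 1
      simp only [integral_const, measureReal_restrict_apply_univ, smul_eq_mul, Finset.mul_sum]
      refine Finset.sum_congr rfl (fun j _ => ?_)
      ring
    rw [e2, e3, h3]
  -- the corrected function
  have hF' : Measurable (fun x => F x - ((α x : ℝ) : Real.Angle)) :=
    hF.sub (Real.Angle.continuous_coe.measurable.comp hαm)
  obtain ⟨g0, hg0⟩ := lacunary_const hT hmix hF' c a ha (by
    intro m
    refine ⟨-((∑ j, (c j : ℝ) * ∫ y, θ m y ∂μ : ℝ) : Real.Angle), ?_⟩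
    filter_upwards [hlim m, hθae] with x h1 h2
    have h3 := h2 m 0
    simp only [Function.iterate_zero, id] at h3
    have e1 : linSum T (fun x => F x - ((α x : ℝ) : Real.Angle)) c (a m) x
        = linSum T F c (a m) x - ((α x + ∑ i, (c i : ℝ) * α ((⇑T)^[a m i] x) : ℝ) : Real.Angle) := by
      rw [Real.Angle.coe_add, coe_sum_angle]
      simp only [Real.Angle.intCast_mul_eq_zsmul, linSum, farSum, smul_sub,
        Finset.sum_sub_distrib]
      abel
    rw [e1, h1, ← h3, Real.Angle.coe_add]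
    abel)
  refine ⟨g0, ?_⟩
  filter_upwards [hg0] with x hx
  have h1 : F x - g0 = ((α x : ℝ) : Real.Angle) := by
    rw [← hx]; abel
  rw [h1, dfc, Real.Angle.cos_coe]
  have h2 := Real.one_sub_sq_div_two_le_cos (x := α x)
  have h3 : α x ^ 2 ≤ θ0 ^ 2 := by
    rw [← sq_abs]
    exact pow_le_pow_left₀ (abs_nonneg _) (hαb x) 2
  linarith

/-- **Core theorem for angle-valued functions.** -/
theorem ccore {μ : Measure X} [IsProbabilityMeasure μ] {T : X ≃ᵐ X}
    (hT : MeasurePreserving T μ μ) (hmix : Mixing μ T) {f : X → Real.Angle} (hf : Measurable f)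
    (c : ι → ℤ) (hc : ∀ j, c j = 1 ∨ c j = -1) (a : ℕ → ι → ℕ)
    (ha : ∀ j, Tendsto (fun n => a n j) atTop atTop) (ε : ℝ)
    (hV : ∀ n, ∫ x, dfc (linSum T f c (a n) x) ∂μ ≤ ε)
    {R : ℝ} (hR : (Fintype.card ι : ℝ) + 1 ≤ R) (hε : 14 * R ^ 6 * ε ≤ 1) :
    ∃ g0 : Real.Angle, ∫ x, dfc (f x - g0) ∂μ ≤ 120 * R ^ 4 * ε := by
  obtain ⟨F, hF, h1, h2⟩ := ccore_near hT hmix hf c hc a ha ε hV
  set s : ℝ := (Fintype.card ι : ℝ) with hs
  have hs0 : 0 ≤ s := Nat.cast_nonneg _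
  have hR1 : 1 ≤ R := by linarith
  have hsR : s ≤ R := by linarith
  have hε0 : 0 ≤ ε := le_trans (integral_nonneg (fun x => dfc_nonneg _)) (hV 0)
  set η : ℝ := (2 * s + 1) * ((s + 1) * (4 * s ^ 2 * ε) + s * ε) with hη
  have hη0 : 0 ≤ η := by positivity
  have hηR : η ≤ 20 * R ^ 4 * ε := by
    have : (2 * s + 1) * ((s + 1) * (4 * s ^ 2) + s) ≤ 20 * R ^ 4 := by
      have h3 : (2 * s + 1) ≤ 2 * R := by linarith
      have h4 : (s + 1) * (4 * s ^ 2) + s ≤ 10 * R ^ 3 := by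
        have h5 : s ^ 2 ≤ R ^ 2 := pow_le_pow_left₀ hs0 hsR 2
        have h6 : (s + 1) * (4 * s ^ 2) ≤ R * (4 * R ^ 2) :=
          mul_le_mul hR (by linarith) (by positivity) (by linarith)
        have h7 : s ≤ R ^ 3 := hsR.trans (le_self_pow₀ hR1 (by norm_num))
        nlinarith
      calc (2 * s + 1) * ((s + 1) * (4 * s ^ 2) + s) ≤ (2 * R) * (10 * R ^ 3) :=
            mul_le_mul h3 h4 (by positivity) (by linarith)
        _ = 20 * R ^ 4 := by ring
    calc η = ((2 * s + 1) * ((s + 1) * (4 * s ^ 2) + s)) * ε := by rw [hη]; ring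
      _ ≤ 20 * R ^ 4 * ε := mul_le_mul_of_nonneg_right this hε0
  have hpi := Real.pi_pos
  have hpi2 : Real.pi ^ 2 ≤ 10 := by
    have h3 := Real.pi_lt_d2
    nlinarith
  set θ0 : ℝ := Real.pi * Real.sqrt (η / 2) with hθ0
  have hθ00 : 0 ≤ θ0 := by positivity
  have hsq : Real.sqrt (η / 2) ^ 2 = η / 2 := Real.sq_sqrt (by positivity)
  have hR4 : 1 ≤ R ^ 4 := one_le_pow₀ hR1
  have hlt : R * Real.sqrt (η / 2) < 1 := by
    have h3 : (R * Real.sqrt (η / 2)) ^ 2 < 1 := by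
      rw [mul_pow, hsq]
      have h4 : R ^ 2 * (η / 2) ≤ R ^ 2 * (20 * R ^ 4 * ε / 2) :=
        mul_le_mul_of_nonneg_left (by linarith) (by positivity)
      have h5 : R ^ 2 * (20 * R ^ 4 * ε / 2) = 10 * R ^ 6 * ε := by ring
      have h6 : 0 ≤ R ^ 6 * ε := by positivity
      nlinarith
    exact (sq_lt_one_iff₀ (by positivity)).1 h3
  obtain ⟨g0, hg0⟩ := ccore_lift hT hmix hF c hc a ha θ0 hθ00 (by
      have h3 : (s + 1) * θ0 ≤ R * θ0 := mul_le_mul_of_nonneg_right hR hθ00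
      have h4 : R * θ0 = Real.pi * (R * Real.sqrt (η / 2)) := by rw [hθ0]; ring
      have h5 : Real.pi * (R * Real.sqrt (η / 2)) < Real.pi * 1 :=
        mul_lt_mul_of_pos_left hlt hpi
      linarith) (by
      intro m
      filter_upwards [h1 m] with x hx
      exact toReal_le_of_dfc hx)
  refine ⟨g0, ?_⟩
  have hFm : Measurable (fun x => dfc (F x - g0)) :=
    dfc_measurable.comp (hF.sub measurable_const)
  have hfFm : Measurable (fun x => dfc (f x - F x)) := dfc_measurable.comp (hf.sub hF)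
  have hFi : Integrable (fun x => dfc (F x - g0)) μ := int_of_bound hFm (fun x => abs_dfc_le _)
  have hfFi : Integrable (fun x => dfc (f x - F x)) μ := int_of_bound hfFm (fun x => abs_dfc_le _)
  have h3 : ∫ x, dfc (F x - g0) ∂μ ≤ 50 * R ^ 4 * ε := by
    have h4 : ∫ x, dfc (F x - g0) ∂μ ≤ ∫ _x, θ0 ^ 2 / 2 ∂μ :=
      integral_mono_ae hFi (integrable_const _) hg0
    simp only [integral_const, probReal_univ, one_smul] at h4
    have h5 : θ0 ^ 2 = Real.pi ^ 2 * (η / 2) := by rw [hθ0, mul_pow, hsq]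
    rw [h5] at h4
    nlinarith
  have hpt : ∀ x, dfc (f x - g0) ≤ 2 * (dfc (f x - F x) + dfc (F x - g0)) := by
    intro x
    let h : Fin 2 → Real.Angle := ![f x - F x, F x - g0]
    have e1 : f x - g0 = ∑ k, h k := by
      simp only [h, Fin.sum_univ_two, Matrix.cons_val_zero, Matrix.cons_val_one]
      abel
    rw [e1]
    refine (dfc_sum_le Finset.univ h).trans (le_of_eq ?_)
    simp only [h, Fin.sum_univ_two, Matrix.cons_val_zero, Matrix.cons_val_one,
      Finset.card_univ, Fintype.card_fin]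
    norm_num
  have h6 : ∫ x, dfc (f x - g0) ∂μ ≤ ∫ x, 2 * (dfc (f x - F x) + dfc (F x - g0)) ∂μ := by
    refine integral_mono ?_ ((hfFi.add hFi).const_mul _) hpt
    exact int_of_bound (dfc_measurable.comp (hf.sub measurable_const)) (fun x => abs_dfc_le _)
  rw [integral_const_mul, integral_add hfFi hFi] at h6
  have h7 : ε ≤ R ^ 4 * ε := by nlinarith
  have h8 : s ^ 2 * ε ≤ R ^ 4 * ε := by
    refine mul_le_mul_of_nonneg_right ?_ hε0
    calc s ^ 2 ≤ R ^ 2 := pow_le_pow_left₀ hs0 hsR 2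
      _ ≤ R ^ 4 := pow_le_pow_right₀ hR1 (by norm_num)
  linarith

end Pool.Agent.H716R2
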