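import Pool.Agent.H716R2.Elim

set_option autoImplicit false
set_option linter.unusedSectionVars false
open MeasureTheory Filter Topology

namespace Pool.Agent.H716R2

variable {X : Type*} [MeasurableSpace X]
variable {G : Type*} [AddCommGroup G] [Finite G] [MeasurableSpace G] [DiscreteMeasurableSpace G]

theorem relSum_meas {r : ℕ} (T : X ≃ᵐ X) {f : Fin r → X → G} (hf : ∀ j, Measurable (f j))
    (b : Fin r → ℕ) : Measurable (relSum T f b) := by
  unfold relSum
  exact Finset.measurable_sum _ (fun j _ => (hf j).comp (iter_meas T (b j)))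

theorem relation_trivial {r : ℕ} {μ : Measure X} [IsProbabilityMeasure μ] {T : X ≃ᵐ X}
    (hT : MeasurePreserving T μ μ) (hmix : Mixing μ T) {f : Fin r → X → G}
    (hf : ∀ j, Measurable (f j)) (ε : ℝ) (hε : 2 * (r.factorial : ℝ) ^ 3 * ε ≤ 1)
    (h : ∀ N : ℕ, ∃ b : Fin r → ℕ, (∀ i j, i < j → b i + N ≤ b j) ∧
      μ.real {x | relSum T f b x ≠ 0} ≤ ε) (t : Fin r) :
    ∃ g0 : G, μ.real {x | f t x ≠ g0} ≤ 2 * (r.factorial : ℝ) ^ 2 * ε := by
  classical
  have hε0 : 0 ≤ ε := by
    obtain ⟨b, _, hb⟩ := h 0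
    exact le_trans measureReal_nonneg hb
  choose F hF1 hF2 using h
  let ι := {π : Equiv.Perm (Fin r) // π ≠ 1}
  set R : ℝ := (r.factorial : ℝ) with hR
  have hR1 : 1 ≤ R := by
    rw [hR]; exact_mod_cast Nat.succ_le_of_lt (Nat.factorial_pos r)
  have hcard : (Fintype.card ι : ℝ) = R - 1 := by
    have h1 : Fintype.card ι = r.factorial - 1 := by
      have h2 : Fintype.card ι = Fintype.card (Equiv.Perm (Fin r)) - 1 := by
        rw [Fintype.card_of_subtype (Finset.univ.erase (1 : Equiv.Perm (Fin r))) (by simp),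
          Finset.card_erase_of_mem (Finset.mem_univ _), Finset.card_univ]
      rw [h2, Fintype.card_perm, Fintype.card_fin]
    rw [h1, Nat.cast_sub (Nat.succ_le_of_lt (Nat.factorial_pos r))]
    simp [hR]
  -- the lag vectors
  have hmain : ∀ N : ℕ, ∃ a : ι → ℕ, (∀ π, N ≤ a π) ∧
      μ.real {y | linSum T.symm (f t) (fun π : ι => ((Equiv.Perm.sign π.1 : ℤˣ) : ℤ)) a y ≠ 0}
        ≤ R * ε := by
    intro N
    let S : ℕ → ℕ := fun n => Nat.rec 0 (fun _ s => s + ∑ j, F (N + r * s) j) n
    have hS1 : ∀ n, S (n + 1) = S n + ∑ j, F (N + r * S n) j := fun n => rfl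
    have hSmono : Monotone S := monotone_nat_of_le_succ (fun n => by rw [hS1]; omega)
    let B : Fin r → Fin r → ℕ := fun l => F (N + r * S l)
    have hBS : ∀ l l' : Fin r, ∀ j, l' < l → B l' j ≤ S l := by
      intro l l' j hl
      have h1 : B l' j ≤ S ((l' : ℕ) + 1) := by
        rw [hS1]
        have := Finset.single_le_sum (f := fun j => F (N + r * S l') j)
          (fun i _ => Nat.zero_le _) (Finset.mem_univ j)
        exact this.trans (Nat.le_add_left _ _)
      exact h1.trans (hSmono (Nat.succ_le_of_lt hl))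
    have hBg : ∀ l i j : Fin r, i < j → B l i + (N + r * S l) ≤ B l j := by
      intro l i j hij
      exact hF1 (N + r * S l) i j hij
    have hpos : ∀ π : Equiv.Perm (Fin r), π ≠ 1 → posP B π + N ≤ posP B 1 := fun π hπ =>
      posP_lt B N (fun l => S l) hBS hBg π hπ
    refine ⟨fun π => posP B 1 - posP B π.1, fun π => ?_, ?_⟩
    · have := hpos π.1 π.2
      change N ≤ posP B 1 - posP B π.1
      omega
    · set Z : Set X := {y | linSum T.symm (f t)
        (fun π : ι => ((Equiv.Perm.sign π.1 : ℤˣ) : ℤ)) (fun π => posP B 1 - posP B π.1) y ≠ 0}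
        with hZ
      have hZm : MeasurableSet Z :=
        (linSum_meas T.symm (hf t) _ _) (MeasurableSet.of_discrete (s := {0}ᶜ))
      have hWm : ∀ b : Fin r → ℕ, MeasurableSet {x | relSum T f b x ≠ 0} := fun b =>
        (relSum_meas T hf b) (MeasurableSet.of_discrete (s := {0}ᶜ))
      have e1 : μ.real Z = μ.real ((⇑T)^[posP B 1] ⁻¹' Z) := by
        simp only [Measure.real]
        rw [(iter_mp hT _).measure_preimage hZm.nullMeasurableSet]
      have hsub : (⇑T)^[posP B 1] ⁻¹' Z ⊆ ⋃ π ∈ (Finset.univ : Finset (Equiv.Perm (Fin r))),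
          (⇑T)^[posE B t π] ⁻¹' {x | relSum T f (B (π t)) x ≠ 0} := by
        intro x hx
        by_contra hcon
        simp only [Finset.mem_univ, Set.iUnion_true, Set.mem_iUnion, Set.mem_preimage,
          Set.mem_ofPred_eq, not_exists, not_not] at hcon
        apply hx
        have hdet := det_identity T f B t x
        simp only [hcon, smul_zero, Finset.sum_const_zero] at hdet
        rw [← Finset.add_sum_erase _ _ (Finset.mem_univ (1 : Equiv.Perm (Fin r)))] at hdet
        rw [Finset.sum_subtype (Finset.univ.erase (1 : Equiv.Perm (Fin r)))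
          (p := fun π => π ≠ 1) (by simp)] at hdet
        simp only [Equiv.Perm.sign_one, Units.val_one, one_smul] at hdet
        rw [linSum, farSum]
        rw [hdet]
        congr 1
        refine Finset.sum_congr rfl (fun π _ => ?_)
        congr 2
        have h2 := hpos π.1 π.2
        have h3 : (⇑T)^[posP B 1] x
            = (⇑T)^[posP B 1 - posP B π.1] ((⇑T)^[posP B π.1] x) := by
          rw [← Function.iterate_add_apply]
          congr 2
          omega
        rw [h3, symm_iter_left]
      rw [e1]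
      refine (measureReal_mono hsub (measure_ne_top μ _)).trans ?_
      refine (measureReal_biUnion_finset_le _ _).trans ?_
      have h4 : ∀ π ∈ (Finset.univ : Finset (Equiv.Perm (Fin r))),
          μ.real ((⇑T)^[posE B t π] ⁻¹' {x | relSum T f (B (π t)) x ≠ 0}) ≤ ε := by
        intro π _
        have h5 : μ.real ((⇑T)^[posE B t π] ⁻¹' {x | relSum T f (B (π t)) x ≠ 0})
            = μ.real {x | relSum T f (B (π t)) x ≠ 0} := by
          simp only [Measure.real]
          rw [(iter_mp hT _).measure_preimage (hWm _).nullMeasurableSet]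
        rw [h5]
        exact hF2 _
      refine (Finset.sum_le_sum h4).trans ?_
      simp [Fintype.card_perm, hR]
  choose a ha1 ha2 using hmain
  have hRε : 0 ≤ R * ε := by positivity
  have hcore := core (mp_symm hT) (hmix.symm hT) (hf t)
    (fun π : ι => ((Equiv.Perm.sign π.1 : ℤˣ) : ℤ)) a
    (fun π => tendsto_atTop_mono (fun n => ha1 n π) tendsto_id) (R * ε) ?_ ha2
  · obtain ⟨g0, hg0⟩ := hcore
    refine ⟨g0, hg0.trans ?_⟩
    rw [hcard]
    have : (2 * (R - 1) + 1) * (R * ε) ≤ (2 * R) * (R * ε) :=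
      mul_le_mul_of_nonneg_right (by linarith) hRε
    calc _ ≤ (2 * R) * (R * ε) := this
      _ = 2 * R ^ 2 * ε := by ring
  · rw [hcard]
    rcases hε0.eq_or_lt with h0 | h0
    · rw [← h0]; simp
    · have h1 : (R - 1) * (2 * (R - 1) + 3) * (R * ε) < 2 * R ^ 3 * ε := by
        have : 2 * R ^ 3 * ε - (R - 1) * (2 * (R - 1) + 3) * (R * ε) = (R + 1) * R * ε := by ring
        have h2 : 0 < (R + 1) * R * ε := by positivity
        linarith
      linarith

end Pool.Agent.H716R2
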