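import Pool.Agent.H716R2.CCore3
import Pool.Agent.H716R2.Relation

set_option autoImplicit false
set_option linter.unusedSectionVars false
open MeasureTheory Filter Topology

namespace Pool.Agent.H716R2

variable {X : Type*} [MeasurableSpace X]

theorem mp_integral {μ : Measure X} {S : X → X} (hS : MeasurePreserving S μ μ) {g : X → ℝ}
    (hg : Measurable g) : ∫ x, g (S x) ∂μ = ∫ x, g x ∂μ := by
  have h1 := integral_map (μ := μ) hS.measurable.aemeasurable hg.aestronglyMeasurable
  rw [hS.map_eq] at h1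
  exact h1.symm

theorem relSumA_meas {r : ℕ} (T : X ≃ᵐ X) {f : Fin r → X → Real.Angle}
    (hf : ∀ j, Measurable (f j)) (b : Fin r → ℕ) : Measurable (relSum T f b) := by
  unfold relSum
  exact Finset.measurable_sum _ (fun j _ => (hf j).comp (iter_meas T (b j)))

/-- The phases cancel in the determinant identity, provided there are at least three times. -/
theorem phase_cancel {r : ℕ} (hr : 3 ≤ r) {G : Type*} [AddCommGroup G] (ω : Fin r → G)
    (t : Fin r) :
    ∑ π : Equiv.Perm (Fin r), ((Equiv.Perm.sign π : ℤˣ) : ℤ) • ω (π t) = 0 := by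
  classical
  obtain ⟨i, j, hij, hi, hj⟩ : ∃ i j : Fin r, i ≠ j ∧ i ≠ t ∧ j ≠ t := by
    have h1 : 2 ≤ (Finset.univ.erase t).card := by
      rw [Finset.card_erase_of_mem (Finset.mem_univ t), Finset.card_univ, Fintype.card_fin]
      omega
    obtain ⟨i, hi, j, hj, hij⟩ := Finset.one_lt_card.1 (by omega : 1 < (Finset.univ.erase t).card)
    exact ⟨i, j, hij, (Finset.mem_erase.1 hi).1, (Finset.mem_erase.1 hj).1⟩
  refine Finset.sum_involution (fun π _ => π * Equiv.swap i j) ?_ ?_ ?_ ?_
  · intro π _
    have h1 : (π * Equiv.swap i j) t = π t := by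
      rw [Equiv.Perm.mul_apply, Equiv.swap_apply_of_ne_of_ne hi.symm hj.symm]
    rw [h1, Equiv.Perm.sign_mul, Equiv.Perm.sign_swap hij]
    simp
  · intro π _ _ h
    have h3 : Equiv.swap i j = 1 := by
      have := congrArg (fun σ => π⁻¹ * σ) h
      simpa using this
    exact hij (Equiv.swap_eq_one_iff.1 h3)
  · intro π _
    exact Finset.mem_univ _
  · intro π _
    simp [mul_assoc]

theorem relation_angle {r : ℕ} (hr : 3 ≤ r) {μ : Measure X} [IsProbabilityMeasure μ] {T : X ≃ᵐ X}
    (hT : MeasurePreserving T μ μ) (hmix : Mixing μ T) {f : Fin r → X → Real.Angle}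
    (hf : ∀ j, Measurable (f j)) (ε : ℝ) (hε : 14 * (r.factorial : ℝ) ^ 8 * ε ≤ 1)
    (h : ∀ N : ℕ, ∃ b : Fin r → ℕ, (∀ i j, i < j → b i + N ≤ b j) ∧
      ∃ ω : Real.Angle, ∫ x, dfc (relSum T f b x - ω) ∂μ ≤ ε) (t : Fin r) :
    ∃ g0 : Real.Angle, ∫ x, dfc (f t x - g0) ∂μ ≤ 120 * (r.factorial : ℝ) ^ 6 * ε := by
  classical
  choose F hF1 Ω hF2 using h
  let ι := {π : Equiv.Perm (Fin r) // π ≠ 1}
  set R : ℝ := (r.factorial : ℝ) with hR
  have hR1 : 1 ≤ R := by
    rw [hR]; exact_mod_cast Nat.succ_le_of_lt (Nat.factorial_pos r)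
  have hcard : (Fintype.card ι : ℝ) = R - 1 := by
    have h1 : Fintype.card ι = r.factorial - 1 := by
      have h2 : Fintype.card ι = Fintype.card (Equiv.Perm (Fin r)) - 1 := by
        rw [Fintype.card_of_subtype (Finset.univ.erase (1 : Equiv.Perm (Fin r))) (by simp),
          Finset.card_erase_of_mem (Finset.mem_univ _), Finset.card_univ]
      rw [h2, Fintype.card_perm, Fintype.card_fin]
    rw [h1, Nat.cast_sub (Nat.succ_le_of_lt (Nat.factorial_pos r))]
    simp [hR]
  -- the lag vectors
  have hmain : ∀ N : ℕ, ∃ a : ι → ℕ, (∀ π, N ≤ a π) ∧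
      ∫ y, dfc (linSum T.symm (f t) (fun π : ι => ((Equiv.Perm.sign π.1 : ℤˣ) : ℤ)) a y) ∂μ
        ≤ R ^ 2 * ε := by
    intro N
    let S : ℕ → ℕ := fun n => Nat.rec 0 (fun _ s => s + ∑ j, F (N + r * s) j) n
    have hS1 : ∀ n, S (n + 1) = S n + ∑ j, F (N + r * S n) j := fun n => rfl
    have hSmono : Monotone S := monotone_nat_of_le_succ (fun n => by rw [hS1]; omega)
    let B : Fin r → Fin r → ℕ := fun l => F (N + r * S l)
    let ω : Fin r → Real.Angle := fun l => Ω (N + r * S l)
    have hω : ∀ l, ∫ x, dfc (relSum T f (B l) x - ω l) ∂μ ≤ ε := fun l => hF2 (N + r * S l)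
    have hBS : ∀ l l' : Fin r, ∀ j, l' < l → B l' j ≤ S l := by
      intro l l' j hl
      have h1 : B l' j ≤ S ((l' : ℕ) + 1) := by
        rw [hS1]
        have := Finset.single_le_sum (f := fun j => F (N + r * S l') j)
          (fun i _ => Nat.zero_le _) (Finset.mem_univ j)
        exact this.trans (Nat.le_add_left _ _)
      exact h1.trans (hSmono (Nat.succ_le_of_lt hl))
    have hBg : ∀ l i j : Fin r, i < j → B l i + (N + r * S l) ≤ B l j := by
      intro l i j hij
      exact hF1 (N + r * S l) i j hij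
    have hpos : ∀ π : Equiv.Perm (Fin r), π ≠ 1 → posP B π + N ≤ posP B 1 := fun π hπ =>
      posP_lt B N (fun l => S l) hBS hBg π hπ
    refine ⟨fun π => posP B 1 - posP B π.1, fun π => ?_, ?_⟩
    · have := hpos π.1 π.2
      change N ≤ posP B 1 - posP B π.1
      omega
    · set Z : X → ℝ := fun y => dfc (linSum T.symm (f t)
        (fun π : ι => ((Equiv.Perm.sign π.1 : ℤˣ) : ℤ)) (fun π => posP B 1 - posP B π.1) y)
        with hZ
      have hZm : Measurable Z := dfc_measurable.comp (linSumA_meas T.symm (hf t) _ _)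
      have hWm : ∀ l, Measurable (fun x => dfc (relSum T f (B l) x - ω l)) := fun l =>
        dfc_measurable.comp ((relSumA_meas T hf (B l)).sub measurable_const)
      have e1 : ∫ y, Z y ∂μ = ∫ x, Z ((⇑T)^[posP B 1] x) ∂μ :=
        (mp_integral (iter_mp hT (posP B 1)) hZm).symm
      have hsub : ∀ x, Z ((⇑T)^[posP B 1] x) ≤ R * ∑ π : Equiv.Perm (Fin r),
          dfc (relSum T f (B (π t)) ((⇑T)^[posE B t π] x) - ω (π t)) := by
        intro x
        have hdet := det_identity T f B t x
        have hph := phase_cancel hr ω t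
        have h5 : linSum T.symm (f t)
            (fun π : ι => ((Equiv.Perm.sign π.1 : ℤˣ) : ℤ)) (fun π => posP B 1 - posP B π.1)
            ((⇑T)^[posP B 1] x) = ∑ π : Equiv.Perm (Fin r), ((Equiv.Perm.sign π : ℤˣ) : ℤ) •
              (relSum T f (B (π t)) ((⇑T)^[posE B t π] x) - ω (π t)) := by
          simp only [smul_sub, Finset.sum_sub_distrib, hph, sub_zero]
          rw [hdet]
          rw [← Finset.add_sum_erase _ _ (Finset.mem_univ (1 : Equiv.Perm (Fin r)))]
          rw [Finset.sum_subtype (Finset.univ.erase (1 : Equiv.Perm (Fin r)))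
            (p := fun π => π ≠ 1) (by simp)]
          simp only [Equiv.Perm.sign_one, Units.val_one, one_smul]
          rw [linSum, farSum]
          congr 1
          refine Finset.sum_congr rfl (fun π _ => ?_)
          congr 2
          have h2 := hpos π.1 π.2
          have h3 : (⇑T)^[posP B 1] x
              = (⇑T)^[posP B 1 - posP B π.1] ((⇑T)^[posP B π.1] x) := by
            rw [← Function.iterate_add_apply]
            congr 2
            omega
          rw [h3, symm_iter_left]
        simp only [hZ]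
        rw [h5]
        refine (dfc_sum_le Finset.univ _).trans ?_
        rw [Finset.card_univ, Fintype.card_perm, Fintype.card_fin]
        refine mul_le_mul_of_nonneg_left (le_of_eq ?_) (by positivity)
        refine Finset.sum_congr rfl (fun π _ => ?_)
        refine sgn_dfc ?_ _
        rcases Int.units_eq_one_or (Equiv.Perm.sign π) with h6 | h6
        · left; rw [h6]; rfl
        · right; rw [h6]; rfl
      rw [e1]
      have hint : ∀ π : Equiv.Perm (Fin r), Integrable
          (fun x => dfc (relSum T f (B (π t)) ((⇑T)^[posE B t π] x) - ω (π t))) μ := fun π =>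
        int_of_bound ((hWm (π t)).comp (iter_meas T _)) (fun x => abs_dfc_le _)
      have h6 : ∫ x, Z ((⇑T)^[posP B 1] x) ∂μ ≤ ∫ x, R * ∑ π : Equiv.Perm (Fin r),
          dfc (relSum T f (B (π t)) ((⇑T)^[posE B t π] x) - ω (π t)) ∂μ := by
        refine integral_mono ?_ ?_ hsub
        · exact int_of_bound (hZm.comp (iter_meas T _)) (fun x => abs_dfc_le _)
        · exact (integrable_finsetSum _ (fun π _ => hint π)).const_mul _
      refine h6.trans ?_
      rw [integral_const_mul, integral_finsetSum _ (fun π _ => hint π)]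
      have h7 : ∀ π ∈ (Finset.univ : Finset (Equiv.Perm (Fin r))),
          ∫ x, dfc (relSum T f (B (π t)) ((⇑T)^[posE B t π] x) - ω (π t)) ∂μ ≤ ε := by
        intro π _
        have h8 : ∫ x, dfc (relSum T f (B (π t)) ((⇑T)^[posE B t π] x) - ω (π t)) ∂μ
            = ∫ x, dfc (relSum T f (B (π t)) x - ω (π t)) ∂μ :=
          mp_integral (iter_mp hT (posE B t π)) (hWm (π t))
        rw [h8]
        exact hω (π t)
      have h9 := Finset.sum_le_sum h7
      simp only [Finset.sum_const, Finset.card_univ, Fintype.card_perm, Fintype.card_fin,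
        nsmul_eq_mul] at h9
      rw [← hR] at h9
      calc _ ≤ R * (R * ε) := mul_le_mul_of_nonneg_left h9 (by linarith)
        _ = R ^ 2 * ε := by ring
  choose a ha1 ha2 using hmain
  have hcore := ccore (mp_symm hT) (hmix.symm hT) (hf t)
    (fun π : ι => ((Equiv.Perm.sign π.1 : ℤˣ) : ℤ)) (fun π => by
      rcases Int.units_eq_one_or (Equiv.Perm.sign π.1) with h6 | h6
      · left; rw [h6]; rfl
      · right; rw [h6]; rfl) a
    (fun π => tendsto_atTop_mono (fun n => ha1 n π) tendsto_id) (R ^ 2 * ε) ha2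
    (R := R) (by rw [hcard]; linarith) (by
      calc 14 * R ^ 6 * (R ^ 2 * ε) = 14 * R ^ 8 * ε := by ring
        _ ≤ 1 := hε)
  obtain ⟨g0, hg0⟩ := hcore
  refine ⟨g0, hg0.trans (le_of_eq ?_)⟩
  ring

end Pool.Agent.H716R2
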