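import Pool.Agent.H716R2.WL

set_option autoImplicit false
set_option linter.unusedSectionVars false
open MeasureTheory Filter Topology

namespace Pool.Agent.H716R2

/-- Borel structure on the angles. -/
noncomputable scoped instance angleMS : MeasurableSpace Real.Angle := borel _
scoped instance angleBorel : BorelSpace Real.Angle := ⟨rfl⟩
scoped instance angleSC : SecondCountableTopology Real.Angle :=
  inferInstanceAs (SecondCountableTopology (AddCircle (2 * Real.pi)))

/-- The defect `1 - cos θ` of an angle. -/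
noncomputable def dfc (θ : Real.Angle) : ℝ := 1 - θ.cos

theorem cos_le_one' (θ : Real.Angle) : θ.cos ≤ 1 := by
  rw [← θ.cos_toReal]; exact Real.cos_le_one _

theorem neg_one_le_cos' (θ : Real.Angle) : -1 ≤ θ.cos := by
  rw [← θ.cos_toReal]; exact Real.neg_one_le_cos _

theorem abs_cos_le_one' (θ : Real.Angle) : |θ.cos| ≤ 1 :=
  abs_le.2 ⟨neg_one_le_cos' θ, cos_le_one' θ⟩

theorem abs_sin_le_one' (θ : Real.Angle) : |θ.sin| ≤ 1 := by
  rw [← θ.sin_toReal]; exact Real.abs_sin_le_one _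

theorem dfc_nonneg (θ : Real.Angle) : 0 ≤ dfc θ := by
  unfold dfc; linarith [cos_le_one' θ]

theorem dfc_le_two (θ : Real.Angle) : dfc θ ≤ 2 := by
  unfold dfc; linarith [neg_one_le_cos' θ]

theorem abs_dfc_le (θ : Real.Angle) : |dfc θ| ≤ 2 := by
  rw [abs_of_nonneg (dfc_nonneg θ)]; exact dfc_le_two θ

theorem dfc_zero : dfc 0 = 0 := by simp [dfc]

theorem dfc_neg (θ : Real.Angle) : dfc (-θ) = dfc θ := by simp [dfc]

theorem norm_sq_eq (θ : Real.Angle) : ‖(θ.toCircle : ℂ) - 1‖ ^ 2 = 2 * dfc θ := by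
  rw [Real.Angle.coe_toCircle, ← Complex.normSq_eq_norm_sq, Complex.normSq_apply]
  have h := θ.cos_sq_add_sin_sq
  simp only [Complex.sub_re, Complex.add_re, Complex.ofReal_re, Complex.mul_re, Complex.I_re,
    mul_zero, Complex.ofReal_im, Complex.I_im, mul_one, sub_self, add_zero, Complex.one_re,
    Complex.sub_im, Complex.add_im, Complex.mul_im, zero_add, Complex.one_im, sub_zero, dfc]
  nlinarith

theorem norm_add_le' (θ ψ : Real.Angle) :
    ‖((θ + ψ).toCircle : ℂ) - 1‖ ≤ ‖(θ.toCircle : ℂ) - 1‖ + ‖(ψ.toCircle : ℂ) - 1‖ := by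
  rw [Real.Angle.toCircle_add, Circle.coe_mul]
  have : (θ.toCircle : ℂ) * ψ.toCircle - 1
      = ((θ.toCircle : ℂ) - 1) + (θ.toCircle : ℂ) * ((ψ.toCircle : ℂ) - 1) := by ring
  rw [this]
  refine (norm_add_le _ _).trans ?_
  rw [norm_mul, Circle.norm_coe, one_mul]

theorem norm_sum_le' {ι : Type*} (s : Finset ι) (h : ι → Real.Angle) :
    ‖((∑ i ∈ s, h i).toCircle : ℂ) - 1‖ ≤ ∑ i ∈ s, ‖((h i).toCircle : ℂ) - 1‖ := by
  classical
  induction s using Finset.induction_on with
  | empty => simp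
  | insert a s ha ih =>
    rw [Finset.sum_insert ha, Finset.sum_insert ha]
    exact (norm_add_le' _ _).trans (by linarith)

/-- The defect of a sum is at most the number of terms times the sum of the defects. -/
theorem dfc_sum_le {ι : Type*} (s : Finset ι) (h : ι → Real.Angle) :
    dfc (∑ i ∈ s, h i) ≤ s.card * ∑ i ∈ s, dfc (h i) := by
  have h1 := norm_sum_le' s h
  have h2 : ‖((∑ i ∈ s, h i).toCircle : ℂ) - 1‖ ^ 2
      ≤ (∑ i ∈ s, ‖((h i).toCircle : ℂ) - 1‖) ^ 2 := by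
    gcongr
  have h3 := sq_sum_le_card_mul_sum_sq (s := s) (f := fun i => ‖((h i).toCircle : ℂ) - 1‖)
  have h4 : ∑ i ∈ s, ‖((h i).toCircle : ℂ) - 1‖ ^ 2 = 2 * ∑ i ∈ s, dfc (h i) := by
    rw [Finset.mul_sum]
    exact Finset.sum_congr rfl (fun i _ => norm_sq_eq (h i))
  rw [norm_sq_eq] at h2
  rw [h4] at h3
  have h5 : 2 * dfc (∑ i ∈ s, h i) ≤ s.card * (2 * ∑ i ∈ s, dfc (h i)) := h2.trans h3
  linarith

theorem dfc_measurable : Measurable dfc :=
  (continuous_const.sub Real.Angle.continuous_cos).measurable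

theorem cos_measurable : Measurable Real.Angle.cos := Real.Angle.continuous_cos.measurable
theorem sin_measurable : Measurable Real.Angle.sin := Real.Angle.continuous_sin.measurable

theorem sgn_dfc {c : ℤ} (hc : c = 1 ∨ c = -1) (θ : Real.Angle) : dfc (c • θ) = dfc θ := by
  rcases hc with h | h
  · rw [h, one_smul]
  · rw [h, neg_smul, one_smul, dfc_neg]

/-- A small defect forces a small real representative. -/
theorem toReal_le_of_dfc {θ : Real.Angle} {η : ℝ} (h : dfc θ ≤ η) :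
    |θ.toReal| ≤ Real.pi * Real.sqrt (η / 2) := by
  have h1 := Real.cos_le_one_sub_mul_cos_sq (x := θ.toReal) θ.abs_toReal_le_pi
  rw [Real.Angle.cos_toReal] at h1
  unfold dfc at h
  have hpi := Real.pi_pos
  have h2 : 2 / Real.pi ^ 2 * θ.toReal ^ 2 ≤ η := by linarith
  have h3 : θ.toReal ^ 2 ≤ Real.pi ^ 2 * (η / 2) := by
    have h4 : Real.pi ^ 2 * (2 / Real.pi ^ 2 * θ.toReal ^ 2) ≤ Real.pi ^ 2 * η :=
      mul_le_mul_of_nonneg_left h2 (by positivity)
    have h5 : Real.pi ^ 2 * (2 / Real.pi ^ 2 * θ.toReal ^ 2) = 2 * θ.toReal ^ 2 := by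
      field_simp
    rw [h5] at h4
    linarith
  have h6 := Real.sqrt_le_sqrt h3
  rw [Real.sqrt_sq_eq_abs, Real.sqrt_mul (by positivity), Real.sqrt_sq hpi.le] at h6
  exact h6

theorem norm_exp_sub_one_le (t : ℝ) : ‖(((t : Real.Angle).toCircle : Circle) : ℂ) - 1‖ ≤ |t| := by
  have h := norm_sq_eq (t : Real.Angle)
  have h1 : 2 * dfc (t : Real.Angle) ≤ t ^ 2 := by
    unfold dfc
    rw [Real.Angle.cos_coe]
    have := Real.one_sub_sq_div_two_le_cos (x := t)
    linarith
  rw [← h, ← sq_abs t] at h1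
  exact (pow_le_pow_iff_left₀ (norm_nonneg _) (abs_nonneg _) two_ne_zero).1 h1

end Pool.Agent.H716R2
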