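import Pool.Agent.H716R2.Exact

set_option autoImplicit false
set_option linter.unusedSectionVars false
open MeasureTheory Filter Topology

namespace Pool.Agent.H716R2

variable {X : Type*} [MeasurableSpace X]
variable {G : Type*} [AddCommGroup G] [Finite G] [MeasurableSpace G] [DiscreteMeasurableSpace G]
variable {ι : Type*} [Fintype ι]

/-- The core theorem: if a `G`-valued function on a mixing system satisfies a linear relation
`f x + ∑ c j f (T^{a j} x) = 0` with probability at least `1 - ε` for a sequence of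
lag vectors `a` tending to infinity, then `f` is close to a constant. -/
theorem core {μ : Measure X} [IsProbabilityMeasure μ] {T : X ≃ᵐ X}
    (hT : MeasurePreserving T μ μ) (hmix : Mixing μ T) {f : X → G} (hf : Measurable f)
    (c : ι → ℤ) (a : ℕ → ι → ℕ) (ha : ∀ j, Tendsto (fun n => a n j) atTop atTop) (ε : ℝ)
    (hε : (Fintype.card ι : ℝ) * (2 * Fintype.card ι + 3) * ε < 1)
    (hV : ∀ n, μ.real {x | linSum T f c (a n) x ≠ 0} ≤ ε) :
    ∃ g0 : G, μ.real {x | f x ≠ g0} ≤ (2 * Fintype.card ι + 1) * ε := by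
  classical
  haveI : Fintype G := Fintype.ofFinite G
  set s : ℝ := (Fintype.card ι : ℝ) with hs
  have hs0 : 0 ≤ s := Nat.cast_nonneg _
  have hε0 : 0 ≤ ε := le_trans measureReal_nonneg (hV 0)
  let U : Ultrafilter ℕ := hyperfilter ℕ
  have hU : (U : Filter ℕ) ≤ atTop := Nat.hyperfilter_le_atTop
  -- the sets
  let E : G → ℕ → Set X := fun h n => {x | farSum T f c (a n) x = h}
  let B : ℕ → Set X := fun n => {x | linSum T f c (a n) x ≠ 0}
  have hE : ∀ h n, MeasurableSet (E h n) := fun h n =>
    (farSum_meas T hf c (a n)) (MeasurableSet.of_discrete (s := {h}))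
  have hB : ∀ n, MeasurableSet (B n) := fun n =>
    (linSum_meas T hf c (a n)) (MeasurableSet.of_discrete (s := {0}ᶜ))
  have hκ : ∀ h : G, ∃ v : X → ℝ, Measurable v ∧ (∀ x, 0 ≤ v x) ∧ (∀ x, v x ≤ 1) ∧
      WeakLim μ U (E h) v := fun h => exists_weak_limit μ U (E h) (hE h)
  choose κ hκm hκ0 hκ1 hκl using hκ
  obtain ⟨β, hβm, hβ0, hβ1, hβl⟩ := exists_weak_limit μ U B hB
  replace hβl : WeakLim μ U B β := hβl
  have hκint : ∀ h, Integrable (κ h) μ := fun h =>
    Integrable.of_bound (hκm h).aestronglyMeasurable 1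
      (Eventually.of_forall fun x => by rw [Real.norm_of_nonneg (hκ0 h x)]; exact hκ1 h x)
  have hβint : Integrable β μ :=
    Integrable.of_bound hβm.aestronglyMeasurable 1
      (Eventually.of_forall fun x => by rw [Real.norm_of_nonneg (hβ0 x)]; exact hβ1 x)
  have hβε : ∫ x, β x ∂μ ≤ ε := le_of_tendsto' hβl.univ (fun n => hV n)
  -- the weights sum to one
  have hsum : ∀ᵐ x ∂μ, ∑ h : G, κ h x = 1 := by
    have h1 : (fun x => ∑ h : G, κ h x) =ᵐ[μ] fun _ => (1 : ℝ) := by
      apply Integrable.ae_eq_of_forall_setIntegral_eq _ _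
        (integrable_finsetSum _ (fun h _ => hκint h)) (integrable_const _)
      intro A hA _
      have hl : Tendsto (fun n => ∑ h : G, μ.real (A ∩ E h n)) U
          (𝓝 (∑ h : G, ∫ x in A, κ h x ∂μ)) := tendsto_finsetSum _ (fun h _ => (hκl h).set hA)
      have hc : ∀ n, ∑ h : G, μ.real (A ∩ E h n) = μ.real A := by
        intro n
        rw [← measureReal_biUnion_finset]
        · congr 1
          ext x
          simp [E]
        · intro w _ w' _ hww'
          apply Set.disjoint_left.2
          rintro x ⟨_, h1⟩ ⟨_, h2⟩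
          apply hww'
          simp only [E, Set.mem_ofPred_eq] at h1 h2
          rw [← h1, ← h2]
        · intro w _
          exact hA.inter (hE w n)
      simp only [hc] at hl
      have := tendsto_nhds_unique hl tendsto_const_nhds
      rw [integral_finsetSum _ (fun h _ => (hκint h).integrableOn), this]
      simp
    exact h1
  -- the key estimate
  have hkey : ∀ A : Set X, MeasurableSet A →
      (1 - 2 * s * ε) * μ.real A ≤ ∫ x in A, ∑ h : G, κ h x * κ h x ∂μ := by
    intro A hA
    -- the agreement functional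
    have hJ : ∀ m, Tendsto (fun n => ∑ h : G, μ.real ((A ∩ E h m) ∩ E h n)) U
        (𝓝 (∑ h : G, ∫ x in A ∩ E h m, κ h x ∂μ)) := fun m =>
      tendsto_finsetSum _ (fun h _ => (hκl h).set (hA.inter (hE h m)))
    have hJ2 : Tendsto (fun m => ∑ h : G, ∫ x in A ∩ E h m, κ h x ∂μ) U
        (𝓝 (∑ h : G, ∫ x in A, κ h x * κ h x ∂μ)) := by
      refine tendsto_finsetSum _ (fun h _ => ?_)
      have h1 := hκl h (A.indicator (κ h)) ((hκm h).indicator hA)
        ⟨1, fun x => by
          by_cases hx : x ∈ A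
          · simp only [hx, Set.indicator_of_mem]
            rw [abs_of_nonneg (hκ0 h x)]; exact hκ1 h x
          · simp [hx]⟩
      have e1 : ∀ n, ∫ x in E h n, A.indicator (κ h) x ∂μ = ∫ x in A ∩ E h n, κ h x ∂μ := by
        intro n
        rw [integral_indicator hA, Measure.restrict_restrict hA]
      have e2 : ∫ x, A.indicator (κ h) x * κ h x ∂μ = ∫ x in A, κ h x * κ h x ∂μ := by
        rw [← integral_indicator hA]
        congr 1
        ext x
        by_cases hx : x ∈ A <;> simp [hx]
      simp only [e1] at h1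
      rw [e2] at h1
      exact h1
    -- the upper bound on disagreement
    have hdis : ∀ m n, μ.real A - ∑ h : G, μ.real ((A ∩ E h m) ∩ E h n)
        ≤ ∑ j, μ.real (A ∩ (⇑T)^[a n j] ⁻¹' B m) + ∑ i, μ.real (A ∩ (⇑T)^[a m i] ⁻¹' B n) := by
      intro m n
      have e1 : ∑ h : G, μ.real ((A ∩ E h m) ∩ E h n)
          = μ.real (⋃ h ∈ (Finset.univ : Finset G), (A ∩ E h m) ∩ E h n) := by
        rw [← measureReal_biUnion_finset]
        · intro w _ w' _ hww'
          apply Set.disjoint_left.2
          rintro x ⟨⟨_, h1⟩, _⟩ ⟨⟨_, h2⟩, _⟩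
          apply hww'
          simp only [E, Set.mem_ofPred_eq] at h1 h2
          rw [← h1, ← h2]
        · intro w _
          exact (hA.inter (hE w m)).inter (hE w n)
      have hsub : A ⊆ (⋃ h ∈ (Finset.univ : Finset G), (A ∩ E h m) ∩ E h n) ∪
          ((⋃ j ∈ (Finset.univ : Finset ι), A ∩ (⇑T)^[a n j] ⁻¹' B m) ∪
            (⋃ i ∈ (Finset.univ : Finset ι), A ∩ (⇑T)^[a m i] ⁻¹' B n)) := by
        intro x hx
        by_cases h1 : ∃ j, (⇑T)^[a n j] x ∈ B m
        · right; left
          obtain ⟨j, hj⟩ := h1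
          simp only [Finset.mem_univ, Set.iUnion_true, Set.mem_iUnion]
          exact ⟨j, hx, hj⟩
        by_cases h2 : ∃ i, (⇑T)^[a m i] x ∈ B n
        · right; right
          obtain ⟨j, hj⟩ := h2
          simp only [Finset.mem_univ, Set.iUnion_true, Set.mem_iUnion]
          exact ⟨j, hx, hj⟩
        left
        push Not at h1 h2
        have h1' : ∀ j, linSum T f c (a m) ((⇑T)^[a n j] x) = 0 := by
          intro j
          have := h1 j
          simpa [B] using this
        have h2' : ∀ i, linSum T f c (a n) ((⇑T)^[a m i] x) = 0 := by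
          intro j
          have := h2 j
          simpa [B] using this
        have h3 := array_identity2 T f c (a m) (a n) x
        simp only [h1', h2', smul_zero, Finset.sum_const_zero, add_zero] at h3
        have h4 : farSum T f c (a n) x = farSum T f c (a m) x := by
          simpa [linSum] using h3
        simp only [Finset.mem_univ, Set.iUnion_true, Set.mem_iUnion]
        refine ⟨farSum T f c (a m) x, ⟨hx, rfl⟩, ?_⟩
        simp [E, h4]
      rw [e1]
      have h5 := measureReal_mono hsub (μ := μ)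
      have h6 := measureReal_union_le (μ := μ)
        (⋃ h ∈ (Finset.univ : Finset G), (A ∩ E h m) ∩ E h n)
        ((⋃ j ∈ (Finset.univ : Finset ι), A ∩ (⇑T)^[a n j] ⁻¹' B m) ∪
            (⋃ i ∈ (Finset.univ : Finset ι), A ∩ (⇑T)^[a m i] ⁻¹' B n))
      have h7 := measureReal_union_le (μ := μ)
        (⋃ j ∈ (Finset.univ : Finset ι), A ∩ (⇑T)^[a n j] ⁻¹' B m)
        (⋃ i ∈ (Finset.univ : Finset ι), A ∩ (⇑T)^[a m i] ⁻¹' B n)
      have h8 := measureReal_biUnion_finset_le (μ := μ) (Finset.univ : Finset ι)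
        (fun j => A ∩ (⇑T)^[a n j] ⁻¹' B m)
      have h9 := measureReal_biUnion_finset_le (μ := μ) (Finset.univ : Finset ι)
        (fun i => A ∩ (⇑T)^[a m i] ⁻¹' B n)
      linarith
    -- limit in n
    have hlim1 : ∀ m, Tendsto (fun n => ∑ j, μ.real (A ∩ (⇑T)^[a n j] ⁻¹' B m)) U
        (𝓝 (∑ _j : ι, μ.real A * μ.real (B m))) := by
      intro m
      refine tendsto_finsetSum _ (fun j _ => ?_)
      exact ((hmix A (B m) hA (hB m)).comp (ha j)).mono_left hU
    have hlim2 : ∀ m, Tendsto (fun n => ∑ i, μ.real (A ∩ (⇑T)^[a m i] ⁻¹' B n)) U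
        (𝓝 (∑ i, ∫ x in A, β ((⇑T)^[a m i] x) ∂μ)) := by
      intro m
      exact tendsto_finsetSum _ (fun i _ => hβl.shift hT hB (a m i) hA)
    have hbd1 : ∀ m, μ.real A - ∑ h : G, ∫ x in A ∩ E h m, κ h x ∂μ
        ≤ s * μ.real A * ε + ∑ i, ∫ x in A, β ((⇑T)^[a m i] x) ∂μ := by
      intro m
      have h1 := le_of_tendsto_of_tendsto' ((hJ m).const_sub (μ.real A))
        ((hlim1 m).add (hlim2 m)) (fun n => hdis m n)
      refine h1.trans ?_
      have h2 : ∑ _j : ι, μ.real A * μ.real (B m) ≤ s * μ.real A * ε := by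
        simp only [Finset.sum_const, Finset.card_univ, nsmul_eq_mul]
        rw [← hs, mul_assoc]
        exact mul_le_mul_of_nonneg_left (mul_le_mul_of_nonneg_left (hV m) measureReal_nonneg) hs0
      linarith
    have hlim3 : Tendsto (fun m => ∑ i, ∫ x in A, β ((⇑T)^[a m i] x) ∂μ) U
        (𝓝 (∑ _i : ι, μ.real A * ∫ x, β x ∂μ)) := by
      refine tendsto_finsetSum _ (fun j _ => ?_)
      exact ((mixing_fun hT hmix hβint hA).comp (ha j)).mono_left hU
    have h1 := le_of_tendsto_of_tendsto' (hJ2.const_sub (μ.real A))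
      (hlim3.const_add (s * μ.real A * ε)) hbd1
    have h2 : ∑ _i : ι, μ.real A * ∫ x, β x ∂μ ≤ s * μ.real A * ε := by
      simp only [Finset.sum_const, Finset.card_univ, nsmul_eq_mul]
      rw [← hs, mul_assoc]
      exact mul_le_mul_of_nonneg_left (mul_le_mul_of_nonneg_left hβε measureReal_nonneg) hs0
    have h3 : ∑ h : G, ∫ x in A, κ h x * κ h x ∂μ = ∫ x in A, ∑ h : G, κ h x * κ h x ∂μ := by
      rw [integral_finsetSum]
      intro h _
      refine Integrable.integrableOn (Integrable.of_bound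
        ((hκm h).mul (hκm h)).aestronglyMeasurable 1 (Eventually.of_forall fun x => ?_))
      rw [Real.norm_of_nonneg (mul_nonneg (hκ0 h x) (hκ0 h x))]
      exact mul_le_one₀ (hκ1 h x) (hκ0 h x) (hκ1 h x)
    rw [← h3]
    linarith
  set δ : ℝ := 2 * s * ε with hδ
  have hsqint : Integrable (fun x => ∑ h : G, κ h x * κ h x) μ := by
    refine integrable_finsetSum _ (fun h _ => Integrable.of_bound
        ((hκm h).mul (hκm h)).aestronglyMeasurable 1 (Eventually.of_forall fun x => ?_))
    rw [Real.norm_of_nonneg (mul_nonneg (hκ0 h x) (hκ0 h x))]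
    exact mul_le_one₀ (hκ1 h x) (hκ0 h x) (hκ1 h x)
  have hsq : ∀ᵐ x ∂μ, 1 - δ ≤ ∑ h : G, κ h x * κ h x := by
    have h1 : (fun _ : X => (1 - δ : ℝ)) ≤ᵐ[μ] (fun x => ∑ h : G, κ h x * κ h x) := by
      apply ae_le_of_forall_setIntegral_le (integrable_const _) hsqint
      intro A hA _
      have := hkey A hA
      simpa [mul_comm] using this
    exact h1
  -- for almost every x there is a heavy value
  have hheavy : ∀ᵐ x ∂μ, ∃ h : G, 1 - δ ≤ κ h x := by
    filter_upwards [hsq, hsum] with x h1 h2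
    by_contra hcon
    push Not at hcon
    have h3 : ∑ h : G, κ h x * κ h x < 1 - δ := by
      have hex : ∃ h ∈ (Finset.univ : Finset G), κ h x ≠ 0 := by
        apply Finset.exists_ne_zero_of_sum_ne_zero
        rw [h2]; norm_num
      obtain ⟨h0, _, hh0⟩ := hex
      have hpos : 0 < κ h0 x := lt_of_le_of_ne (hκ0 h0 x) (Ne.symm hh0)
      calc ∑ h : G, κ h x * κ h x < ∑ h : G, (1 - δ) * κ h x := by
            apply Finset.sum_lt_sum
            · intro h _
              exact mul_le_mul_of_nonneg_right (hcon h).le (hκ0 h x)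
            · exact ⟨h0, Finset.mem_univ _, mul_lt_mul_of_pos_right (hcon h0) hpos⟩
        _ = 1 - δ := by rw [← Finset.mul_sum, h2, mul_one]
    linarith
  -- a measurable choice of the heavy value
  obtain ⟨F, hFm, hF⟩ : ∃ F : X → G, Measurable F ∧ ∀ᵐ x ∂μ, 1 - δ ≤ κ (-(F x)) x := by
    obtain ⟨e, he⟩ := exists_surjective_nat G
    let p : ℕ → X → Prop := fun n x => 1 - δ ≤ κ (e n) x ∨ ¬ ∃ k, 1 - δ ≤ κ (e k) x
    have hp : ∀ x, ∃ n, p n x := by
      intro x
      by_cases h : ∃ k, 1 - δ ≤ κ (e k) x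
      · obtain ⟨k, hk⟩ := h
        exact ⟨k, Or.inl hk⟩
      · exact ⟨0, Or.inr h⟩
    have hms : ∀ n, MeasurableSet {x | 1 - δ ≤ κ (e n) x} := fun n =>
      measurableSet_le measurable_const (hκm (e n))
    have hpm : ∀ n, MeasurableSet {x | p n x} := by
      intro n
      have : {x | p n x} = {x | 1 - δ ≤ κ (e n) x} ∪ (⋃ k, {x | 1 - δ ≤ κ (e k) x})ᶜ := by
        ext x
        simp [p]
      rw [this]
      exact (hms n).union (MeasurableSet.iUnion hms).compl
    refine ⟨fun x => - e (Nat.find (hp x)), ?_, ?_⟩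
    · exact Measurable.find (f := fun n _ => - e n) (fun n => measurable_const) hpm hp
    · filter_upwards [hheavy] with x hx
      obtain ⟨h, hh⟩ := hx
      obtain ⟨k, hk⟩ := he h
      have h1 := Nat.find_spec (hp x)
      rw [neg_neg]
      rcases h1 with h1 | h1
      · exact h1
      · exfalso
        apply h1
        exact ⟨k, by rw [hk]; exact hh⟩
  -- the weak limit of the error sets
  let D : ℕ → Set X := fun n => {x | farSum T f c (a n) x ≠ -(F x)}
  have hD : ∀ n, MeasurableSet (D n) := by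
    intro n
    have h1 : Measurable (fun x => farSum T f c (a n) x + F x) := (farSum_meas T hf c (a n)).add hFm
    have : D n = (fun x => farSum T f c (a n) x + F x) ⁻¹' {0}ᶜ := by
      ext x
      simp only [D, Set.mem_ofPred_eq, Set.mem_preimage, Set.mem_compl_iff, Set.mem_singleton_iff]
      rw [not_iff_not]
      exact eq_neg_iff_add_eq_zero
    rw [this]
    exact h1 (MeasurableSet.of_discrete)
  have hvm : Measurable (fun x => 1 - κ (-(F x)) x) := by
    have : (fun x => 1 - κ (-(F x)) x)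
        = fun x => 1 - ∑ h : G, ((fun x => -(F x)) ⁻¹' {h}).indicator (κ h) x := by
      ext x
      congr 1
      rw [Finset.sum_eq_single (-(F x))]
      · simp
      · intro b _ hb
        simp [Set.indicator, Ne.symm hb]
      · simp
    rw [this]
    refine measurable_const.sub (Finset.measurable_sum _ (fun h _ => (hκm h).indicator ?_))
    exact hFm.neg (MeasurableSet.of_discrete)
  have hDl : WeakLim μ U D (fun x => 1 - κ (-(F x)) x) := by
    intro g hg hgb
    obtain ⟨C, hC⟩ := hgb
    have hgi : Integrable g μ := Integrable.of_bound hg.aestronglyMeasurable C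
      (Eventually.of_forall hC)
    have hSm : ∀ h : G, MeasurableSet ((fun x => -(F x)) ⁻¹' {h}) := fun h =>
      hFm.neg (MeasurableSet.of_discrete)
    have h1 : Tendsto (fun n => ∑ h : G, ∫ x in E h n,
        ((fun x => -(F x)) ⁻¹' {h}).indicator g x ∂μ) U
        (𝓝 (∑ h : G, ∫ x, ((fun x => -(F x)) ⁻¹' {h}).indicator g x * κ h x ∂μ)) := by
      refine tendsto_finsetSum _ (fun h _ => hκl h _ (hg.indicator (hSm h)) ⟨C, fun x => ?_⟩)
      by_cases hx : x ∈ ((fun x => -(F x)) ⁻¹' {h})
      · rw [Set.indicator_of_mem hx]; exact hC x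
      · rw [Set.indicator_of_notMem hx, abs_zero]
        exact (abs_nonneg _).trans (hC x)
    have e1 : ∀ n, ∫ x, g x ∂μ - ∑ h : G, ∫ x in E h n,
        ((fun x => -(F x)) ⁻¹' {h}).indicator g x ∂μ = ∫ x in D n, g x ∂μ := by
      intro n
      have h2 : ∑ h : G, ∫ x in E h n, ((fun x => -(F x)) ⁻¹' {h}).indicator g x ∂μ
          = ∫ x in (D n)ᶜ, g x ∂μ := by
        have h3 : ∀ h : G, ∫ x in E h n, ((fun x => -(F x)) ⁻¹' {h}).indicator g x ∂μ
            = ∫ x in ((fun x => -(F x)) ⁻¹' {h}) ∩ E h n, g x ∂μ := by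
          intro h
          rw [integral_indicator (hSm h), Measure.restrict_restrict (hSm h)]
        simp only [h3]
        rw [← integral_biUnion_finset]
        · congr 2
          ext x
          simp [E, D]
        · intro h _
          exact (hSm h).inter (hE h n)
        · intro w _ w' _ hww'
          apply Set.disjoint_left.2
          rintro x ⟨h1, _⟩ ⟨h2, _⟩
          apply hww'
          simp only [Set.mem_preimage, Set.mem_singleton_iff] at h1 h2
          rw [← h1, ← h2]
        · intro h _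
          exact hgi.integrableOn
      rw [h2, ← integral_add_compl (hD n) hgi]
      ring
    have e2 : ∫ x, g x ∂μ - ∑ h : G, ∫ x, ((fun x => -(F x)) ⁻¹' {h}).indicator g x * κ h x ∂μ
        = ∫ x, g x * (1 - κ (-(F x)) x) ∂μ := by
      have hterm : ∀ h : G, Integrable (fun x =>
          ((fun x => -(F x)) ⁻¹' {h}).indicator g x * κ h x) μ := by
        intro h
        refine Integrable.of_bound ((hg.indicator (hSm h)).mul (hκm h)).aestronglyMeasurable C
          (Eventually.of_forall fun x => ?_)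
        rw [norm_mul, Real.norm_of_nonneg (hκ0 h x)]
        have h4 : ‖((fun x => -(F x)) ⁻¹' {h}).indicator g x‖ ≤ C := by
          by_cases hx : x ∈ ((fun x => -(F x)) ⁻¹' {h})
          · rw [Set.indicator_of_mem hx]; exact hC x
          · rw [Set.indicator_of_notMem hx, norm_zero]
            exact (abs_nonneg _).trans (hC x)
        calc _ ≤ C * 1 := mul_le_mul h4 (hκ1 h x) (hκ0 h x) ((abs_nonneg _).trans (hC x))
          _ = C := mul_one C
      rw [← integral_finsetSum _ (fun h _ => hterm h), ← integral_sub hgi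
        (integrable_finsetSum _ (fun h _ => hterm h))]
      congr 1
      ext x
      rw [Finset.sum_eq_single (-(F x))]
      · simp; ring
      · intro b _ hb
        simp [Set.indicator, Ne.symm hb]
      · simp
    rw [← e2]
    exact (h1.const_sub _).congr e1
  have hDδ : ∀ᵐ x ∂μ, 1 - κ (-(F x)) x ≤ δ := by
    filter_upwards [hF] with x hx
    linarith
  -- exactness
  have hexact : ∀ m, ∀ᵐ x ∂μ, linSum T F c (a m) x = 0 := by
    intro m
    set Z : Set X := {x | linSum T F c (a m) x ≠ 0} with hZ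
    have hZm : MeasurableSet Z :=
      (linSum_meas T hFm c (a m)) (MeasurableSet.of_discrete (s := {0}ᶜ))
    have hcover : ∀ n, μ.real Z ≤ μ.real (Z ∩ D n) + ∑ i, μ.real (Z ∩ (⇑T)^[a m i] ⁻¹' D n)
        + ∑ j, μ.real (Z ∩ (⇑T)^[a n j] ⁻¹' B m) := by
      intro n
      have hsub : Z ⊆ ((Z ∩ D n) ∪ (⋃ i ∈ (Finset.univ : Finset ι), Z ∩ (⇑T)^[a m i] ⁻¹' D n)) ∪
          (⋃ j ∈ (Finset.univ : Finset ι), Z ∩ (⇑T)^[a n j] ⁻¹' B m) := by
        intro x hx
        by_cases h0 : x ∈ D n
        · left; left; exact ⟨hx, h0⟩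
        by_cases h1 : ∃ i, (⇑T)^[a m i] x ∈ D n
        · left; right
          obtain ⟨j, hj⟩ := h1
          simp only [Finset.mem_univ, Set.iUnion_true, Set.mem_iUnion]
          exact ⟨j, hx, hj⟩
        by_cases h2 : ∃ j, (⇑T)^[a n j] x ∈ B m
        · right
          obtain ⟨j, hj⟩ := h2
          simp only [Finset.mem_univ, Set.iUnion_true, Set.mem_iUnion]
          exact ⟨j, hx, hj⟩
        exfalso
        push Not at h1 h2
        apply hx
        have h0' : farSum T f c (a n) x = -(F x) := by simpa [D] using h0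
        have h1' : ∀ i, farSum T f c (a n) ((⇑T)^[a m i] x) = -(F ((⇑T)^[a m i] x)) := by
          intro i
          have := h1 i
          simpa [D] using this
        have h2' : ∀ j, linSum T f c (a m) ((⇑T)^[a n j] x) = 0 := by
          intro j
          have := h2 j
          simpa [B] using this
        have h3 := array_identity T f c (a m) (a n) x
        simp only [h0', h1', h2', smul_zero, Finset.sum_const_zero] at h3
        rw [linSum, farSum]
        have h4 : -(F x + ∑ i, c i • F ((⇑T)^[a m i] x)) = 0 := by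
          rw [← h3]
          simp only [smul_neg, Finset.sum_neg_distrib]
          abel
        exact neg_eq_zero.1 h4
      have h5 := measureReal_mono hsub (μ := μ)
      have h6 := measureReal_union_le (μ := μ)
        ((Z ∩ D n) ∪ (⋃ i ∈ (Finset.univ : Finset ι), Z ∩ (⇑T)^[a m i] ⁻¹' D n))
        (⋃ j ∈ (Finset.univ : Finset ι), Z ∩ (⇑T)^[a n j] ⁻¹' B m)
      have h7 := measureReal_union_le (μ := μ) (Z ∩ D n)
        (⋃ i ∈ (Finset.univ : Finset ι), Z ∩ (⇑T)^[a m i] ⁻¹' D n)
      have h8 := measureReal_biUnion_finset_le (μ := μ) (Finset.univ : Finset ι)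
        (fun i => Z ∩ (⇑T)^[a m i] ⁻¹' D n)
      have h9 := measureReal_biUnion_finset_le (μ := μ) (Finset.univ : Finset ι)
        (fun j => Z ∩ (⇑T)^[a n j] ⁻¹' B m)
      linarith
    have hl0 := hDl.set hZm
    have hl1 : Tendsto (fun n => ∑ i, μ.real (Z ∩ (⇑T)^[a m i] ⁻¹' D n)) U
        (𝓝 (∑ i, ∫ x in Z, (1 - κ (-(F ((⇑T)^[a m i] x))) ((⇑T)^[a m i] x)) ∂μ)) :=
      tendsto_finsetSum _ (fun i _ => hDl.shift hT hD (a m i) hZm)
    have hl2 : Tendsto (fun n => ∑ j, μ.real (Z ∩ (⇑T)^[a n j] ⁻¹' B m)) U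
        (𝓝 (∑ _j : ι, μ.real Z * μ.real (B m))) := by
      refine tendsto_finsetSum _ (fun j _ => ?_)
      exact ((hmix Z (B m) hZm (hB m)).comp (ha j)).mono_left hU
    have hfin := ge_of_tendsto' ((hl0.add hl1).add hl2) hcover
    have hvint : Integrable (fun x => 1 - κ (-(F x)) x) μ :=
      Integrable.of_bound hvm.aestronglyMeasurable 1 (Eventually.of_forall fun x => by
        rw [Real.norm_of_nonneg (by have := hκ1 (-(F x)) x; linarith)]
        have := hκ0 (-(F x)) x
        linarith)
    have hb0 : ∫ x in Z, (1 - κ (-(F x)) x) ∂μ ≤ δ * μ.real Z := by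
      have : ∫ x in Z, (1 - κ (-(F x)) x) ∂μ ≤ ∫ x in Z, δ ∂μ :=
        setIntegral_mono_ae hvint.integrableOn (integrable_const _).integrableOn hDδ
      simpa [mul_comm] using this
    have hb1 : ∀ i, ∫ x in Z, (1 - κ (-(F ((⇑T)^[a m i] x))) ((⇑T)^[a m i] x)) ∂μ
        ≤ δ * μ.real Z := by
      intro i
      have h1 : ∀ᵐ x ∂μ, 1 - κ (-(F ((⇑T)^[a m i] x))) ((⇑T)^[a m i] x) ≤ δ :=
        (iter_mp hT (a m i)).quasiMeasurePreserving.ae hDδ
      have h2 : Integrable (fun x => 1 - κ (-(F ((⇑T)^[a m i] x))) ((⇑T)^[a m i] x)) μ :=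
        ((iter_mp hT (a m i)).integrable_comp hvm.aestronglyMeasurable).2 hvint
      have : ∫ x in Z, (1 - κ (-(F ((⇑T)^[a m i] x))) ((⇑T)^[a m i] x)) ∂μ ≤ ∫ x in Z, δ ∂μ :=
        setIntegral_mono_ae h2.integrableOn (integrable_const _).integrableOn h1
      simpa [mul_comm] using this
    have hb1' : ∑ i, ∫ x in Z, (1 - κ (-(F ((⇑T)^[a m i] x))) ((⇑T)^[a m i] x)) ∂μ
        ≤ s * (δ * μ.real Z) := by
      refine (Finset.sum_le_sum (fun i _ => hb1 i)).trans ?_
      simp [hs]
    have hb2 : ∑ _j : ι, μ.real Z * μ.real (B m) ≤ s * (ε * μ.real Z) := by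
      simp only [Finset.sum_const, Finset.card_univ, nsmul_eq_mul]
      rw [← hs, mul_comm (μ.real Z)]
      exact mul_le_mul_of_nonneg_left (mul_le_mul_of_nonneg_right (hV m) measureReal_nonneg) hs0
    have hZ0 : μ.real Z = 0 := by
      by_contra hne
      have hpos : 0 < μ.real Z := lt_of_le_of_ne measureReal_nonneg (Ne.symm hne)
      have h1 : μ.real Z ≤ (s * (2 * s + 3) * ε) * μ.real Z := by
        have : (s * (2 * s + 3) * ε) * μ.real Z
            = δ * μ.real Z + s * (δ * μ.real Z) + s * (ε * μ.real Z) := by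
          rw [hδ]; ring
        rw [this]
        linarith
      have h2 : (s * (2 * s + 3) * ε) * μ.real Z < 1 * μ.real Z :=
        mul_lt_mul_of_pos_right hε hpos
      linarith
    rw [ae_iff]
    have : μ Z = 0 := (measureReal_eq_zero_iff).1 hZ0
    exact this
  -- F is constant
  obtain ⟨m, hm⟩ : ∃ m, ∀ j, 1 ≤ a m j := by
    have : ∀ᶠ n in atTop, ∀ j, 1 ≤ a n j :=
      eventually_all.2 (fun j => (ha j).eventually_ge_atTop 1)
    exact this.exists
  obtain ⟨g0, hg0⟩ := exact_const hT hmix hFm c (a m) hm (hexact m)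
  refine ⟨g0, ?_⟩
  have hl := hDl.univ
  have hle : ∫ x, (1 - κ (-(F x)) x) ∂μ ≤ δ := by
    have hvint : Integrable (fun x => 1 - κ (-(F x)) x) μ :=
      Integrable.of_bound hvm.aestronglyMeasurable 1 (Eventually.of_forall fun x => by
        rw [Real.norm_of_nonneg (by have := hκ1 (-(F x)) x; linarith)]
        have := hκ0 (-(F x)) x
        linarith)
    have := integral_mono_ae hvint (integrable_const δ) hDδ
    simpa using this
  have hfin : μ.real {x | f x ≠ g0} ≤ ε + ∫ x, (1 - κ (-(F x)) x) ∂μ := by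
    refine ge_of_tendsto' (hl.const_add ε) (fun n => ?_)
    have hsub : ∀ᵐ x ∂μ, x ∈ {x | f x ≠ g0} → x ∈ B n ∪ D n := by
      filter_upwards [hg0] with x hx
      intro h1
      by_contra h2
      simp only [Set.mem_union, not_or, B, D, Set.mem_ofPred_eq, not_not] at h2
      apply h1
      have h3 := h2.1
      rw [linSum, h2.2, hx] at h3
      exact add_neg_eq_zero.1 h3
    have h1 : μ.real {x | f x ≠ g0} ≤ μ.real (B n ∪ D n) := by
      simp only [Measure.real]
      exact ENNReal.toReal_mono (measure_ne_top _ _) (measure_mono_ae hsub)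
    have h2 := measureReal_union_le (μ := μ) (B n) (D n)
    have h3 := hV n
    change μ.real (B n) ≤ ε at h3
    linarith
  have : (2 * s + 1) * ε = ε + δ := by rw [hδ]; ring
  rw [this]
  linarith

end Pool.Agent.H716R2
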