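import Pool.Agent.H716R2.Gap2

set_option autoImplicit false
set_option linter.unusedSectionVars false
open MeasureTheory Filter Topology

namespace Pool.Agent.H716R2

variable {X : Type*} [MeasurableSpace X]

/-- Mixing of multiplicity `k`, in terms of the gaps `m j` between consecutive times. -/
def MixK (μ : Measure X) (T : X ≃ᵐ X) (k : ℕ) : Prop :=
  ∀ A : ℕ → Set X, (∀ i, MeasurableSet (A i)) → ∀ ε : ℝ, 0 < ε →
    ∃ N : ℕ, ∀ m : ℕ → ℕ, (∀ j < k, N ≤ m j) →
      |μ.real (⋂ i ∈ Finset.range (k + 1), (⇑T)^[∑ j ∈ Finset.range i, m j] ⁻¹' A i)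
        - ∏ i ∈ Finset.range (k + 1), μ.real (A i)| < ε

theorem iInter_range_eq {r : ℕ} (B : ℕ → Set X) :
    (⋂ i ∈ Finset.range r, B i) = ⋂ i : Fin r, B i := by
  ext x
  simp only [Set.mem_iInter, Finset.mem_range]
  exact ⟨fun h i => h i i.2, fun h i hi => h ⟨i, hi⟩⟩

theorem factSet_of_mixK {μ : Measure X} [IsProbabilityMeasure μ] {T : X ≃ᵐ X}
    (hT : MeasurePreserving T μ μ) {k : ℕ} (h : MixK μ T k) : FactSet μ T (k + 1) := by
  intro s hs A hA
  let A' : ℕ → Set X := fun i => A ⟨min i k, by omega⟩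
  have hA' : ∀ i, MeasurableSet (A' i) := fun i => hA _
  have hAA : ∀ i : Fin (k + 1), A' i = A i := by
    intro i
    simp only [A']
    congr 1
    apply Fin.ext
    simp only
    omega
  rw [Metric.tendsto_atTop]
  intro ε hε
  obtain ⟨N, hN⟩ := h A' hA' ε hε
  obtain ⟨n0, hn0⟩ := eventually_atTop.1 (hs N)
  refine ⟨n0, fun n hn => ?_⟩
  have hgap := hn0 n hn
  let sn : ℕ → ℕ := fun i => s n ⟨min i k, by omega⟩
  have hmono : Monotone sn := by
    intro i j hij
    simp only [sn]
    rcases Nat.lt_or_ge (min i k) (min j k) with h1 | h1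
    · have := hgap ⟨min i k, by omega⟩ ⟨min j k, by omega⟩ h1
      omega
    · have : min i k = min j k := by omega
      simp [this]
  have hsn : ∀ i : Fin (k + 1), sn i = s n i := by
    intro i
    simp only [sn]
    congr 1
    apply Fin.ext
    simp only
    omega
  have hm := hN (fun j => sn (j + 1) - sn j) (by
    intro j hj
    have := hgap ⟨min j k, by omega⟩ ⟨min (j + 1) k, by omega⟩ (by
      change min j k < min (j + 1) k
      omega)
    simp only [sn]
    omega)
  simp only [Finset.sum_range_tsub hmono] at hm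
  rw [Real.dist_eq]
  have e1 : μ.real (⋂ i ∈ Finset.range (k + 1), (⇑T)^[sn i - sn 0] ⁻¹' A' i)
      = μ.real (⋂ i, (⇑T)^[s n i] ⁻¹' A i) := by
    have e2 : (⇑T)^[sn 0] ⁻¹' (⋂ i ∈ Finset.range (k + 1), (⇑T)^[sn i - sn 0] ⁻¹' A' i)
        = ⋂ i, (⇑T)^[s n i] ⁻¹' A i := by
      rw [iInter_range_eq]
      ext x
      simp only [Set.mem_preimage, Set.mem_iInter]
      refine forall_congr' (fun i => ?_)
      rw [← Function.iterate_add_apply, hAA i]
      have h1 : sn 0 ≤ sn i := hmono (Nat.zero_le _)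
      have h2 : sn i - sn 0 + sn 0 = s n i := by rw [← hsn i]; omega
      rw [h2]
    rw [← e2]
    simp only [Measure.real]
    rw [(iter_mp hT (sn 0)).measure_preimage]
    refine (MeasurableSet.biInter (Finset.countable_toSet _) (fun i _ => ?_)).nullMeasurableSet
    exact (iter_meas T _) (hA' i)
  have e3 : ∏ i ∈ Finset.range (k + 1), μ.real (A' i) = ∏ i, μ.real (A i) := by
    rw [Finset.prod_range]
    exact Finset.prod_congr rfl (fun i _ => by rw [hAA i])
  rw [e1, e3] at hm
  exact hm

theorem mixing_of_factSet {μ : Measure X} [IsProbabilityMeasure μ] {T : X ≃ᵐ X}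
    {k : ℕ} (hk : 1 ≤ k) (h : FactSet μ T (k + 1)) : Mixing μ T := by
  intro A B hA hB
  let C : Fin (k + 1) → Set X := fun i => if (i : ℕ) = 0 then A else if (i : ℕ) = 1 then B
    else Set.univ
  have hC : ∀ i, MeasurableSet (C i) := by
    intro i
    simp only [C]
    split_ifs
    · exact hA
    · exact hB
    · exact MeasurableSet.univ
  have h1 := h (fun n i => n * i) (by
    intro N
    filter_upwards [eventually_ge_atTop N] with n hn
    intro i j hij
    have h2 : (i : ℕ) + 1 ≤ j := hij
    nlinarith) C hC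
  have e1 : ∀ n : ℕ, μ.real (⋂ i : Fin (k + 1), (⇑T)^[n * i] ⁻¹' C i)
      = μ.real (A ∩ (⇑T)^[n] ⁻¹' B) := by
    intro n
    congr 1
    ext x
    simp only [Set.mem_iInter, Set.mem_inter_iff, Set.mem_preimage]
    constructor
    · intro hx
      have h2 := hx ⟨0, by omega⟩
      have h3 := hx ⟨1, by omega⟩
      simp only [C, mul_zero, Function.iterate_zero, id, if_true, mul_one, one_ne_zero,
        if_false] at h2 h3
      exact ⟨h2, h3⟩
    · rintro ⟨hx1, hx2⟩ i
      simp only [C]
      by_cases h0 : (i : ℕ) = 0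
      · simp [h0, hx1]
      · by_cases h1 : (i : ℕ) = 1
        · simp [h1, hx2]
        · simp [h0, h1]
  have e2 : ∏ i, μ.real (C i) = μ.real A * μ.real B := by
    rw [← Finset.mul_prod_erase _ _ (Finset.mem_univ (⟨0, by omega⟩ : Fin (k + 1))),
      ← Finset.mul_prod_erase _ _ (show (⟨1, by omega⟩ : Fin (k + 1)) ∈
        Finset.univ.erase (⟨0, by omega⟩ : Fin (k + 1)) by
          simp only [Finset.mem_erase, Finset.mem_univ, and_true, ne_eq]
          intro h0
          have := congrArg Fin.val h0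
          simp at this)]
    have h3 : ∏ i ∈ (Finset.univ.erase (⟨0, by omega⟩ : Fin (k + 1))).erase ⟨1, by omega⟩,
        μ.real (C i) = 1 := by
      refine Finset.prod_eq_one (fun i hi => ?_)
      simp only [Finset.mem_erase, Finset.mem_univ, and_true] at hi
      have h4 : (i : ℕ) ≠ 0 := fun h => hi.2 (Fin.ext h)
      have h5 : (i : ℕ) ≠ 1 := fun h => hi.1 (Fin.ext h)
      simp only [C]
      rw [if_neg h4, if_neg h5]
      simp
    rw [h3, mul_one]
    simp [C]
  simp only [e1] at h1
  rw [e2] at h1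
  exact h1

/-- Conclusion for all time vectors with large gaps from the conclusion along sequences. -/
theorem forall_of_spread {r : ℕ} (P : (Fin (r + 1) → ℕ) → Prop)
    (hP : ∀ s : ℕ → Fin (r + 1) → ℕ, Spread s → ∀ᶠ n in atTop, P (s n)) :
    ∃ N : ℕ, ∀ m : ℕ → ℕ, (∀ j < r, N ≤ m j) → P (fun i => ∑ j ∈ Finset.range i, m j) := by
  by_contra hcon
  push Not at hcon
  choose m hm1 hm2 using hcon
  have hs : Spread (fun n (i : Fin (r + 1)) => ∑ j ∈ Finset.range i, m n j) := by
    intro N
    filter_upwards [eventually_ge_atTop N] with n hn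
    intro i j hij
    have h1 : ∑ l ∈ Finset.range ((i : ℕ) + 1), m n l ≤ ∑ l ∈ Finset.range j, m n l := by
      apply Finset.sum_le_sum_of_subset
      apply Finset.range_subset_range.2
      exact hij
    rw [Finset.sum_range_succ] at h1
    have h2 : n ≤ m n i := hm1 n i (by have := j.2; have : (i : ℕ) < j := hij; omega)
    omega
  obtain ⟨n, hn⟩ := (hP _ hs).exists
  exact hm2 n hn

end Pool.Agent.H716R2
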