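import Pool.Agent.H716R2.Medial
import Pool.Agent.H716R2.MixK

set_option autoImplicit false
set_option linter.unusedSectionVars false
open MeasureTheory Filter Topology

namespace Pool.Agent.H716R2

variable {X : Type*} [MeasurableSpace X]

/-- The set where the value at the time `b t` is not given by `Φ`. -/
def errSet {K : Type*} {k : ℕ} (T : X ≃ᵐ X) (f : X → K) (t : Fin (k + 2))
    (Φ : (Fin (k + 1) → K) → K) (b : Fin (k + 2) → ℕ) : Set X :=
  {x | f ((⇑T)^[b t] x) ≠ Φ (fun i => f ((⇑T)^[b (t.succAbove i)] x))}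

theorem errSet_meas {K : Type*} [Finite K] [MeasurableSpace K] [DiscreteMeasurableSpace K] {k : ℕ}
    (T : X ≃ᵐ X) {f : X → K} (hf : Measurable f) (t : Fin (k + 2))
    (Φ : (Fin (k + 1) → K) → K) (b : Fin (k + 2) → ℕ) : MeasurableSet (errSet T f t Φ b) := by
  have h1 : Measurable (fun x => (f ((⇑T)^[b t] x),
      Φ (fun i => f ((⇑T)^[b (t.succAbove i)] x)))) := by
    refine (hf.comp (iter_meas T _)).prodMk ?_
    have h2 : Measurable (fun x => (fun i => f ((⇑T)^[b (t.succAbove i)] x))) :=
      measurable_pi_lambda _ (fun i => hf.comp (iter_meas T _))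
    exact (Measurable.of_discrete (f := Φ)).comp h2
  exact h1 (MeasurableSet.of_discrete (s := {q : K × K | q.1 ≠ q.2}))

variable {μ : Measure X} [IsProbabilityMeasure μ]

/-- A finite-valued function all whose values have positive probability and which is
asymptotically determined at one time by its values at `k + 1` other times has one value only. -/
theorem determ_core {k : ℕ} (hk : 1 ≤ k) {T : X ≃ᵐ X} (hT : MeasurePreserving T μ μ)
    (hmix : Mixing μ T) (hfact : FactSet μ T (k + 1)) {K : Type*} [Fintype K] [MeasurableSpace K]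
    [DiscreteMeasurableSpace K] {f : X → K} (hf : Measurable f)
    (hpos : ∀ c, 0 < μ.real (f ⁻¹' {c})) (t : Fin (k + 2)) (Φ : (Fin (k + 1) → K) → K)
    (hrel : ∀ (N : ℕ) (δ : ℝ), 0 < δ → ∃ b : Fin (k + 2) → ℕ, (∀ i j, i < j → b i + N ≤ b j) ∧
      μ.real (errSet T f t Φ b) ≤ δ) (c c' : K) : c = c' := by
  classical
  choose b hb1 hb2 using fun (N : ℕ) => hrel N (1 / ((N : ℝ) + 1)) (by positivity)
  have hs : Spread b := by
    intro N
    filter_upwards [eventually_ge_atTop N] with n hn
    intro i j hij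
    have := hb1 n i j hij
    omega
  have herr : Tendsto (fun n => μ.real (errSet T f t Φ (b n))) atTop (𝓝 0) :=
    squeeze_zero (fun n => measureReal_nonneg) hb2 tendsto_one_div_add_atTop_nhds_zero_nat
  have hfib : ∀ c, MeasurableSet (f ⁻¹' {c}) := fun c => hf (MeasurableSet.of_discrete)
  -- the quasigroup property
  have hq : Quasi Φ := by
    intro v j
    rw [← Finite.surjective_iff_bijective]
    intro z
    by_contra hcon
    push Not at hcon
    let w : Fin (k + 2) → K := t.insertNth (α := fun _ => K) z v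
    let a : Fin (k + 2) := t.succAbove j
    have h1 := hfact _ (hs.succAbove a) (fun i => f ⁻¹' {w (a.succAbove i)}) (fun i => hfib _)
    have h2 : 0 < ∏ i, μ.real (f ⁻¹' {w (a.succAbove i)}) := Finset.prod_pos (fun i _ => hpos _)
    have h3 : ∏ i, μ.real (f ⁻¹' {w (a.succAbove i)}) ≤ 0 := by
      refine le_of_tendsto_of_tendsto' h1 herr (fun n => ?_)
      refine measureReal_mono ?_ (measure_ne_top μ _)
      intro x hx
      rw [Set.mem_iInter] at hx
      have hxl : ∀ l, l ≠ a → f ((⇑T)^[b n l] x) = w l := by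
        intro l hl
        obtain ⟨i, rfl⟩ := Fin.exists_succAbove_eq hl
        exact hx i
      have hxt : f ((⇑T)^[b n t] x) = z := by
        rw [hxl t (Fin.ne_succAbove t j)]
        exact Fin.insertNth_apply_same (α := fun _ => K) t z v
      have hxi : ∀ i, i ≠ j → f ((⇑T)^[b n (t.succAbove i)] x) = v i := by
        intro i hi
        rw [hxl _ (fun h => hi (Fin.succAbove_right_injective h))]
        exact Fin.insertNth_apply_succAbove (α := fun _ => K) t z v i
      change f ((⇑T)^[b n t] x) ≠ Φ (fun i => f ((⇑T)^[b n (t.succAbove i)] x))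
      have h4 : (fun i => f ((⇑T)^[b n (t.succAbove i)] x))
          = Function.update v j (f ((⇑T)^[b n (t.succAbove j)] x)) := by
        funext i
        by_cases hi : i = j
        · subst hi; simp
        · rw [Function.update_of_ne hi, hxi i hi]
      rw [hxt, h4]
      exact (hcon _).symm
    linarith
  -- the medial law
  have hm : MedialLaw Φ := by
    intro A
    let ρ : ℝ := ∏ i' : Fin (k + 1), ∏ i : Fin (k + 1), μ.real (f ⁻¹' {A i i'})
    have hρ : 0 < ρ := Finset.prod_pos (fun _ _ => Finset.prod_pos (fun _ _ => hpos _))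
    let C : ℕ → Fin (k + 1) → Set X := fun n i' =>
      ⋂ i, (⇑T)^[b n (t.succAbove i)] ⁻¹' (f ⁻¹' {A i i'})
    have hCm : ∀ n i', MeasurableSet (C n i') := fun n i' =>
      MeasurableSet.iInter (fun i => (iter_meas T _) (hfib _))
    have hC1 : Tendsto (fun n => ∏ i', μ.real (C n i')) atTop (𝓝 ρ) := by
      refine tendsto_finsetProd _ (fun i' _ => ?_)
      exact hfact _ (hs.succAbove t) (fun i => f ⁻¹' {A i i'}) (fun i => hfib _)
    have hk2 : (0 : ℝ) < (k : ℝ) + 2 := by positivity
    have herr2 : ∀ᶠ n in atTop, μ.real (errSet T f t Φ (b n)) < ρ / (8 * ((k : ℝ) + 2)) :=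
      herr.eventually_lt_const (by positivity)
    obtain ⟨n, hn1, hn2⟩ := ((hC1.eventually_const_lt (show ρ / 2 < ρ by linarith)).and
      herr2).exists
    have hC2 := hfact _ (hs.succAbove t) (C n) (hCm n)
    obtain ⟨m, hm1, hm2⟩ := ((hC2.eventually_const_lt hn1).and herr2).exists
    -- a point in the corner with all relations
    let E : Set X := (⋃ l : Fin (k + 2), (⇑T)^[b n l] ⁻¹' errSet T f t Φ (b m)) ∪
      (⋃ l : Fin (k + 2), (⇑T)^[b m l] ⁻¹' errSet T f t Φ (b n))
    have hE : μ.real E < ρ / 2 := by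
      have h1 : ∀ n m : ℕ, μ.real (errSet T f t Φ (b m)) < ρ / (8 * ((k : ℝ) + 2)) →
          μ.real (⋃ l : Fin (k + 2), (⇑T)^[b n l] ⁻¹' errSet T f t Φ (b m)) ≤ ρ / 8 := by
        intro n m h
        refine (measureReal_iUnion_fintype_le _).trans ?_
        have h2 : ∀ l ∈ (Finset.univ : Finset (Fin (k + 2))),
            μ.real ((⇑T)^[b n l] ⁻¹' errSet T f t Φ (b m)) ≤ ρ / (8 * ((k : ℝ) + 2)) := by
          intro l _
          have h5 : μ.real ((⇑T)^[b n l] ⁻¹' errSet T f t Φ (b m))
              = μ.real (errSet T f t Φ (b m)) := by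
            simp only [Measure.real]
            rw [(iter_mp hT _).measure_preimage (errSet_meas T hf t Φ (b m)).nullMeasurableSet]
          rw [h5]
          exact h.le
        refine (Finset.sum_le_sum h2).trans (le_of_eq ?_)
        simp only [Finset.sum_const, Finset.card_univ, Fintype.card_fin, nsmul_eq_mul]
        push_cast
        field_simp
      have h3 := h1 n m hm2
      have h4 := h1 m n hn2
      have h5 : μ.real E ≤ _ := measureReal_union_le _ _
      linarith
    have hex : ∃ x, x ∈ (⋂ i', (⇑T)^[b m (t.succAbove i')] ⁻¹' C n i') ∧ x ∉ E := by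
      by_contra hcon
      push Not at hcon
      have h1 : μ.real (⋂ i', (⇑T)^[b m (t.succAbove i')] ⁻¹' C n i') ≤ μ.real E :=
        measureReal_mono (fun x hx => hcon x hx) (measure_ne_top μ _)
      linarith
    obtain ⟨x, hx1, hx2⟩ := hex
    have hcorner : ∀ i i', f ((⇑T)^[b n (t.succAbove i)] ((⇑T)^[b m (t.succAbove i')] x))
        = A i i' := by
      intro i i'
      rw [Set.mem_iInter] at hx1
      have h1 := hx1 i'
      rw [Set.mem_preimage, Set.mem_iInter] at h1
      exact h1 i
    simp only [E, Set.mem_union, Set.mem_iUnion, Set.mem_preimage, not_or, not_exists] at hx2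
    have hr1 : ∀ l, f ((⇑T)^[b m t] ((⇑T)^[b n l] x))
        = Φ (fun i' => f ((⇑T)^[b m (t.succAbove i')] ((⇑T)^[b n l] x))) := by
      intro l
      have := hx2.1 l
      simp only [errSet, Set.mem_ofPred_eq, not_not] at this
      exact this
    have hr2 : ∀ l, f ((⇑T)^[b n t] ((⇑T)^[b m l] x))
        = Φ (fun i => f ((⇑T)^[b n (t.succAbove i)] ((⇑T)^[b m l] x))) := by
      intro l
      have := hx2.2 l
      simp only [errSet, Set.mem_ofPred_eq, not_not] at this
      exact this
    have hsw : ∀ u v : ℕ, (⇑T)^[u] ((⇑T)^[v] x) = (⇑T)^[v] ((⇑T)^[u] x) := by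
      intro u v
      rw [← Function.iterate_add_apply, ← Function.iterate_add_apply, add_comm]
    have e1 : f ((⇑T)^[b n t] ((⇑T)^[b m t] x)) = Φ (fun i => Φ (A i)) := by
      rw [hr2 t]
      congr 1
      funext i
      rw [hsw, hr1]
      congr 1
      funext i'
      rw [hsw]
      exact hcorner i i'
    have e2 : f ((⇑T)^[b n t] ((⇑T)^[b m t] x)) = Φ (fun i' => Φ (fun i => A i i')) := by
      rw [hsw, hr1 t]
      congr 1
      funext i'
      rw [hsw, hr2]
      congr 1
      funext i
      exact hcorner i i'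
    rw [← e1, e2]
  -- the group structure
  obtain ⟨G, u, hu⟩ := medial_group (by omega : 2 ≤ k + 1) hq hm c
  let F : Fin (k + 2) → X → K := t.insertNth (α := fun _ => X → K) (fun x => - f x)
    (fun i x => u i (f x))
  have hFt : F t = fun x => - f x := Fin.insertNth_apply_same t _ _
  have hFi : ∀ i, F (t.succAbove i) = fun x => u i (f x) := fun i =>
    Fin.insertNth_apply_succAbove t _ _ i
  have hFm : ∀ l, Measurable (F l) := by
    intro l
    by_cases hl : l = t
    · subst hl
      rw [hFt]
      exact (Measurable.of_discrete (f := fun g : K => - g)).comp hf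
    · obtain ⟨i, rfl⟩ := Fin.exists_succAbove_eq hl
      rw [hFi]
      exact (Measurable.of_discrete (f := u i)).comp hf
  have hrelF : ∀ b : Fin (k + 2) → ℕ, {x | relSum T F b x ≠ 0} = errSet T f t Φ b := by
    intro b
    ext x
    simp only [Set.mem_ofPred_eq, errSet, relSum]
    rw [Fin.sum_univ_succAbove _ t, hFt, hu]
    simp only [hFi]
    rw [ne_eq, ne_eq, not_iff_not]
    constructor
    · intro h
      exact (neg_add_eq_zero.1 h)
    · intro h
      exact (neg_add_eq_zero.2 h)
  obtain ⟨pm, hpm0, hpm⟩ : ∃ pm : ℝ, 0 < pm ∧ ∀ c, pm ≤ μ.real (f ⁻¹' {c}) := by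
    obtain ⟨c1, -, hc1⟩ := Finset.exists_min_image Finset.univ (fun c => μ.real (f ⁻¹' {c}))
      ⟨c, Finset.mem_univ c⟩
    exact ⟨_, hpos c1, fun c => hc1 c (Finset.mem_univ c)⟩
  set R : ℝ := ((k + 2).factorial : ℝ) with hR
  have hR1 : 1 ≤ R := by
    rw [hR]; exact_mod_cast Nat.succ_le_of_lt (Nat.factorial_pos _)
  have hpm1 : pm ≤ 1 := (hpm c).trans measureReal_le_one
  obtain ⟨g0, hg0⟩ := relation_trivial hT hmix hFm (pm / (4 * R ^ 3)) (by
    rw [← hR]
    have h1 : 2 * R ^ 3 * (pm / (4 * R ^ 3)) = pm / 2 := by field_simp; norm_num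
    rw [h1]
    linarith) (by
    intro N
    obtain ⟨b', h1, h2⟩ := hrel N (pm / (4 * R ^ 3)) (by positivity)
    exact ⟨b', h1, by rw [hrelF]; exact h2⟩) t
  rw [← hR] at hg0
  have hall : ∀ c : K, -c = g0 := by
    intro c
    by_contra hne
    have h1 : f ⁻¹' {c} ⊆ {x | F t x ≠ g0} := by
      intro x hx
      rw [Set.mem_preimage, Set.mem_singleton_iff] at hx
      rw [Set.mem_ofPred_eq, hFt]
      change - f x ≠ g0
      rw [hx]
      exact hne
    have h2 := (hpm c).trans (measureReal_mono h1 (measure_ne_top μ _))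
    have h3 : 2 * R ^ 2 * (pm / (4 * R ^ 3)) = pm / (2 * R) := by field_simp; norm_num
    rw [h3] at hg0
    have h4 : pm / (2 * R) < pm := by
      rw [div_lt_iff₀ (by positivity)]
      nlinarith
    linarith
  have h1 := hall c
  have h2 := hall c'
  exact neg_injective (h1.trans h2.symm)

end Pool.Agent.H716R2
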