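import Pool.Agent.H716R2.Determ

set_option autoImplicit false
set_option linter.unusedSectionVars false
open MeasureTheory Filter Topology

namespace Pool.Agent.H716R2

variable {X : Type*} [MeasurableSpace X]

/-- A finite-valued function which is asymptotically determined at one of `k + 2` spread out times
by its values at the other times is constant, if the transformation is mixing of multiplicity
`k`. -/
theorem determ_const {k : ℕ} (hk : 1 ≤ k) {μ : Measure X} [IsProbabilityMeasure μ] {T : X ≃ᵐ X}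
    (hT : MeasurePreserving T μ μ)
    (hmix : Mixing μ T) (hfact : FactSet μ T (k + 1)) {K : Type*} [Finite K] [MeasurableSpace K]
    [DiscreteMeasurableSpace K] {f : X → K} (hf : Measurable f)
    (hrel : ∀ (N : ℕ) (δ : ℝ), 0 < δ → ∃ b : Fin (k + 2) → ℕ, (∀ i j, i < j → b i + N ≤ b j) ∧
      ∃ (t : Fin (k + 2)) (Φ : (Fin (k + 1) → K) → K), μ.real (errSet T f t Φ b) ≤ δ) :
    ∃ c : K, ∀ᵐ x ∂μ, f x = c := by
  classical
  haveI : Fintype K := Fintype.ofFinite K
  -- a fixed relation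
  obtain ⟨t, Φ, hΦ⟩ : ∃ (t : Fin (k + 2)) (Φ : (Fin (k + 1) → K) → K), ∀ (N : ℕ) (δ : ℝ), 0 < δ →
      ∃ b : Fin (k + 2) → ℕ, (∀ i j, i < j → b i + N ≤ b j) ∧
      μ.real (errSet T f t Φ b) ≤ δ := by
    choose b hb t Φ hΦ using fun (N : ℕ) => hrel N (1 / ((N : ℝ) + 1)) (by positivity)
    obtain ⟨⟨t0, Φ0⟩, hinf⟩ := Finite.exists_infinite_fiber (fun N : ℕ => (t N, Φ N))
    refine ⟨t0, Φ0, fun N δ hδ => ?_⟩
    have hfreq : ∃ᶠ n in atTop, (t n, Φ n) = (t0, Φ0) := by
      rw [Nat.frequently_atTop_iff_infinite]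
      exact Set.infinite_coe_iff.1 hinf
    have hsmall : ∀ᶠ n : ℕ in atTop, 1 / ((n : ℝ) + 1) < δ :=
      tendsto_one_div_add_atTop_nhds_zero_nat.eventually_lt_const hδ
    obtain ⟨n, hn1, hn2, hn3⟩ := (hfreq.and_eventually
      (hsmall.and (eventually_ge_atTop N))).exists
    refine ⟨b n, fun i j hij => ?_, ?_⟩
    · have := hb n i j hij
      omega
    · have h1 : t n = t0 := congrArg Prod.fst hn1
      have h2 : Φ n = Φ0 := congrArg Prod.snd hn1
      have h3 := hΦ n
      rw [h1, h2] at h3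
      exact h3.trans hn2.le
  have hfib : ∀ c, MeasurableSet (f ⁻¹' {c}) := fun c => hf (MeasurableSet.of_discrete)
  -- the values of positive probability
  let K' := {c : K // 0 < μ.real (f ⁻¹' {c})}
  have hsum : ∑ c : K, μ.real (f ⁻¹' {c}) = 1 := by
    rw [← measureReal_biUnion_finset]
    · have : (⋃ c ∈ (Finset.univ : Finset K), f ⁻¹' {c}) = Set.univ := by
        ext x; simp
      rw [this]; simp
    · intro w _ w' _ hww'
      apply Set.disjoint_left.2
      intro x h1 h2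
      apply hww'
      simp only [Set.mem_preimage, Set.mem_singleton_iff] at h1 h2
      rw [← h1, ← h2]
    · intro w _
      exact hfib w
  obtain ⟨c0, -, hc0⟩ : ∃ c ∈ (Finset.univ : Finset K), μ.real (f ⁻¹' {c}) ≠ 0 := by
    apply Finset.exists_ne_zero_of_sum_ne_zero
    rw [hsum]; norm_num
  let d0 : K' := ⟨c0, lt_of_le_of_ne measureReal_nonneg (Ne.symm hc0)⟩
  let pr : K → K' := fun c => if h : 0 < μ.real (f ⁻¹' {c}) then ⟨c, h⟩ else d0
  have hpr : ∀ c, 0 < μ.real (f ⁻¹' {c}) → (pr c : K) = c := by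
    intro c hc
    simp only [pr, dif_pos hc]
  have hprv : ∀ c : K', pr c = c := by
    intro c
    apply Subtype.ext
    exact hpr c c.2
  let f' : X → K' := fun x => pr (f x)
  let _ : MeasurableSpace K' := ⊤
  have _ : DiscreteMeasurableSpace K' := ⟨fun _ => trivial⟩
  have hf' : Measurable f' := (Measurable.of_discrete (f := pr)).comp hf
  have hae : ∀ᵐ x ∂μ, 0 < μ.real (f ⁻¹' {f x}) := by
    have h1 : ∀ c : K, ∀ᵐ x ∂μ, f x = c → 0 < μ.real (f ⁻¹' {c}) := by
      intro c
      by_cases hc : 0 < μ.real (f ⁻¹' {c})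
      · exact Eventually.of_forall (fun x _ => hc)
      · have h2 : μ.real (f ⁻¹' {c}) = 0 := le_antisymm (not_lt.1 hc) measureReal_nonneg
        have h3 : μ (f ⁻¹' {c}) = 0 := (measureReal_eq_zero_iff (measure_ne_top μ _)).1 h2
        have h4 : ∀ᵐ x ∂μ, x ∉ f ⁻¹' {c} := measure_eq_zero_iff_ae_notMem.1 h3
        filter_upwards [h4] with x hx hfx
        exact absurd hfx hx
    have h5 : ∀ᵐ x ∂μ, ∀ c : K, f x = c → 0 < μ.real (f ⁻¹' {c}) := by
      rw [ae_all_iff]
      exact h1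
    filter_upwards [h5] with x hx
    exact hx _ rfl
  have hff' : ∀ᵐ x ∂μ, (f' x : K) = f x := by
    filter_upwards [hae] with x hx
    exact hpr _ hx
  have hposK' : ∀ c : K', 0 < μ.real (f' ⁻¹' {c}) := by
    intro c
    have h1 : f ⁻¹' {(c : K)} ⊆ f' ⁻¹' {c} := by
      intro x hx
      rw [Set.mem_preimage, Set.mem_singleton_iff] at hx ⊢
      simp only [f']
      rw [hx]
      exact hprv c
    exact lt_of_lt_of_le c.2 (measureReal_mono h1 (measure_ne_top μ _))
  let Φ' : (Fin (k + 1) → K') → K' := fun v => pr (Φ (fun i => (v i : K)))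
  have hrel' : ∀ (N : ℕ) (δ : ℝ), 0 < δ → ∃ b : Fin (k + 2) → ℕ,
      (∀ i j, i < j → b i + N ≤ b j) ∧ μ.real (errSet T f' t Φ' b) ≤ δ := by
    intro N δ hδ
    obtain ⟨b, hb1, hb2⟩ := hΦ N δ hδ
    refine ⟨b, hb1, ?_⟩
    have h1 : ∀ᵐ x ∂μ, ∀ l : ℕ, (f' ((⇑T)^[l] x) : K) = f ((⇑T)^[l] x) := by
      rw [ae_all_iff]
      intro l
      exact (iter_mp hT l).quasiMeasurePreserving.ae hff'
    have h2 : errSet T f' t Φ' b ≤ᵐ[μ] errSet T f t Φ b := by
      filter_upwards [h1] with x hx hx2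
      change f ((⇑T)^[b t] x) ≠ Φ (fun i => f ((⇑T)^[b (t.succAbove i)] x))
      intro h3
      apply hx2
      apply Subtype.ext
      simp only [Φ', hx]
      rw [← h3, ← hx (b t)]
      rw [hprv]
    have h3 : μ.real (errSet T f' t Φ' b) ≤ μ.real (errSet T f t Φ b) := by
      simp only [Measure.real]
      exact ENNReal.toReal_mono (measure_ne_top μ _) (measure_mono_ae h2)
    exact h3.trans hb2
  haveI : Fintype K' := Fintype.ofFinite K'
  have hconst := determ_core hk hT hmix hfact hf' hposK' t Φ' hrel'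
  refine ⟨c0, ?_⟩
  filter_upwards [hff'] with x hx
  rw [← hx, hconst (f' x) d0]

end Pool.Agent.H716R2
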