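import Pool.Agent.H716R2.Core

set_option autoImplicit false
set_option linter.unusedSectionVars false
open MeasureTheory Filter Topology

namespace Pool.Agent.H716R2

variable {X : Type*} [MeasurableSpace X]
variable {G : Type*} [AddCommGroup G] [Finite G] [MeasurableSpace G] [DiscreteMeasurableSpace G]

/-- The value at `x` of the relation with lag vector `b`. -/
def relSum {r : ℕ} (T : X ≃ᵐ X) (f : Fin r → X → G) (b : Fin r → ℕ) (x : X) : G :=
  ∑ i, f i ((⇑T)^[b i] x)

/-- position of the permutation `π` with the target coordinate `t` left out -/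
def posE {r : ℕ} (B : Fin r → Fin r → ℕ) (t : Fin r) (π : Equiv.Perm (Fin r)) : ℕ :=
  ∑ j ∈ Finset.univ.erase t, B (π j) j

/-- full position of the permutation `π` -/
def posP {r : ℕ} (B : Fin r → Fin r → ℕ) (π : Equiv.Perm (Fin r)) : ℕ := ∑ j, B (π j) j

theorem posE_swap {r : ℕ} (B : Fin r → Fin r → ℕ) (t i : Fin r) (hi : i ≠ t)
    (π : Equiv.Perm (Fin r)) :
    posE B t (π * Equiv.swap i t) + B ((π * Equiv.swap i t) t) i = posE B t π + B (π t) i := by
  unfold posE
  have hit : i ∈ Finset.univ.erase t := by simp [hi]
  rw [← Finset.add_sum_erase _ _ hit, ← Finset.add_sum_erase _ _ hit]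
  have h1 : ∑ x ∈ (Finset.univ.erase t).erase i, B ((π * Equiv.swap i t) x) x
      = ∑ x ∈ (Finset.univ.erase t).erase i, B (π x) x := by
    refine Finset.sum_congr rfl (fun x hx => ?_)
    simp only [Finset.mem_erase, Finset.mem_univ, and_true] at hx
    rw [Equiv.Perm.mul_apply, Equiv.swap_apply_of_ne_of_ne hx.1 hx.2]
  rw [h1]
  simp only [Equiv.Perm.mul_apply, Equiv.swap_apply_left, Equiv.swap_apply_right]
  ring

omit [Finite G] [MeasurableSpace G] [DiscreteMeasurableSpace G] in
/-- The determinant identity eliminating all functions except `f t`. -/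
theorem det_identity {r : ℕ} (T : X ≃ᵐ X) (f : Fin r → X → G) (B : Fin r → Fin r → ℕ)
    (t : Fin r) (x : X) :
    ∑ π : Equiv.Perm (Fin r), ((Equiv.Perm.sign π : ℤˣ) : ℤ) •
        relSum T f (B (π t)) ((⇑T)^[posE B t π] x)
      = ∑ π : Equiv.Perm (Fin r), ((Equiv.Perm.sign π : ℤˣ) : ℤ) • f t ((⇑T)^[posP B π] x) := by
  simp only [relSum, Finset.smul_sum]
  rw [Finset.sum_comm]
  rw [← Finset.add_sum_erase _ _ (Finset.mem_univ t)]
  have h1 : ∑ i ∈ Finset.univ.erase t, ∑ π : Equiv.Perm (Fin r),
      ((Equiv.Perm.sign π : ℤˣ) : ℤ) • f i ((⇑T)^[B (π t) i] ((⇑T)^[posE B t π] x)) = 0 := by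
    refine Finset.sum_eq_zero (fun i hi => ?_)
    simp only [Finset.mem_erase, Finset.mem_univ, and_true] at hi
    refine Finset.sum_involution (fun π _ => π * Equiv.swap i t) ?_ ?_ ?_ ?_
    · intro π _
      rw [← Function.iterate_add_apply, ← Function.iterate_add_apply]
      have h2 := posE_swap B t i hi π
      rw [add_comm (B (π t) i), ← h2, add_comm (posE B t (π * Equiv.swap i t))]
      rw [Equiv.Perm.sign_mul, Equiv.Perm.sign_swap hi]
      simp
    · intro π _ _ h
      have h3 : Equiv.swap i t = 1 := by
        have := congrArg (fun σ => π⁻¹ * σ) h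
        simpa using this
      exact hi (Equiv.swap_eq_one_iff.1 h3)
    · intro π _
      exact Finset.mem_univ _
    · intro π _
      simp [mul_assoc]
  rw [h1, add_zero]
  refine Finset.sum_congr rfl (fun π _ => ?_)
  congr 1
  rw [← Function.iterate_add_apply]
  congr 2
  unfold posE posP
  rw [← Finset.add_sum_erase _ _ (Finset.mem_univ t)]

/-- Growth of the lag vectors guarantees that the identity permutation has by far the largest
position. -/
theorem posP_lt {r : ℕ} (B : Fin r → Fin r → ℕ) (N : ℕ) (S : Fin r → ℕ)
    (hS : ∀ l l' j, l' < l → B l' j ≤ S l)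
    (hB : ∀ l i j, i < j → B l i + (N + r * S l) ≤ B l j)
    (π : Equiv.Perm (Fin r)) (hπ : π ≠ 1) : posP B π + N ≤ posP B 1 := by
  classical
  -- the largest moved index
  have hne : (Finset.univ.filter (fun j => π j ≠ j)).Nonempty := by
    by_contra h
    apply hπ
    ext j
    have : j ∉ Finset.univ.filter (fun j => π j ≠ j) := by
      rw [Finset.not_nonempty_iff_eq_empty] at h
      rw [h]; simp
    simp only [Finset.mem_filter, Finset.mem_univ, true_and, not_not] at this
    simp [this]
  obtain ⟨l, hl, hmax⟩ := Finset.exists_max_image _ (fun j => j) hne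
  simp only [Finset.mem_filter, Finset.mem_univ, true_and] at hl hmax
  have hfix : ∀ j, l < j → π j = j := by
    intro j hj
    by_contra h
    exact absurd (hmax j h) (not_le.2 hj)
  have hle : ∀ j, j ≤ l → π j ≤ l := by
    intro j hj
    by_contra h
    push Not at h
    have h2 := hfix _ h
    have h3 : π j = j := π.injective h2
    rw [h3] at h
    exact absurd hj (not_le.2 h)
  -- the preimage of l
  set i := π.symm l with hi
  have hπi : π i = l := by simp [hi]
  have hil : i < l := by
    rcases lt_trichotomy i l with h | h | h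
    · exact h
    · exfalso; apply hl; rw [← h]; rw [hπi]; exact h.symm
    · exfalso
      have := hfix i h
      rw [hπi] at this
      exact absurd this (ne_of_lt h)
  -- compare the sums
  have hterm : ∀ j, j ≠ i → B (π j) j ≤ (if j = l then 0 else B j j) + S l := by
    intro j hji
    by_cases hjl : l < j
    · rw [hfix j hjl, if_neg (ne_of_gt hjl)]
      exact Nat.le_add_right _ _
    · push Not at hjl
      have h1 : π j ≤ l := hle j hjl
      have h2 : π j ≠ l := by
        intro h
        apply hji
        apply π.injective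
        rw [h, hπi]
      have h3 := hS l (π j) j (lt_of_le_of_ne h1 h2)
      omega
  have hsum1 : posP B π = B (π i) i + ∑ j ∈ Finset.univ.erase i, B (π j) j := by
    unfold posP
    rw [← Finset.add_sum_erase _ _ (Finset.mem_univ i)]
  have hsum2 : ∑ j ∈ Finset.univ.erase i, B (π j) j
      ≤ ∑ j ∈ Finset.univ.erase i, ((if j = l then 0 else B j j) + S l) := by
    refine Finset.sum_le_sum (fun j hj => ?_)
    simp only [Finset.mem_erase, Finset.mem_univ, and_true] at hj
    exact hterm j hj
  have hsum3 : ∑ j ∈ Finset.univ.erase i, ((if j = l then 0 else B j j) + S l)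
      ≤ ∑ j, (if j = l then 0 else B j j) + r * S l := by
    rw [Finset.sum_add_distrib]
    refine Nat.add_le_add ?_ ?_
    · exact Finset.sum_le_sum_of_subset (Finset.erase_subset _ _)
    · simp only [Finset.sum_const, smul_eq_mul]
      refine Nat.mul_le_mul_right _ ?_
      calc (Finset.univ.erase i).card ≤ (Finset.univ : Finset (Fin r)).card :=
            Finset.card_le_card (Finset.erase_subset _ _)
        _ = r := by simp
  have hsum4 : posP B 1 = B l l + ∑ j, (if j = l then 0 else B j j) := by
    unfold posP
    rw [← Finset.add_sum_erase _ _ (Finset.mem_univ l)]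
    rw [← Finset.add_sum_erase Finset.univ (fun j => if j = l then 0 else B j j) (Finset.mem_univ l)]
    simp only [Equiv.Perm.coe_one, id, if_true, zero_add]
    congr 1
    refine Finset.sum_congr rfl (fun j hj => ?_)
    simp only [Finset.mem_erase, Finset.mem_univ, and_true] at hj
    rw [if_neg hj]
  have hgap := hB l i l hil
  rw [hπi] at hsum1
  omega

end Pool.Agent.H716R2
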