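import Pool.Agent.H716R2.Mix

set_option autoImplicit false
set_option linter.unusedSectionVars false
open MeasureTheory Filter Topology

namespace Pool.Agent.H716R2

variable {X : Type*} [MeasurableSpace X]

/-- Time vectors whose gaps tend to infinity. -/
def Spread {r : ℕ} (s : ℕ → Fin r → ℕ) : Prop :=
  ∀ N : ℕ, ∀ᶠ n in atTop, ∀ i j, i < j → s n i + N ≤ s n j

/-- Asymptotic independence of `r` sets along spread out times. -/
def FactSet (μ : Measure X) (T : X ≃ᵐ X) (r : ℕ) : Prop :=
  ∀ s : ℕ → Fin r → ℕ, Spread s → ∀ A : Fin r → Set X, (∀ i, MeasurableSet (A i)) →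
    Tendsto (fun n => μ.real (⋂ i, (⇑T)^[s n i] ⁻¹' A i)) atTop (𝓝 (∏ i, μ.real (A i)))

variable {𝕜 : Type*} [RCLike 𝕜]

theorem prod_indicator_eq {r : ℕ} (T : X ≃ᵐ X) (s : Fin r → ℕ) (A : Fin r → Set X) (x : X) :
    ∏ i, (A i).indicator (fun _ => (1 : 𝕜)) ((⇑T)^[s i] x)
      = (⋂ i, (⇑T)^[s i] ⁻¹' A i).indicator (fun _ => (1 : 𝕜)) x := by
  classical
  by_cases hx : x ∈ ⋂ i, (⇑T)^[s i] ⁻¹' A i
  · rw [Set.indicator_of_mem hx]
    refine Finset.prod_eq_one (fun i _ => ?_)
    rw [Set.mem_iInter] at hx
    have hi : (⇑T)^[s i] x ∈ A i := hx i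
    rw [Set.indicator_of_mem hi]
  · rw [Set.indicator_of_notMem hx]
    rw [Set.mem_iInter, not_forall] at hx
    obtain ⟨i, hi⟩ := hx
    refine Finset.prod_eq_zero (Finset.mem_univ i) ?_
    have hi' : (⇑T)^[s i] x ∉ A i := hi
    rw [Set.indicator_of_notMem hi']

theorem prod_bound {r : ℕ} {g : Fin r → X → 𝕜} {C : ℝ} (hC : 1 ≤ C) (hb : ∀ i x, ‖g i x‖ ≤ C)
    (S : Finset (Fin r)) (y : Fin r → X) : ‖∏ i ∈ S, g i (y i)‖ ≤ C ^ r := by
  rw [norm_prod]
  refine (Finset.prod_le_prod (fun i _ => norm_nonneg _) (fun i _ => hb i (y i))).trans ?_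
  rw [Finset.prod_const]
  refine pow_le_pow_right₀ hC ?_
  calc S.card ≤ (Finset.univ : Finset (Fin r)).card := Finset.card_le_card (Finset.subset_univ _)
    _ = r := by simp

theorem prod_comp_meas {r : ℕ} (T : X ≃ᵐ X) {g : Fin r → X → 𝕜} (hg : ∀ i, Measurable (g i))
    (S : Finset (Fin r)) (s : Fin r → ℕ) : Measurable (fun x => ∏ i ∈ S, g i ((⇑T)^[s i] x)) :=
  Finset.measurable_prod _ (fun i _ => (hg i).comp (iter_meas T (s i)))

/-- Asymptotic independence of bounded functions along spread out times. -/
theorem fact_fun {μ : Measure X} [IsProbabilityMeasure μ] {T : X ≃ᵐ X}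
    (hT : MeasurePreserving T μ μ) {r : ℕ} (hfact : FactSet μ T r) {s : ℕ → Fin r → ℕ}
    (hs : Spread s) (g : Fin r → X → 𝕜) (hg : ∀ i, Measurable (g i))
    (hb : ∀ i, ∃ C : ℝ, ∀ x, ‖g i x‖ ≤ C) :
    Tendsto (fun n => ∫ x, ∏ i, g i ((⇑T)^[s n i] x) ∂μ) atTop (𝓝 (∏ i, ∫ x, g i x ∂μ)) := by
  classical
  -- claim: true when the functions outside `S` are indicators
  have key : ∀ S : Finset (Fin r), ∀ g : Fin r → X → 𝕜, (∀ i, Measurable (g i)) →
      (∀ i, ∃ C : ℝ, ∀ x, ‖g i x‖ ≤ C) →
      (∀ i, i ∉ S → ∃ A : Set X, MeasurableSet A ∧ g i = A.indicator (fun _ => (1 : 𝕜))) →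
      Tendsto (fun n => ∫ x, ∏ i, g i ((⇑T)^[s n i] x) ∂μ) atTop (𝓝 (∏ i, ∫ x, g i x ∂μ)) := by
    intro S
    induction S using Finset.induction_on with
    | empty =>
      intro g hg hb hS
      choose A hA1 hA2 using fun i => hS i (by simp)
      have h1 := hfact s hs A hA1
      have e1 : ∀ n, ∫ x, ∏ i, g i ((⇑T)^[s n i] x) ∂μ
          = ((μ.real (⋂ i, (⇑T)^[s n i] ⁻¹' A i) : ℝ) : 𝕜) := by
        intro n
        simp only [hA2, prod_indicator_eq]
        rw [integral_indicator (MeasurableSet.iInter (fun i => (iter_meas T (s n i)) (hA1 i)))]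
        simp [RCLike.real_smul_eq_coe_mul]
      have e2 : ∏ i, ∫ x, g i x ∂μ = ((∏ i, μ.real (A i) : ℝ) : 𝕜) := by
        rw [RCLike.ofReal_prod]
        refine Finset.prod_congr rfl (fun i _ => ?_)
        rw [hA2 i, integral_indicator (hA1 i)]
        simp [RCLike.real_smul_eq_coe_mul]
      simp only [e1, e2]
      exact (RCLike.continuous_ofReal.tendsto _).comp h1
    | insert a S haS ih =>
      intro g hg hb hS
      have hbC : ∃ C : ℝ, 1 ≤ C ∧ ∀ i x, ‖g i x‖ ≤ C := by
        choose C hC using hb
        refine ⟨1 + ∑ i, |C i|, ?_, fun i x => ?_⟩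
        · have : 0 ≤ ∑ i, |C i| := Finset.sum_nonneg (fun i _ => abs_nonneg _)
          linarith
        · have h1 : |C i| ≤ ∑ i, |C i| :=
            Finset.single_le_sum (f := fun i => |C i|) (fun i _ => abs_nonneg _) (Finset.mem_univ i)
          have h2 := hC i x
          have h3 := le_abs_self (C i)
          linarith
      obtain ⟨C, hC1, hC⟩ := hbC
      set D : ℝ := C ^ r with hD
      have hD1 : 1 ≤ D := one_le_pow₀ hC1
      let P : ℕ → X → 𝕜 := fun n x => ∏ i ∈ Finset.univ.erase a, g i ((⇑T)^[s n i] x)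
      have hPm : ∀ n, Measurable (P n) := fun n => prod_comp_meas T hg _ (s n)
      have hPb : ∀ n x, ‖P n x‖ ≤ D := fun n x =>
        prod_bound hC1 hC _ (fun i => (⇑T)^[s n i] x)
      let Q : 𝕜 := ∏ i ∈ Finset.univ.erase a, ∫ x, g i x ∂μ
      have hQ : ‖Q‖ ≤ D := by
        simp only [Q]
        rw [norm_prod]
        have h1 : ∀ i ∈ Finset.univ.erase a, ‖∫ x, g i x ∂μ‖ ≤ C := by
          intro i _
          have := norm_integral_le_of_norm_le_const (μ := μ) (Eventually.of_forall (hC i))
          simpa using this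
        refine (Finset.prod_le_prod (fun i _ => norm_nonneg _) h1).trans ?_
        rw [Finset.prod_const]
        refine pow_le_pow_right₀ hC1 ?_
        calc (Finset.univ.erase a).card ≤ (Finset.univ : Finset (Fin r)).card :=
              Finset.card_le_card (Finset.subset_univ _)
          _ = r := by simp
      have hcompi : ∀ {φ : X → 𝕜}, Integrable φ μ → ∀ n : ℕ,
          Integrable (fun x => φ ((⇑T)^[n] x)) μ := by
        intro φ hφ n
        exact ((iter_mp hT n).integrable_comp hφ.aestronglyMeasurable).2 hφ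
      have hint : ∀ {φ : X → 𝕜}, Integrable φ μ → ∀ n,
          Integrable (fun x => φ ((⇑T)^[s n a] x) * P n x) μ := by
        intro φ hφ n
        exact (hcompi hφ (s n a)).mul_bdd (c := D) (hPm n).aestronglyMeasurable
          (Eventually.of_forall (hPb n))
      have hmain : ∀ φ : X → 𝕜, Integrable φ μ →
          Tendsto (fun n => ∫ x, φ ((⇑T)^[s n a] x) * P n x ∂μ) atTop
            (𝓝 ((∫ x, φ x ∂μ) * Q)) := by
        intro φ hφ
        refine Integrable.induction (fun φ : X → 𝕜 =>
          Tendsto (fun n => ∫ x, φ ((⇑T)^[s n a] x) * P n x ∂μ) atTop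
            (𝓝 ((∫ x, φ x ∂μ) * Q))) ?_ ?_ ?_ ?_ hφ
        · intro c A hA _
          let g' : Fin r → X → 𝕜 := Function.update g a (A.indicator (fun _ => (1 : 𝕜)))
          have h1 := ih g' (by
            intro i
            by_cases hi : i = a
            · subst hi
              simp only [g', Function.update_self]
              exact measurable_const.indicator hA
            · simp only [g', Function.update_of_ne hi]
              exact hg i) (by
            intro i
            by_cases hi : i = a
            · subst hi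
              refine ⟨1, fun x => ?_⟩
              simp only [g', Function.update_self]
              by_cases hx : x ∈ A <;> simp [hx]
            · simp only [g', Function.update_of_ne hi]
              exact hb i) (by
            intro i hi
            by_cases hia : i = a
            · subst hia
              exact ⟨A, hA, by simp [g']⟩
            · simp only [g', Function.update_of_ne hia]
              exact hS i (by simp [hia, hi]))
          have e1 : ∀ n, c * ∫ x, ∏ i, g' i ((⇑T)^[s n i] x) ∂μ
              = ∫ x, A.indicator (fun _ => c) ((⇑T)^[s n a] x) * P n x ∂μ := by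
            intro n
            rw [← integral_const_mul]
            congr 1
            ext x
            rw [← Finset.mul_prod_erase _ _ (Finset.mem_univ a)]
            have e3 : ∏ i ∈ Finset.univ.erase a, g' i ((⇑T)^[s n i] x) = P n x := by
              refine Finset.prod_congr rfl (fun i hi => ?_)
              simp only [g', Function.update_of_ne (Finset.ne_of_mem_erase hi)]
            rw [e3, ← mul_assoc]
            congr 1
            simp only [g', Function.update_self]
            by_cases hx : (⇑T)^[s n a] x ∈ A <;> simp [hx]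
          have e2 : c * ∏ i, ∫ x, g' i x ∂μ = (∫ x, A.indicator (fun _ => c) x ∂μ) * Q := by
            rw [← Finset.mul_prod_erase _ _ (Finset.mem_univ a)]
            have e3 : ∏ i ∈ Finset.univ.erase a, ∫ x, g' i x ∂μ = Q := by
              refine Finset.prod_congr rfl (fun i hi => ?_)
              simp only [g', Function.update_of_ne (Finset.ne_of_mem_erase hi)]
            rw [e3, ← mul_assoc]
            congr 1
            simp only [g', Function.update_self]
            rw [integral_indicator hA, integral_indicator hA]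
            simp [RCLike.real_smul_eq_coe_mul, mul_comm]
          have h2 := h1.const_mul c
          rw [e2] at h2
          exact h2.congr e1
        · intro φ ψ _ hφ hψ Pφ Pψ
          have h := Pφ.add Pψ
          have e2 : (∫ x, φ x ∂μ) * Q + (∫ x, ψ x ∂μ) * Q = (∫ x, (φ + ψ) x ∂μ) * Q := by
            rw [← add_mul, ← integral_add hφ hψ]; rfl
          rw [e2] at h
          refine h.congr (fun n => ?_)
          rw [← integral_add (hint hφ n) (hint hψ n)]
          congr 1
          ext x
          simp [add_mul]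
        · refine isClosed_of_closure_subset ?_
          intro φ hφ
          rw [Metric.mem_closure_iff] at hφ
          simp only [Set.mem_ofPred_eq]
          rw [Metric.tendsto_atTop]
          intro ε hε
          obtain ⟨ψ, hψ, hφψ⟩ := hφ (ε / (3 * D)) (by positivity)
          simp only [Set.mem_ofPred_eq] at hψ
          rw [Metric.tendsto_atTop] at hψ
          obtain ⟨N, hN⟩ := hψ (ε / 3) (by positivity)
          refine ⟨N, fun n hn => ?_⟩
          have hφi : Integrable φ μ := L1.integrable_coeFn φ
          have hψi : Integrable ψ μ := L1.integrable_coeFn ψ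
          have hd : ∫ x, ‖φ x - ψ x‖ ∂μ < ε / (3 * D) := by
            have : dist φ ψ = ∫ x, ‖φ x - ψ x‖ ∂μ := by
              rw [dist_eq_norm, L1.norm_eq_integral_norm]
              apply integral_congr_ae
              filter_upwards [Lp.coeFn_sub φ ψ] with x hx
              rw [hx]; rfl
            rw [← this]; exact hφψ
          have hd2 : D * ∫ x, ‖φ x - ψ x‖ ∂μ < ε / 3 := by
            have h2 : D * ∫ x, ‖φ x - ψ x‖ ∂μ < D * (ε / (3 * D)) :=
              mul_lt_mul_of_pos_left hd (by positivity)
            have h3 : D * (ε / (3 * D)) = ε / 3 := by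
              field_simp
            linarith
          have h1' : ‖∫ x, φ ((⇑T)^[s n a] x) * P n x ∂μ - ∫ x, ψ ((⇑T)^[s n a] x) * P n x ∂μ‖
              < ε / 3 := by
            rw [← integral_sub (hint hφi n) (hint hψi n)]
            refine lt_of_le_of_lt (norm_integral_le_integral_norm _) ?_
            refine lt_of_le_of_lt ?_ hd2
            have e4 : ∫ x, ‖φ x - ψ x‖ ∂μ
                = ∫ x, ‖φ ((⇑T)^[s n a] x) - ψ ((⇑T)^[s n a] x)‖ ∂μ := by
              have h5 := integral_map (μ := μ) (iter_mp hT (s n a)).measurable.aemeasurable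
                (f := fun x => ‖φ x - ψ x‖) (by
                  rw [(iter_mp hT (s n a)).map_eq]
                  exact (hφi.sub hψi).norm.aestronglyMeasurable)
              rw [(iter_mp hT (s n a)).map_eq] at h5
              exact h5
            rw [e4, ← integral_const_mul]
            have hi5 : Integrable (fun x => ‖φ ((⇑T)^[s n a] x) - ψ ((⇑T)^[s n a] x)‖) μ :=
              ((hcompi hφi (s n a)).sub (hcompi hψi (s n a))).norm
            refine integral_mono ((hint hφi n).sub (hint hψi n)).norm (hi5.const_mul D)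
              (fun x => ?_)
            simp only
            rw [← sub_mul, norm_mul, mul_comm]
            exact mul_le_mul_of_nonneg_right (hPb n x) (norm_nonneg _)
          have h2 := hN n hn
          rw [dist_eq_norm] at h2 ⊢
          have h3 : ‖(∫ x, ψ x ∂μ) * Q - (∫ x, φ x ∂μ) * Q‖ < ε / 3 := by
            rw [← sub_mul, ← integral_sub hψi hφi, norm_mul, mul_comm]
            refine lt_of_le_of_lt ?_ hd2
            refine mul_le_mul hQ ?_ (norm_nonneg _) (by linarith)
            refine (norm_integral_le_integral_norm _).trans (le_of_eq ?_)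
            congr 1
            ext x
            exact norm_sub_rev _ _
          calc ‖∫ x, φ ((⇑T)^[s n a] x) * P n x ∂μ - (∫ x, φ x ∂μ) * Q‖
              = ‖(∫ x, φ ((⇑T)^[s n a] x) * P n x ∂μ - ∫ x, ψ ((⇑T)^[s n a] x) * P n x ∂μ)
                + (∫ x, ψ ((⇑T)^[s n a] x) * P n x ∂μ - (∫ x, ψ x ∂μ) * Q)
                + ((∫ x, ψ x ∂μ) * Q - (∫ x, φ x ∂μ) * Q)‖ := by congr 1; ring
            _ ≤ ‖∫ x, φ ((⇑T)^[s n a] x) * P n x ∂μ - ∫ x, ψ ((⇑T)^[s n a] x) * P n x ∂μ‖
                + ‖∫ x, ψ ((⇑T)^[s n a] x) * P n x ∂μ - (∫ x, ψ x ∂μ) * Q‖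
                + ‖(∫ x, ψ x ∂μ) * Q - (∫ x, φ x ∂μ) * Q‖ := norm_add₃_le
            _ < ε := by linarith
        · intro φ ψ hφψ hφ Pφ
          have e2 : ∫ x, φ x ∂μ = ∫ x, ψ x ∂μ := integral_congr_ae hφψ
          rw [e2] at Pφ
          refine Pφ.congr (fun n => ?_)
          apply integral_congr_ae
          have h1 := (iter_mp hT (s n a)).quasiMeasurePreserving.ae hφψ
          filter_upwards [h1] with x hx
          rw [hx]
      have hga : Integrable (g a) μ :=
        Integrable.of_bound (hg a).aestronglyMeasurable C (Eventually.of_forall (hC a))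
      have h1 := hmain (g a) hga
      have e2 : (∫ x, g a x ∂μ) * Q = ∏ i, ∫ x, g i x ∂μ :=
        Finset.mul_prod_erase _ (fun i => ∫ x, g i x ∂μ) (Finset.mem_univ a)
      rw [e2] at h1
      refine h1.congr (fun n => ?_)
      congr 1
      ext x
      exact Finset.mul_prod_erase _ (fun i => g i ((⇑T)^[s n i] x)) (Finset.mem_univ a)
  exact key Finset.univ g hg hb (fun i hi => absurd (Finset.mem_univ i) hi)

/-- Spread out times stay spread out after deleting one of them. -/
theorem Spread.succAbove {r : ℕ} {s : ℕ → Fin (r + 1) → ℕ} (hs : Spread s) (j : Fin (r + 1)) :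
    Spread (fun n i => s n (j.succAbove i)) := by
  intro N
  filter_upwards [hs N] with n hn
  intro i i' hii'
  exact hn _ _ ((Fin.strictMono_succAbove j) hii')

/-- Asymptotic independence of `r + 1` bounded functions one of which is constant one. -/
theorem fact_fun_succ {μ : Measure X} [IsProbabilityMeasure μ] {T : X ≃ᵐ X}
    (hT : MeasurePreserving T μ μ) {r : ℕ} (hfact : FactSet μ T r) {s : ℕ → Fin (r + 1) → ℕ}
    (hs : Spread s) (g : Fin (r + 1) → X → 𝕜) (hg : ∀ i, Measurable (g i))
    (hb : ∀ i, ∃ C : ℝ, ∀ x, ‖g i x‖ ≤ C) (j : Fin (r + 1)) (hj : ∀ x, g j x = 1) :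
    Tendsto (fun n => ∫ x, ∏ i, g i ((⇑T)^[s n i] x) ∂μ) atTop (𝓝 (∏ i, ∫ x, g i x ∂μ)) := by
  have h1 := fact_fun hT hfact (hs.succAbove j) (fun i => g (j.succAbove i))
    (fun i => hg _) (fun i => hb _)
  have e1 : ∏ i, ∫ x, g i x ∂μ = ∏ i, ∫ x, g (j.succAbove i) x ∂μ := by
    rw [Fin.prod_univ_succAbove _ j]
    simp only [hj]
    simp
  rw [e1]
  refine h1.congr (fun n => ?_)
  congr 1
  ext x
  rw [Fin.prod_univ_succAbove _ j, hj, one_mul]

end Pool.Agent.H716R2
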