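import Pool.Agent.H716R2.CRel
import Pool.Agent.H716R2.Fact

set_option autoImplicit false
set_option linter.unusedSectionVars false
open MeasureTheory Filter Topology

namespace Pool.Agent.H716R2

variable {X : Type*} [MeasurableSpace X]

theorem prod_le_of_unit {r : ℕ} (a : Fin r → ℝ) (h0 : ∀ i, 0 ≤ a i) (h1 : ∀ i, a i ≤ 1)
    (t : Fin r) : ∏ i, a i ≤ a t := by
  rw [← Finset.mul_prod_erase _ _ (Finset.mem_univ t)]
  have : ∏ i ∈ Finset.univ.erase t, a i ≤ 1 :=
    Finset.prod_le_one (fun i _ => h0 i) (fun i _ => h1 i)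
  exact mul_le_of_le_one_right (h0 t) this

theorem one_sub_prod_le {r : ℕ} (S : Finset (Fin r)) (a : Fin r → ℝ) (h0 : ∀ i, 0 ≤ a i) :
    1 - ∏ i ∈ S, a i ≤ ∑ i ∈ S, |1 - a i| := by
  classical
  have key : ∀ S : Finset (Fin r), 1 - ∏ i ∈ S, min 1 (a i) ≤ ∑ i ∈ S, |1 - a i| ∧
      ∏ i ∈ S, min 1 (a i) ≤ 1 ∧ 0 ≤ ∏ i ∈ S, min 1 (a i) := by
    intro S
    induction S using Finset.induction_on with
    | empty => simp
    | insert b S hb ih =>
      rw [Finset.prod_insert hb, Finset.sum_insert hb]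
      obtain ⟨i1, i2, i3⟩ := ih
      have h2 : 0 ≤ min 1 (a b) := le_min zero_le_one (h0 b)
      have h3 : min 1 (a b) ≤ 1 := min_le_left _ _
      have h4 : 1 - min 1 (a b) ≤ |1 - a b| := by
        rcases le_total 1 (a b) with h | h
        · rw [min_eq_left h]; simp
        · rw [min_eq_right h]; exact le_abs_self _
      refine ⟨?_, mul_le_one₀ h3 i3 i2, mul_nonneg h2 i3⟩
      nlinarith
  obtain ⟨k1, _, _⟩ := key S
  have h5 : ∏ i ∈ S, min 1 (a i) ≤ ∏ i ∈ S, a i :=
    Finset.prod_le_prod (fun i _ => le_min zero_le_one (h0 i)) (fun i _ => min_le_right _ _)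
  linarith

/-- polar coordinates -/
theorem polar (z : ℂ) :
    (‖z‖ : ℂ) * ((((Complex.arg z : ℝ) : Real.Angle).toCircle : Circle) : ℂ) = z := by
  rw [Real.Angle.toCircle_coe, Circle.coe_exp]
  exact Complex.norm_mul_exp_arg_mul_I z

theorem re_conj_mul (θ ω : Real.Angle) (y : ℝ) :
    ((starRingEnd ℂ) (ω.toCircle : ℂ) * ((y : ℂ) * (θ.toCircle : ℂ))).re = y * (θ - ω).cos := by
  rw [Real.Angle.coe_toCircle, Real.Angle.coe_toCircle, sub_eq_add_neg, Real.Angle.cos_add,
    Real.Angle.cos_neg, Real.Angle.sin_neg]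
  simp
  ring

theorem toCircle_sum {r : ℕ} (S : Finset (Fin r)) (θ : Fin r → Real.Angle) :
    (((∑ i ∈ S, θ i).toCircle : Circle) : ℂ) = ∏ i ∈ S, (((θ i).toCircle : Circle) : ℂ) := by
  classical
  induction S using Finset.induction_on with
  | empty => simp
  | insert b S hb ih =>
    rw [Finset.sum_insert hb, Finset.prod_insert hb, Real.Angle.toCircle_add, Circle.coe_mul, ih]

/-- The modulus of an integral computed by rotating it to the positive axis. -/
theorem norm_integral_eq {μ : Measure X} [IsProbabilityMeasure μ] {g : X → ℂ}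
    (hg : Integrable g μ) {y : X → ℝ} {ψ : X → Real.Angle}
    (hgy : ∀ x, g x = (y x : ℂ) * ((ψ x).toCircle : ℂ)) :
    ‖∫ x, g x ∂μ‖ = ∫ x, y x * (ψ x - ((Complex.arg (∫ x, g x ∂μ) : ℝ) : Real.Angle)).cos ∂μ := by
  set I := ∫ x, g x ∂μ with hI
  set ω : Real.Angle := ((Complex.arg I : ℝ) : Real.Angle) with hω
  have h1 : ((starRingEnd ℂ) (ω.toCircle : ℂ) * I).re = ‖I‖ := by
    conv_lhs => rw [← polar I]
    rw [← hω, re_conj_mul, sub_self, Real.Angle.cos_zero, mul_one]
  rw [← h1, hI, ← integral_const_mul]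
  have h2 : (∫ x, (starRingEnd ℂ) (ω.toCircle : ℂ) * g x ∂μ).re
      = ∫ x, ((starRingEnd ℂ) (ω.toCircle : ℂ) * g x).re ∂μ := by
    have := integral_re (𝕜 := ℂ) (μ := μ) (hg.const_mul ((starRingEnd ℂ) (ω.toCircle : ℂ)))
    exact this.symm
  rw [h2]
  congr 1
  ext x
  rw [hgy x, re_conj_mul]

/-- A lower bound for the modulus of an integral. -/
theorem norm_integral_ge {μ : Measure X} [IsProbabilityMeasure μ] {g : X → ℂ}
    (hg : Integrable g μ) {y : X → ℝ} {ψ : X → Real.Angle}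
    (hgy : ∀ x, g x = (y x : ℂ) * ((ψ x).toCircle : ℂ)) (ω : Real.Angle) :
    ∫ x, y x * (ψ x - ω).cos ∂μ ≤ ‖∫ x, g x ∂μ‖ := by
  set I := ∫ x, g x ∂μ with hI
  have h0 : ((starRingEnd ℂ) (ω.toCircle : ℂ) * I).re ≤ ‖I‖ := by
    refine (Complex.re_le_norm _).trans ?_
    rw [norm_mul, RCLike.norm_conj, Circle.norm_coe, one_mul]
  refine le_trans (le_of_eq ?_) h0
  rw [hI, ← integral_const_mul]
  have h2 : (∫ x, (starRingEnd ℂ) (ω.toCircle : ℂ) * g x ∂μ).re
      = ∫ x, ((starRingEnd ℂ) (ω.toCircle : ℂ) * g x).re ∂μ := by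
    have := integral_re (𝕜 := ℂ) (μ := μ) (hg.const_mul ((starRingEnd ℂ) (ω.toCircle : ℂ)))
    exact this.symm
  rw [h2]
  congr 1
  ext x
  rw [hgy x, re_conj_mul]

/-- The comparison functions: `F i ^ 2` in place `i`, `1` in place `j`. -/
noncomputable def cmpG {r : ℕ} (F : Fin r → X → ℝ) (i j l : Fin r) (x : X) : ℝ :=
  if l = i then F i x ^ 2 else if l = j then 1 else F l x

theorem cmpG_prod {r : ℕ} (F : Fin r → X → ℝ) {i j : Fin r} (hij : i ≠ j) (y : Fin r → X) :
    ∏ l, cmpG F i j l (y l) = F i (y i) ^ 2 * ∏ l ∈ (Finset.univ.erase i).erase j, F l (y l) := by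
  have hj : j ∈ Finset.univ.erase i := by simp [hij.symm]
  rw [← Finset.mul_prod_erase _ _ (Finset.mem_univ i), ← Finset.mul_prod_erase _ _ hj]
  have h1 : cmpG F i j i (y i) = F i (y i) ^ 2 := by simp [cmpG]
  have h2 : cmpG F i j j (y j) = 1 := by simp [cmpG, hij.symm]
  rw [h1, h2, one_mul]
  congr 1
  refine Finset.prod_congr rfl (fun l hl => ?_)
  simp only [Finset.mem_erase, Finset.mem_univ, and_true] at hl
  simp [cmpG, hl.1, hl.2]

theorem prod_le_cmpG {r : ℕ} (F : Fin r → X → ℝ) (hF : ∀ i x, 0 ≤ F i x) {i j : Fin r}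
    (hij : i ≠ j) (y : Fin r → X) :
    ∏ l, F l (y l) ≤ (∏ l, cmpG F i j l (y l) + ∏ l, cmpG F j i l (y l)) / 2 := by
  rw [cmpG_prod F hij, cmpG_prod F hij.symm]
  have hj : j ∈ Finset.univ.erase i := by simp [hij.symm]
  rw [← Finset.mul_prod_erase _ _ (Finset.mem_univ i), ← Finset.mul_prod_erase _ _ hj]
  rw [Finset.erase_right_comm (a := j) (b := i)]
  set P := ∏ l ∈ (Finset.univ.erase i).erase j, F l (y l) with hP
  have hP0 : 0 ≤ P := Finset.prod_nonneg (fun l _ => hF l _)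
  nlinarith [mul_nonneg (sq_nonneg (F i (y i) - F j (y j))) hP0]

theorem gap_core {k : ℕ} (hk : 1 ≤ k) {μ : Measure X} [IsProbabilityMeasure μ] {T : X ≃ᵐ X}
    (hT : MeasurePreserving T μ μ) (hmix : Mixing μ T) (hfact : FactSet μ T (k + 1))
    {s : ℕ → Fin (k + 2) → ℕ} (hs : Spread s) (f : Fin (k + 2) → X → ℂ)
    (hf : ∀ i, Measurable (f i)) (hb : ∀ i, ∃ C : ℝ, ∀ x, ‖f i x‖ ≤ C)
    (h1 : ∀ i, ∫ x, ‖f i x‖ ^ 2 ∂μ = 1) {lam : ℝ} (hlam0 : 0 < lam)
    (hlam : 28 * ((k : ℝ) + 3) * ((k + 2).factorial : ℝ) ^ 8 * lam ≤ 1)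
    (hcorr : ∀ n, 1 - lam ^ 2 / 2 ≤ ‖∫ x, ∏ i, f i ((⇑T)^[s n i] x) ∂μ‖) (t : Fin (k + 2)) :
    1 - 241 * ((k : ℝ) + 3) * ((k + 2).factorial : ℝ) ^ 6 * lam ≤ ‖∫ x, f t x ∂μ‖ := by
  classical
  set R : ℝ := ((k + 2).factorial : ℝ) with hR
  have hR1 : 1 ≤ R := by
    rw [hR]; exact_mod_cast Nat.succ_le_of_lt (Nat.factorial_pos _)
  have hk0 : (0 : ℝ) ≤ k := Nat.cast_nonneg _
  have hlam1 : lam ≤ 1 := by
    have h2 : 1 ≤ 28 * ((k : ℝ) + 3) * R ^ 8 := by
      have h3 : 1 ≤ R ^ 8 := one_le_pow₀ hR1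
      nlinarith
    have h4 : 1 * lam ≤ 28 * ((k : ℝ) + 3) * R ^ 8 * lam :=
      mul_le_mul_of_nonneg_right h2 hlam0.le
    linarith
  obtain ⟨C, hC1, hC⟩ : ∃ C : ℝ, 1 ≤ C ∧ ∀ i x, ‖f i x‖ ≤ C := by
    choose C hC using hb
    refine ⟨1 + ∑ i, |C i|, ?_, fun i x => ?_⟩
    · have : 0 ≤ ∑ i, |C i| := Finset.sum_nonneg (fun i _ => abs_nonneg _)
      linarith
    · have h1 : |C i| ≤ ∑ i, |C i| :=
        Finset.single_le_sum (f := fun i => |C i|) (fun i _ => abs_nonneg _) (Finset.mem_univ i)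
      have h2 := hC i x
      have h3 := le_abs_self (C i)
      linarith
  let F : Fin (k + 2) → X → ℝ := fun i x => ‖f i x‖
  have hFm : ∀ i, Measurable (F i) := fun i => (hf i).norm
  have hF0 : ∀ i x, 0 ≤ F i x := fun i x => norm_nonneg _
  have hFC : ∀ i x, |F i x| ≤ C := fun i x => by rw [abs_of_nonneg (hF0 i x)]; exact hC i x
  have hFi : ∀ i, Integrable (F i) μ := fun i => int_of_bound (hFm i) (hFC i)
  have hF2i : ∀ i, Integrable (fun x => F i x ^ 2) μ := fun i =>
    int_of_bound ((hFm i).pow_const 2) (C := C ^ 2) (fun x => by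
      rw [abs_pow]; exact pow_le_pow_left₀ (abs_nonneg _) (hFC i x) 2)
  have hF2 : ∀ i, ∫ x, F i x ^ 2 ∂μ = 1 := h1
  have hEF0 : ∀ i, 0 ≤ ∫ x, F i x ∂μ := fun i => integral_nonneg (hF0 i)
  have hEF1 : ∀ i, ∫ x, F i x ∂μ ≤ 1 := by
    intro i
    have h2 : ∫ x, F i x ∂μ ≤ ∫ x, (1 + F i x ^ 2) / 2 ∂μ := by
      refine integral_mono (hFi i) (((integrable_const _).add (hF2i i)).div_const 2) (fun x => ?_)
      simp only
      nlinarith [sq_nonneg (1 - F i x)]
    have h3 : ∫ x, (1 + F i x ^ 2) / 2 ∂μ = 1 := by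
      rw [integral_div, integral_add (integrable_const _) (hF2i i), hF2 i]
      simp
    linarith
  -- the comparison functions
  have hGm : ∀ i j l, Measurable (cmpG F i j l) := by
    intro i j l
    unfold cmpG
    by_cases hl : l = i
    · simp only [hl, if_true]; exact (hFm i).pow_const 2
    · simp only [hl, if_false]
      by_cases hl2 : l = j
      · simp only [hl2, if_true]; exact measurable_const
      · simp only [hl2, if_false]; exact hFm l
  have hGb : ∀ i j l x, |cmpG F i j l x| ≤ C ^ 2 := by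
    intro i j l x
    unfold cmpG
    have hCC : C ≤ C ^ 2 := by nlinarith
    by_cases hl : l = i
    · simp only [hl, if_true]
      rw [abs_pow]; exact pow_le_pow_left₀ (abs_nonneg _) (hFC i x) 2
    · simp only [hl, if_false]
      by_cases hl2 : l = j
      · simp only [hl2, if_true]; rw [abs_one]; linarith
      · simp only [hl2, if_false]; exact (hFC l x).trans hCC
  have hGint : ∀ i j l, i ≠ j → (∫ x, cmpG F i j l x ∂μ) =
      if l = i then 1 else if l = j then 1 else ∫ x, F l x ∂μ := by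
    intro i j l hij
    unfold cmpG
    by_cases hl : l = i
    · simp only [hl, if_true]; exact hF2 i
    · simp only [hl, if_false]
      by_cases hl2 : l = j
      · simp only [hl2, if_true]; simp
      · simp only [hl2, if_false]
  have hGlim : ∀ i j, i ≠ j → Tendsto (fun n => ∫ x, ∏ l, cmpG F i j l ((⇑T)^[s n l] x) ∂μ) atTop
      (𝓝 (∏ l, ∫ x, cmpG F i j l x ∂μ)) := by
    intro i j hij
    refine fact_fun_succ hT hfact hs (cmpG F i j) (hGm i j) (fun l => ⟨C ^ 2, fun x => ?_⟩) j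
      (fun x => ?_)
    · rw [Real.norm_eq_abs]; exact hGb i j l x
    · simp [cmpG, hij.symm]
  have hGle : ∀ u i j, i ≠ j → u ≠ i → u ≠ j → ∏ l, ∫ x, cmpG F i j l x ∂μ ≤ ∫ x, F u x ∂μ := by
    intro u i j hij hti htj
    have h2 := prod_le_of_unit (fun l => ∫ x, cmpG F i j l x ∂μ) (fun l => by
      rw [hGint i j l hij]
      split_ifs
      · exact zero_le_one
      · exact zero_le_one
      · exact hEF0 l) (fun l => by
      rw [hGint i j l hij]
      split_ifs
      · exact le_rfl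
      · exact le_rfl
      · exact hEF1 l) u
    rw [hGint i j u hij, if_neg hti, if_neg htj] at h2
    exact h2
  have hpick : ∀ u : Fin (k + 2), ∃ i j : Fin (k + 2), i ≠ j ∧ u ≠ i ∧ u ≠ j := by
    intro u
    have h1 : 2 ≤ (Finset.univ.erase u).card := by
      rw [Finset.card_erase_of_mem (Finset.mem_univ u), Finset.card_univ, Fintype.card_fin]
      omega
    obtain ⟨i, hi, j, hj, hij⟩ := Finset.one_lt_card.1 (by omega : 1 < (Finset.univ.erase u).card)
    exact ⟨i, j, hij, (Finset.mem_erase.1 hi).1.symm, (Finset.mem_erase.1 hj).1.symm⟩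
  let Y : ℕ → X → ℝ := fun n x => ∏ l, F l ((⇑T)^[s n l] x)
  have hYm : ∀ n, Measurable (Y n) := fun n => prod_comp_meas T hFm _ (s n)
  have hY0 : ∀ n x, 0 ≤ Y n x := fun n x => Finset.prod_nonneg (fun l _ => hF0 l _)
  have hYb : ∀ n x, |Y n x| ≤ C ^ (k + 2) := fun n x =>
    prod_bound hC1 (fun i x => by rw [Real.norm_eq_abs]; exact hFC i x) Finset.univ
      (fun l => (⇑T)^[s n l] x)
  have hYi : ∀ n, Integrable (Y n) μ := fun n => int_of_bound (hYm n) (hYb n)
  have hGi : ∀ i j n, Integrable (fun x => ∏ l, cmpG F i j l ((⇑T)^[s n l] x)) μ := by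
    intro i j n
    refine int_of_bound (C := (C ^ 2) ^ (k + 2)) (prod_comp_meas T (hGm i j) _ (s n)) (fun x => ?_)
    exact prod_bound (one_le_pow₀ hC1) (fun l x => by rw [Real.norm_eq_abs]; exact hGb i j l x)
      Finset.univ (fun l => (⇑T)^[s n l] x)
  have hYle : ∀ n i j, i ≠ j → ∫ x, Y n x ∂μ
      ≤ (∫ x, ∏ l, cmpG F i j l ((⇑T)^[s n l] x) ∂μ
        + ∫ x, ∏ l, cmpG F j i l ((⇑T)^[s n l] x) ∂μ) / 2 := by
    intro n i j hij
    rw [← integral_add (hGi i j n) (hGi j i n), ← integral_div]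
    refine integral_mono (hYi n) (((hGi i j n).add (hGi j i n)).div_const 2) (fun x => ?_)
    exact prod_le_cmpG F hF0 hij (fun l => (⇑T)^[s n l] x)
  -- the product of the functions
  have hPi : ∀ n, Integrable (fun x => ∏ i, f i ((⇑T)^[s n i] x)) μ := fun n =>
    Integrable.of_bound (prod_comp_meas T hf _ (s n)).aestronglyMeasurable (C ^ (k + 2))
      (Eventually.of_forall (fun x => prod_bound hC1 hC Finset.univ (fun l => (⇑T)^[s n l] x)))
  have hcorrY : ∀ n, ‖∫ x, ∏ i, f i ((⇑T)^[s n i] x) ∂μ‖ ≤ ∫ x, Y n x ∂μ := by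
    intro n
    refine (norm_integral_le_integral_norm _).trans (le_of_eq ?_)
    congr 1
    ext x
    rw [norm_prod]
  have hlow : ∀ u, 1 - lam ^ 2 / 2 ≤ ∫ x, F u x ∂μ := by
    intro u
    obtain ⟨i, j, hij, hi, hj⟩ := hpick u
    have h2 := ge_of_tendsto' (((hGlim i j hij).add (hGlim j i hij.symm)).div_const 2)
      (fun n => ((hcorr n).trans (hcorrY n)).trans (hYle n i j hij))
    have h3 := hGle u i j hij hi hj
    have h4 := hGle u j i hij.symm hj hi
    linarith
  have hup : ∀ᶠ n in atTop, ∫ x, Y n x ∂μ ≤ 1 + lam ^ 2 / 2 := by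
    obtain ⟨i, j, hij, hi, hj⟩ := hpick t
    have h2 := ((hGlim i j hij).add (hGlim j i hij.symm)).div_const 2
    have h3 := hGle t i j hij hi hj
    have h4 := hGle t j i hij.symm hj hi
    have h5 := hEF1 t
    have h6 : 0 < lam ^ 2 := by positivity
    have h8 : (∏ l, ∫ x, cmpG F i j l x ∂μ + ∏ l, ∫ x, cmpG F j i l x ∂μ) / 2
      < 1 + lam ^ 2 / 2 := by linarith
    have h7 := h2.eventually_lt_const h8
    filter_upwards [h7] with n hn
    exact (hYle n i j hij).trans hn.le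
  have hdev : ∀ u, ∫ x, |1 - F u x| ∂μ ≤ lam := by
    intro u
    have i1 : Integrable (fun x => |1 - F u x|) μ := ((integrable_const 1).sub (hFi u)).abs
    have i3 : Integrable (fun x => 2 * F u x) μ := (hFi u).const_mul 2
    have i4 : Integrable (fun x => 1 - 2 * F u x) μ := (integrable_const 1).sub i3
    have i5 : Integrable (fun x => 1 - 2 * F u x + F u x ^ 2) μ := i4.add (hF2i u)
    have i6 : Integrable (fun x => (1 - 2 * F u x + F u x ^ 2) / (2 * lam)) μ := i5.div_const _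
    have i2 : Integrable (fun x => lam / 2 + (1 - 2 * F u x + F u x ^ 2) / (2 * lam)) μ :=
      (integrable_const _).add i6
    have h2 : ∫ x, |1 - F u x| ∂μ
        ≤ ∫ x, (lam / 2 + (1 - 2 * F u x + F u x ^ 2) / (2 * lam)) ∂μ := by
      refine integral_mono i1 i2 (fun x => ?_)
      simp only
      have h3 : 1 - 2 * F u x + F u x ^ 2 = |1 - F u x| ^ 2 := by rw [sq_abs]; ring
      rw [h3]
      have h4 : lam / 2 + |1 - F u x| ^ 2 / (2 * lam) - |1 - F u x|
          = (|1 - F u x| - lam) ^ 2 / (2 * lam) := by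
        field_simp
        ring
      have h5 : 0 ≤ (|1 - F u x| - lam) ^ 2 / (2 * lam) := by positivity
      linarith
    have h3 : ∫ x, (lam / 2 + (1 - 2 * F u x + F u x ^ 2) / (2 * lam)) ∂μ
        = lam / 2 + (1 - 2 * ∫ x, F u x ∂μ + 1) / (2 * lam) := by
      have e0 : ∫ _x, lam / 2 ∂μ = lam / 2 := by simp
      rw [integral_add (integrable_const _) i6, e0, integral_div, integral_add i4 (hF2i u),
        integral_sub (integrable_const _) i3, integral_const_mul, hF2 u]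
      simp
    have h4 : (1 - 2 * ∫ x, F u x ∂μ + 1) / (2 * lam) ≤ lam ^ 2 / (2 * lam) := by
      apply div_le_div_of_nonneg_right _ (by positivity)
      linarith [hlow u]
    have h5 : lam ^ 2 / (2 * lam) = lam / 2 := by field_simp
    linarith
  -- the angles
  let ψ : Fin (k + 2) → X → Real.Angle := fun l x => ((Complex.arg (f l x) : ℝ) : Real.Angle)
  have hψm : ∀ l, Measurable (ψ l) := fun l =>
    Real.Angle.continuous_coe.measurable.comp (Complex.measurable_arg.comp (hf l))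
  have hpolar : ∀ l x, f l x = (F l x : ℂ) * ((ψ l x).toCircle : ℂ) := fun l x =>
    (polar (f l x)).symm
  have hprod : ∀ n x, ∏ i, f i ((⇑T)^[s n i] x)
      = (Y n x : ℂ) * ((relSum T ψ (s n) x).toCircle : ℂ) := by
    intro n x
    simp only [Y, relSum]
    rw [toCircle_sum, Complex.ofReal_prod, ← Finset.prod_mul_distrib]
    exact Finset.prod_congr rfl (fun l _ => hpolar l _)
  set ε0 : ℝ := 2 * ((k : ℝ) + 3) * lam with hε0
  have hrel : ∀ᶠ n in atTop, ∃ ω : Real.Angle,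
      ∫ x, dfc (relSum T ψ (s n) x - ω) ∂μ ≤ ε0 := by
    filter_upwards [hup] with n hn
    set ω : Real.Angle :=
      ((Complex.arg (∫ x, ∏ i, f i ((⇑T)^[s n i] x) ∂μ) : ℝ) : Real.Angle) with hω
    refine ⟨ω, ?_⟩
    have h2 := norm_integral_eq (hPi n) (hprod n)
    rw [← hω] at h2
    have hdm : Measurable (fun x => dfc (relSum T ψ (s n) x - ω)) :=
      dfc_measurable.comp ((relSumA_meas T hψm (s n)).sub measurable_const)
    have hcm : Measurable (fun x => (relSum T ψ (s n) x - ω).cos) :=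
      cos_measurable.comp ((relSumA_meas T hψm (s n)).sub measurable_const)
    have hYc : Integrable (fun x => Y n x * (relSum T ψ (s n) x - ω).cos) μ :=
      int_mul_bound (hYm n) hcm (hYb n) (fun x => abs_cos_le_one' _)
    have hdi : ∀ u, Integrable (fun x => |1 - F u ((⇑T)^[s n u] x)|) μ := by
      intro u
      refine int_of_bound (C := 1 + C) ((measurable_const.sub
        ((hFm u).comp (iter_meas T (s n u)))).abs) (fun x => ?_)
      rw [abs_abs]
      refine (abs_sub _ _).trans ?_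
      rw [abs_one]
      linarith [hFC u ((⇑T)^[s n u] x)]
    have hpt : ∀ x, dfc (relSum T ψ (s n) x - ω)
        ≤ (Y n x - Y n x * (relSum T ψ (s n) x - ω).cos)
          + 2 * ∑ u, |1 - F u ((⇑T)^[s n u] x)| := by
      intro x
      have h3 : 1 - Y n x ≤ ∑ u, |1 - F u ((⇑T)^[s n u] x)| :=
        one_sub_prod_le Finset.univ (fun u => F u ((⇑T)^[s n u] x)) (fun u => hF0 u _)
      have h4 := dfc_nonneg (relSum T ψ (s n) x - ω)
      have h5 := dfc_le_two (relSum T ψ (s n) x - ω)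
      have h6 : 0 ≤ ∑ u, |1 - F u ((⇑T)^[s n u] x)| :=
        Finset.sum_nonneg (fun u _ => abs_nonneg _)
      have h7 : Y n x - Y n x * (relSum T ψ (s n) x - ω).cos
          = Y n x * dfc (relSum T ψ (s n) x - ω) := by unfold dfc; ring
      rw [h7]
      nlinarith
    have j1 : Integrable (fun x => Y n x - Y n x * (relSum T ψ (s n) x - ω).cos) μ :=
      (hYi n).sub hYc
    have j2 : Integrable (fun x => 2 * ∑ u, |1 - F u ((⇑T)^[s n u] x)|) μ :=
      (integrable_finsetSum _ (fun u _ => hdi u)).const_mul 2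
    have h3 : ∫ x, dfc (relSum T ψ (s n) x - ω) ∂μ
        ≤ ∫ x, ((Y n x - Y n x * (relSum T ψ (s n) x - ω).cos)
          + 2 * ∑ u, |1 - F u ((⇑T)^[s n u] x)|) ∂μ := by
      refine integral_mono (int_of_bound hdm (fun x => abs_dfc_le _)) ?_ hpt
      exact j1.add j2
    have h4 : ∫ x, ((Y n x - Y n x * (relSum T ψ (s n) x - ω).cos)
          + 2 * ∑ u, |1 - F u ((⇑T)^[s n u] x)|) ∂μ
        = (∫ x, Y n x ∂μ - ‖∫ x, ∏ i, f i ((⇑T)^[s n i] x) ∂μ‖)
          + 2 * ∑ u, ∫ x, |1 - F u x| ∂μ := by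
      rw [integral_add j1 j2, integral_sub (hYi n) hYc,
        integral_const_mul, integral_finsetSum _ (fun u _ => hdi u), ← h2]
      congr 2
      refine Finset.sum_congr rfl (fun u _ => ?_)
      exact mp_integral (iter_mp hT (s n u)) (g := fun x => |1 - F u x|)
        ((measurable_const.sub (hFm u)).abs)
    rw [h4] at h3
    have h5 : ∑ u : Fin (k + 2), ∫ x, |1 - F u x| ∂μ ≤ ((k : ℝ) + 2) * lam := by
      refine (Finset.sum_le_sum (fun u _ => hdev u)).trans (le_of_eq ?_)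
      simp
    have h6 := hcorr n
    have h7 : lam ^ 2 ≤ lam := by nlinarith
    rw [hε0]
    nlinarith
  obtain ⟨g0, hg0⟩ := relation_angle (by omega : 3 ≤ k + 2) hT hmix hψm ε0 (by
    rw [hε0, ← hR]
    calc 14 * R ^ 8 * (2 * ((k : ℝ) + 3) * lam) = 28 * ((k : ℝ) + 3) * R ^ 8 * lam := by ring
      _ ≤ 1 := hlam) (by
    intro N
    obtain ⟨n, hn1, hn2⟩ := ((hs N).and hrel).exists
    exact ⟨s n, hn1, hn2⟩) t
  rw [← hR] at hg0
  have hft : Integrable (f t) μ :=
    Integrable.of_bound (hf t).aestronglyMeasurable C (Eventually.of_forall (hC t))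
  refine le_trans ?_ (norm_integral_ge hft (hpolar t) g0)
  have hcm : Measurable (fun x => (ψ t x - g0).cos) :=
    cos_measurable.comp ((hψm t).sub measurable_const)
  have hci : Integrable (fun x => (ψ t x - g0).cos) μ := int_of_bound hcm (fun x => abs_cos_le_one' _)
  have j3 : Integrable (fun x => |1 - F t x|) μ := ((integrable_const 1).sub (hFi t)).abs
  have h2 : ∫ x, ((ψ t x - g0).cos - |1 - F t x|) ∂μ ≤ ∫ x, F t x * (ψ t x - g0).cos ∂μ := by
    refine integral_mono (hci.sub j3)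
      (int_mul_bound (hFm t) hcm (hFC t) (fun x => abs_cos_le_one' _)) (fun x => ?_)
    simp only
    have h3 := abs_cos_le_one' (ψ t x - g0)
    have h4 : |(1 - F t x) * (ψ t x - g0).cos| ≤ |1 - F t x| * 1 := by
      rw [abs_mul]
      exact mul_le_mul_of_nonneg_left h3 (abs_nonneg _)
    have h5 := le_abs_self ((1 - F t x) * (ψ t x - g0).cos)
    have h6 : F t x * (ψ t x - g0).cos
      = (ψ t x - g0).cos - (1 - F t x) * (ψ t x - g0).cos := by ring
    rw [h6]
    linarith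
  rw [integral_sub hci j3] at h2
  have h3 : ∫ x, dfc (ψ t x - g0) ∂μ = 1 - ∫ x, (ψ t x - g0).cos ∂μ := by
    unfold dfc
    rw [integral_sub (integrable_const _) hci]
    simp
  have h4 := hdev t
  have h5 : 120 * R ^ 6 * ε0 = 240 * ((k : ℝ) + 3) * R ^ 6 * lam := by rw [hε0]; ring
  have h6 : lam ≤ ((k : ℝ) + 3) * R ^ 6 * lam := by
    have h7 : 1 ≤ R ^ 6 := one_le_pow₀ hR1
    have h8 : 1 ≤ ((k : ℝ) + 3) * R ^ 6 := by nlinarith
    nlinarith
  rw [h5] at hg0
  linarith

end Pool.Agent.H716R2
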