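import Pool.Agent.H716R2.Gap

set_option autoImplicit false
set_option linter.unusedSectionVars false
open MeasureTheory Filter Topology

namespace Pool.Agent.H716R2

variable {X : Type*} [MeasurableSpace X]

theorem add_three_le_factorial {k : ℕ} (hk : 1 ≤ k) : k + 3 ≤ (k + 2).factorial := by
  rw [Nat.factorial_succ, Nat.factorial_succ]
  have h1 := Nat.factorial_pos k
  calc k + 3 ≤ (k + 1 + 1) * ((k + 1) * 1) := by nlinarith
    _ ≤ (k + 1 + 1) * ((k + 1) * k.factorial) := by gcongr; omega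

theorem Spread.comp {r : ℕ} {s : ℕ → Fin r → ℕ} (hs : Spread s) {φ : ℕ → ℕ}
    (hφ : StrictMono φ) : Spread (fun n => s (φ n)) := fun N =>
  hφ.tendsto_atTop.eventually (hs N)

/-- The gap for functions one of which has mean zero. -/
theorem gap_one {k : ℕ} (hk : 1 ≤ k) {μ : Measure X} [IsProbabilityMeasure μ] {T : X ≃ᵐ X}
    (hT : MeasurePreserving T μ μ) (hmix : Mixing μ T) (hfact : FactSet μ T (k + 1))
    {s : ℕ → Fin (k + 2) → ℕ} (hs : Spread s) (f : Fin (k + 2) → X → ℂ)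
    (hf : ∀ i, Measurable (f i)) (hb : ∀ i, ∃ C : ℝ, ∀ x, ‖f i x‖ ≤ C) (t : Fin (k + 2))
    (ht : ∫ x, f t x ∂μ = 0) :
    ∀ᶠ n in atTop, ‖∫ x, ∏ i, f i ((⇑T)^[s n i] x) ∂μ‖
      ≤ (1 - 1 / (180000 * ((k + 2).factorial : ℝ) ^ 18))
        * ∏ i, Real.sqrt (∫ x, ‖f i x‖ ^ 2 ∂μ) := by
  set R : ℝ := ((k + 2).factorial : ℝ) with hR
  have hR1 : 1 ≤ R := by
    rw [hR]; exact_mod_cast Nat.succ_le_of_lt (Nat.factorial_pos _)
  have hR0 : 0 < R := by linarith
  have hR18 : 1 ≤ R ^ 18 := one_le_pow₀ hR1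
  have hκ0 : 0 ≤ 1 - 1 / (180000 * R ^ 18) := by
    have : 1 / (180000 * R ^ 18) ≤ 1 := by
      rw [div_le_one (by positivity)]
      linarith
    linarith
  by_contra hcon
  rw [Filter.not_eventually] at hcon
  obtain ⟨φ, hφ, hφn⟩ := extraction_of_frequently_atTop hcon
  simp only [not_le] at hφn
  set q : Fin (k + 2) → ℝ := fun i => Real.sqrt (∫ x, ‖f i x‖ ^ 2 ∂μ) with hq
  have hq0 : ∀ i, 0 ≤ q i := fun i => Real.sqrt_nonneg _
  have hf2i : ∀ i, Integrable (fun x => ‖f i x‖ ^ 2) μ := by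
    intro i
    obtain ⟨C, hC⟩ := hb i
    exact int_of_bound ((hf i).norm.pow_const 2) (C := C ^ 2) (fun x => by
      rw [abs_pow, abs_norm]; exact pow_le_pow_left₀ (norm_nonneg _) (hC x) 2)
  have hqpos : ∀ i, 0 < q i := by
    intro i
    rcases (hq0 i).eq_or_lt with h | h
    · exfalso
      have h1 : ∫ x, ‖f i x‖ ^ 2 ∂μ = 0 := by
        have h2 : 0 ≤ ∫ x, ‖f i x‖ ^ 2 ∂μ := integral_nonneg (fun x => by positivity)
        exact (Real.sqrt_eq_zero h2).1 h.symm
      have h2 : (fun x => ‖f i x‖ ^ 2) =ᵐ[μ] 0 :=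
        (integral_eq_zero_iff_of_nonneg (fun x => by positivity) (hf2i i)).1 h1
      have h3 : ∀ᵐ x ∂μ, f i ((⇑T)^[s (φ 0) i] x) = 0 := by
        have h4 : ∀ᵐ x ∂μ, f i x = 0 := by
          filter_upwards [h2] with x hx
          simpa using hx
        exact (iter_mp hT _).quasiMeasurePreserving.ae h4
      have h5 : ∫ x, ∏ i, f i ((⇑T)^[s (φ 0) i] x) ∂μ = 0 := by
        rw [integral_congr_ae (g := fun _ => (0 : ℂ))]
        · simp
        · filter_upwards [h3] with x hx
          exact Finset.prod_eq_zero (Finset.mem_univ i) hx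
      have h6 := hφn 0
      rw [h5, norm_zero] at h6
      have h7 : 0 ≤ (1 - 1 / (180000 * R ^ 18)) * ∏ i, q i :=
        mul_nonneg hκ0 (Finset.prod_nonneg (fun i _ => hq0 i))
      linarith
    · exact h
  have hQpos : 0 < ∏ i, q i := Finset.prod_pos (fun i _ => hqpos i)
  let g : Fin (k + 2) → X → ℂ := fun i x => ((q i)⁻¹ : ℝ) * f i x
  have hgm : ∀ i, Measurable (g i) := fun i => measurable_const.mul (hf i)
  have hgb : ∀ i, ∃ C : ℝ, ∀ x, ‖g i x‖ ≤ C := by
    intro i
    obtain ⟨C, hC⟩ := hb i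
    refine ⟨(q i)⁻¹ * C, fun x => ?_⟩
    simp only [g, norm_mul, Complex.norm_real, Real.norm_eq_abs,
      abs_of_pos (inv_pos.2 (hqpos i))]
    exact mul_le_mul_of_nonneg_left (hC x) (inv_pos.2 (hqpos i)).le
  have hg1 : ∀ i, ∫ x, ‖g i x‖ ^ 2 ∂μ = 1 := by
    intro i
    have e : ∀ x, ‖g i x‖ ^ 2 = ((q i)⁻¹) ^ 2 * ‖f i x‖ ^ 2 := by
      intro x
      simp only [g, norm_mul, Complex.norm_real, Real.norm_eq_abs,
        abs_of_pos (inv_pos.2 (hqpos i)), mul_pow]
    simp only [e]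
    rw [integral_const_mul]
    have h2 : q i ^ 2 = ∫ x, ‖f i x‖ ^ 2 ∂μ :=
      Real.sq_sqrt (integral_nonneg (fun x => by positivity))
    rw [← h2, ← mul_pow, inv_mul_cancel₀ (hqpos i).ne', one_pow]
  have hgint : ∀ n, ∫ x, ∏ i, g i ((⇑T)^[s n i] x) ∂μ
      = (((∏ i, q i)⁻¹ : ℝ) : ℂ) * ∫ x, ∏ i, f i ((⇑T)^[s n i] x) ∂μ := by
    intro n
    rw [← integral_const_mul]
    congr 1
    ext x
    simp only [g]
    rw [Finset.prod_mul_distrib, ← Complex.ofReal_prod, Finset.prod_inv_distrib]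
  set lam : ℝ := 1 / (300 * R ^ 9) with hlam
  have hlam0 : 0 < lam := by positivity
  have hk3 : (k : ℝ) + 3 ≤ R := by
    have := add_three_le_factorial hk
    rw [hR]
    exact_mod_cast this
  have hk0 : (0 : ℝ) ≤ (k : ℝ) + 3 := by positivity
  have hmain := gap_core hk hT hmix hfact (hs.comp hφ) g hgm hgb hg1 hlam0 (by
    rw [← hR]
    have h1 : 28 * ((k : ℝ) + 3) * R ^ 8 * lam ≤ 28 * R * R ^ 8 * lam := by
      have : 0 ≤ R ^ 8 * lam := by positivity
      nlinarith
    have h2 : 28 * R * R ^ 8 * lam = 28 / 300 := by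
      rw [hlam]; field_simp
    rw [h2] at h1
    linarith) (by
    intro n
    rw [hgint, norm_mul, Complex.norm_real, Real.norm_eq_abs, abs_of_pos (inv_pos.2 hQpos)]
    have h1 := hφn n
    have h2 : lam ^ 2 / 2 = 1 / (180000 * R ^ 18) := by
      rw [hlam]; field_simp; norm_num
    rw [h2, inv_mul_eq_div, le_div_iff₀ hQpos]
    exact h1.le) t
  have h1 : ∫ x, g t x ∂μ = 0 := by
    simp only [g]
    rw [integral_const_mul, ht, mul_zero]
  rw [h1, norm_zero, ← hR] at hmain
  have h2 : 241 * ((k : ℝ) + 3) * R ^ 6 * lam ≤ 241 * R * R ^ 6 * lam := by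
    have : 0 ≤ R ^ 6 * lam := by positivity
    nlinarith
  have h3 : 241 * R * R ^ 6 * lam = 241 / 300 * (1 / R ^ 2) := by
    rw [hlam]; field_simp
  have h4 : 1 / R ^ 2 ≤ 1 := by
    rw [div_le_one (by positivity)]
    exact one_le_pow₀ hR1
  linarith

/-- The deviation of a correlation from the product of the means. -/
noncomputable def corr {r : ℕ} (μ : Measure X) (T : X ≃ᵐ X) (s : Fin r → ℕ)
    (g : Fin r → X → ℂ) : ℂ :=
  ∫ x, ∏ i, g i ((⇑T)^[s i] x) ∂μ - ∏ i, ∫ x, g i x ∂μ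

/-- bounded measurable functions -/
def BM (g : X → ℂ) : Prop := Measurable g ∧ ∃ C : ℝ, ∀ x, ‖g x‖ ≤ C

theorem BM.integrable {μ : Measure X} [IsProbabilityMeasure μ] {g : X → ℂ} (h : BM g) :
    Integrable g μ := by
  obtain ⟨h1, C, h2⟩ := h
  exact Integrable.of_bound h1.aestronglyMeasurable C (Eventually.of_forall h2)

theorem BM.prod_integrable {μ : Measure X} [IsProbabilityMeasure μ] {r : ℕ} (T : X ≃ᵐ X)
    (s : Fin r → ℕ) {g : Fin r → X → ℂ} (h : ∀ i, BM (g i)) :
    Integrable (fun x => ∏ i, g i ((⇑T)^[s i] x)) μ := by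
  choose h1 C h2 using h
  refine Integrable.of_bound (prod_comp_meas T h1 _ s).aestronglyMeasurable (∏ i, C i)
    (Eventually.of_forall (fun x => ?_))
  rw [norm_prod]
  exact Finset.prod_le_prod (fun i _ => norm_nonneg _) (fun i _ => h2 i _)

theorem BM.const (c : ℂ) : BM (fun _ : X => c) := ⟨measurable_const, ‖c‖, fun _ => le_rfl⟩

theorem BM.sub {g h : X → ℂ} (hg : BM g) (hh : BM h) : BM (fun x => g x - h x) := by
  obtain ⟨h1, C, h2⟩ := hg
  obtain ⟨h3, D, h4⟩ := hh
  exact ⟨h1.sub h3, C + D, fun x => (norm_sub_le _ _).trans (add_le_add (h2 x) (h4 x))⟩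

theorem corr_update {r : ℕ} {μ : Measure X} [IsProbabilityMeasure μ] (T : X ≃ᵐ X)
    (s : Fin r → ℕ) (g : Fin r → X → ℂ) (hg : ∀ i, BM (g i)) (a : Fin r) (c : ℂ) :
    corr μ T s g = corr μ T s (Function.update g a (fun x => g a x - c))
      + c * corr μ T s (Function.update g a (fun _ => 1)) := by
  classical
  have hup : ∀ h : X → ℂ, BM h → ∀ i, BM (Function.update g a h i) := by
    intro h hh i
    by_cases hi : i = a
    · subst hi; simpa using hh
    · rw [Function.update_of_ne hi]; exact hg i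
  have e1 : ∀ (h : X → ℂ) (x : X), ∏ i, Function.update g a h i ((⇑T)^[s i] x)
      = h ((⇑T)^[s a] x) * ∏ i ∈ Finset.univ.erase a, g i ((⇑T)^[s i] x) := by
    intro h x
    rw [← Finset.mul_prod_erase _ _ (Finset.mem_univ a)]
    congr 1
    · simp
    · refine Finset.prod_congr rfl (fun i hi => ?_)
      rw [Function.update_of_ne (Finset.ne_of_mem_erase hi)]
  have e2 : ∀ (h : X → ℂ), ∏ i, ∫ x, Function.update g a h i x ∂μ
      = (∫ x, h x ∂μ) * ∏ i ∈ Finset.univ.erase a, ∫ x, g i x ∂μ := by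
    intro h
    rw [← Finset.mul_prod_erase _ _ (Finset.mem_univ a)]
    congr 1
    · simp
    · refine Finset.prod_congr rfl (fun i hi => ?_)
      rw [Function.update_of_ne (Finset.ne_of_mem_erase hi)]
  have hga : BM (fun x => g a x - c) := (hg a).sub (BM.const c)
  have i1 := BM.prod_integrable (μ := μ) T s (hup _ hga)
  have i2 := BM.prod_integrable (μ := μ) T s (hup _ (BM.const 1))
  unfold corr
  have e3 : ∫ x, ∏ i, g i ((⇑T)^[s i] x) ∂μ
      = ∫ x, ∏ i, Function.update g a (fun x => g a x - c) i ((⇑T)^[s i] x) ∂μ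
        + c * ∫ x, ∏ i, Function.update g a (fun _ => 1) i ((⇑T)^[s i] x) ∂μ := by
    rw [← integral_const_mul, ← integral_add i1 (i2.const_mul c)]
    congr 1
    ext x
    rw [e1, e1, ← Finset.mul_prod_erase _ _ (Finset.mem_univ a)]
    ring
  have e4 : ∏ i, ∫ x, g i x ∂μ
      = ∏ i, ∫ x, Function.update g a (fun x => g a x - c) i x ∂μ
        + c * ∏ i, ∫ x, Function.update g a (fun _ => (1 : ℂ)) i x ∂μ := by
    rw [e2, e2, ← Finset.mul_prod_erase _ _ (Finset.mem_univ a),
      integral_sub (hg a).integrable (integrable_const c)]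
    simp only [integral_const, probReal_univ, one_smul]
    ring
  rw [e3, e4]
  ring

/-- Passing to centred functions does not change correlations asymptotically. -/
theorem corr_center {k : ℕ} {μ : Measure X} [IsProbabilityMeasure μ] {T : X ≃ᵐ X}
    (hT : MeasurePreserving T μ μ) (hfact : FactSet μ T (k + 1))
    {s : ℕ → Fin (k + 2) → ℕ} (hs : Spread s) (f : Fin (k + 2) → X → ℂ) (hf : ∀ i, BM (f i)) :
    Tendsto (fun n => corr μ T (s n) f
      - corr μ T (s n) (fun i x => f i x - ∫ y, f i y ∂μ)) atTop (𝓝 0) := by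
  classical
  have key : ∀ S : Finset (Fin (k + 2)), Tendsto (fun n => corr μ T (s n) f
      - corr μ T (s n) (fun i x => if i ∈ S then f i x - ∫ y, f i y ∂μ else f i x))
      atTop (𝓝 0) := by
    intro S
    induction S using Finset.induction_on with
    | empty => simp
    | insert a S ha ih =>
      set h : Fin (k + 2) → X → ℂ :=
        fun i x => if i ∈ S then f i x - ∫ y, f i y ∂μ else f i x with hh
      have hhBM : ∀ i, BM (h i) := by
        intro i
        by_cases hi : i ∈ S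
        · simp only [hh, hi, if_true]
          exact (hf i).sub (BM.const _)
        · simp only [hh, hi, if_false]
          exact hf i
      have e1 : (fun (i : Fin (k + 2)) (x : X) =>
          if i ∈ insert a S then f i x - ∫ y, f i y ∂μ else f i x)
          = Function.update h a (fun x => h a x - ∫ y, f a y ∂μ) := by
        funext i x
        by_cases hi : i = a
        · subst hi
          simp [hh, ha]
        · rw [Function.update_of_ne hi]
          simp [hh, hi]
      rw [e1]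
      have e2 : ∀ n, corr μ T (s n) f
          - corr μ T (s n) (Function.update h a (fun x => h a x - ∫ y, f a y ∂μ))
          = (corr μ T (s n) f - corr μ T (s n) h)
            + (∫ y, f a y ∂μ) * corr μ T (s n) (Function.update h a (fun _ => 1)) := by
        intro n
        rw [corr_update T (s n) h hhBM a (∫ y, f a y ∂μ)]
        ring
      simp only [e2]
      have h3 : Tendsto (fun n => corr μ T (s n) (Function.update h a (fun _ => 1))) atTop
          (𝓝 0) := by
        have hup : ∀ i, BM (Function.update h a (fun _ => (1 : ℂ)) i) := by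
          intro i
          by_cases hi : i = a
          · subst hi; simpa using BM.const 1
          · rw [Function.update_of_ne hi]; exact hhBM i
        have h4 := fact_fun_succ hT hfact hs (Function.update h a (fun _ => (1 : ℂ)))
          (fun i => (hup i).1) (fun i => (hup i).2) a (fun x => by simp)
        have h5 := h4.sub_const (∏ i, ∫ x, Function.update h a (fun _ => (1 : ℂ)) i x ∂μ)
        rw [sub_self] at h5
        exact h5
      have h6 := ih.add (h3.const_mul (∫ y, f a y ∂μ))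
      simpa using h6
  have := key Finset.univ
  simpa using this

/-- The gap for general bounded functions. -/
theorem gap_two {k : ℕ} (hk : 1 ≤ k) {μ : Measure X} [IsProbabilityMeasure μ] {T : X ≃ᵐ X}
    (hT : MeasurePreserving T μ μ) (hmix : Mixing μ T) (hfact : FactSet μ T (k + 1))
    {s : ℕ → Fin (k + 2) → ℕ} (hs : Spread s) (f : Fin (k + 2) → X → ℂ)
    (hf : ∀ i, Measurable (f i)) (hb : ∀ i, ∃ C : ℝ, ∀ x, ‖f i x‖ ≤ C) {ε : ℝ} (hε : 0 < ε) :
    ∀ᶠ n in atTop, ‖∫ x, ∏ i, f i ((⇑T)^[s n i] x) ∂μ - ∏ i, ∫ x, f i x ∂μ‖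
      < (1 - 1 / (180000 * ((k + 2).factorial : ℝ) ^ 18))
        * ∏ i, Real.sqrt (∫ x, ‖f i x - ∫ y, f i y ∂μ‖ ^ 2 ∂μ) + ε := by
  have hBM : ∀ i, BM (f i) := fun i => ⟨hf i, hb i⟩
  have h0BM : ∀ i, BM (fun x => f i x - ∫ y, f i y ∂μ) := fun i => (hBM i).sub (BM.const _)
  have hmean : ∀ i, ∫ x, (f i x - ∫ y, f i y ∂μ) ∂μ = 0 := by
    intro i
    rw [integral_sub (hBM i).integrable (integrable_const _)]
    simp
  have h1 := corr_center hT hfact hs f hBM
  have h2 := gap_one hk hT hmix hfact hs (fun i x => f i x - ∫ y, f i y ∂μ)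
    (fun i => (h0BM i).1) (fun i => (h0BM i).2) 0 (hmean 0)
  rw [Metric.tendsto_atTop] at h1
  obtain ⟨N, hN⟩ := h1 ε hε
  filter_upwards [h2, eventually_ge_atTop N] with n hn hnN
  have h3 := hN n hnN
  rw [dist_zero_right] at h3
  have h4 : corr μ T (s n) (fun i x => f i x - ∫ y, f i y ∂μ)
      = ∫ x, ∏ i, (f i ((⇑T)^[s n i] x) - ∫ y, f i y ∂μ) ∂μ := by
    unfold corr
    simp only [hmean]
    simp
  rw [h4] at h3
  have h5 : ‖corr μ T (s n) f‖ ≤ ‖corr μ T (s n) f
      - ∫ x, ∏ i, (f i ((⇑T)^[s n i] x) - ∫ y, f i y ∂μ) ∂μ‖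
      + ‖∫ x, ∏ i, (f i ((⇑T)^[s n i] x) - ∫ y, f i y ∂μ) ∂μ‖ := by
    have := norm_add_le (corr μ T (s n) f
      - ∫ x, ∏ i, (f i ((⇑T)^[s n i] x) - ∫ y, f i y ∂μ) ∂μ)
      (∫ x, ∏ i, (f i ((⇑T)^[s n i] x) - ∫ y, f i y ∂μ) ∂μ)
    rwa [sub_add_cancel] at this
  change ‖corr μ T (s n) f‖ < _
  linarith

end Pool.Agent.H716R2
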