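import Mathlib

set_option autoImplicit false

namespace Pool.Agent.H716R2

/-! ### `n`-ary medial quasigroups are sums of functions of one variable in an abelian group -/

section medial

variable {n : ℕ} {K : Type*} (Φ : (Fin n → K) → K)

/-- `Φ` is an `n`-ary quasigroup. -/
def Quasi : Prop :=
  ∀ (v : Fin n → K) (j : Fin n), Function.Bijective (fun y => Φ (Function.update v j y))

/-- `Φ` satisfies the medial (entropic) law. -/
def MedialLaw : Prop :=
  ∀ A : Fin n → Fin n → K, Φ (fun i => Φ (A i)) = Φ (fun j => Φ (fun i => A i j))

variable {Φ}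

/-- The value with only the coordinate `i` different from `e`. -/
def oneR (Φ : (Fin n → K) → K) (e : K) (i : Fin n) (x : K) : K :=
  Φ (Function.update (fun _ => e) i x)

/-- The value with only the coordinates `i` and `j` different from `e`. -/
def twoR (Φ : (Fin n → K) → K) (e : K) (i j : Fin n) (x y : K) : K :=
  Φ (Function.update (Function.update (fun _ => e) i x) j y)

theorem oneR_e (e : K) (i : Fin n) : oneR Φ e i e = Φ (fun _ => e) := by
  unfold oneR
  rw [Function.update_eq_self]

theorem twoR_left (e : K) (i j : Fin n) (x : K) (hij : i ≠ j) :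
    twoR Φ e i j x e = oneR Φ e i x := by
  unfold twoR oneR
  congr 1
  funext a
  by_cases ha : a = j
  · subst ha; simp [hij.symm]
  · simp [ha]

theorem twoR_comm (e : K) (i j : Fin n) (x y : K) (hij : i ≠ j) :
    twoR Φ e i j x y = twoR Φ e j i y x := by
  unfold twoR
  rw [Function.update_comm hij]

theorem twoR_right (e : K) (i j : Fin n) (y : K) (hij : i ≠ j) :
    twoR Φ e i j e y = oneR Φ e j y := by
  rw [twoR_comm e i j e y hij, twoR_left e j i y hij.symm]

theorem twoR_inj_right (hq : Quasi Φ) (e : K) (i j : Fin n) (x : K) :
    Function.Bijective (fun y => twoR Φ e i j x y) := hq _ _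

theorem twoR_inj_left (hq : Quasi Φ) (e : K) (i j : Fin n) (y : K) (hij : i ≠ j) :
    Function.Bijective (fun x => twoR Φ e i j x y) := by
  have : (fun x => twoR Φ e i j x y) = fun x => twoR Φ e j i y x := by
    funext x
    exact twoR_comm e i j x y hij
  rw [this]
  exact hq _ _

/-- The medial law for the binary operations. -/
theorem twoR_medial (hm : MedialLaw Φ) (e : K) (i j : Fin n) (hij : i ≠ j) (x y z w : K) :
    twoR Φ (Φ (fun _ => e)) i j (twoR Φ e i j x y) (twoR Φ e i j z w)
      = twoR Φ (Φ (fun _ => e)) i j (twoR Φ e i j x z) (twoR Φ e i j y w) := by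
  let A : Fin n → Fin n → K := Function.update (Function.update (fun _ _ => e) i
    (Function.update (Function.update (fun _ => e) i x) j y)) j
    (Function.update (Function.update (fun _ => e) i z) j w)
  have h := hm A
  have e1 : (fun a => Φ (A a)) = Function.update (Function.update (fun _ => Φ (fun _ => e)) i
      (twoR Φ e i j x y)) j (twoR Φ e i j z w) := by
    funext a
    by_cases ha : a = j
    · subst ha; simp [A, twoR]
    · by_cases hb : a = i
      · subst hb; simp [A, twoR, ha]
      · simp [A, ha, hb]
  have e2 : (fun b => Φ (fun a => A a b)) = Function.update (Function.update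
      (fun _ => Φ (fun _ => e)) i (twoR Φ e i j x z)) j (twoR Φ e i j y w) := by
    funext b
    by_cases hb : b = j
    · subst hb
      rw [Function.update_self]
      unfold twoR
      congr 1
      funext a
      by_cases ha : a = b
      · subst ha; simp [A]
      · by_cases hc : a = i
        · subst hc; simp [A, ha]
        · simp [A, ha, hc]
    · rw [Function.update_of_ne hb]
      by_cases hc : b = i
      · subst hc
        rw [Function.update_self]
        unfold twoR
        congr 1
        funext a
        by_cases ha : a = j
        · subst ha; simp [A, hb]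
        · by_cases hd : a = b
          · subst hd; simp [A, ha]
          · simp [A, ha, hd]
      · rw [Function.update_of_ne hc]
        congr 1
        funext a
        by_cases ha : a = j
        · subst ha; simp [A, hb, hc]
        · by_cases hd : a = i
          · subst hd; simp [A, ha, hb, hc]
          · simp [A, ha, hd]
  rw [e1, e2] at h
  exact h

/-- Projectivity: the value of `Φ` at the coordinate `i` and at the rest only depends on the rest
through the value with `i` replaced by `e`. -/
theorem projectivity (hq : Quasi Φ) (hm : MedialLaw Φ) (e : K) (i j : Fin n) (hij : i ≠ j)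
    (v w : Fin n → K) (hvw : Φ (Function.update v i e) = Φ (Function.update w i e)) (x : K) :
    Φ (Function.update v i x) = Φ (Function.update w i x) := by
  have key : ∀ (v : Fin n → K) (x z : K),
      twoR Φ (Φ (fun _ => e)) i j (Φ (Function.update v i x)) (oneR Φ e i z)
        = Φ (Function.update (fun b => oneR Φ e i (v b)) i (twoR Φ e i j x z)) := by
    intro v x z
    let A : Fin n → Fin n → K := Function.update (Function.update (fun _ _ => e) i
      (Function.update v i x)) j (Function.update (fun _ => e) i z)
    have h := hm A
    have e1 : (fun a => Φ (A a)) = Function.update (Function.update (fun _ => Φ (fun _ => e)) i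
        (Φ (Function.update v i x))) j (oneR Φ e i z) := by
      funext a
      by_cases ha : a = j
      · subst ha; simp [A, oneR]
      · by_cases hb : a = i
        · subst hb; simp [A, ha]
        · simp [A, ha, hb]
    have e2 : (fun b => Φ (fun a => A a b)) =
        Function.update (fun b => oneR Φ e i (v b)) i (twoR Φ e i j x z) := by
      funext b
      by_cases hb : b = i
      · subst hb
        rw [Function.update_self]
        unfold twoR
        congr 1
        funext a
        by_cases ha : a = j
        · subst ha; simp [A]
        · by_cases hd : a = b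
          · subst hd; simp [A, ha]
          · simp [A, ha, hd]
      · rw [Function.update_of_ne hb]
        unfold oneR
        congr 1
        funext a
        by_cases ha : a = j
        · subst ha; simp [A, hb, hij.symm]
        · by_cases hd : a = i
          · subst hd; simp [A, ha, hb]
          · simp [A, ha, hd]
    rw [e1, e2] at h
    exact h
  obtain ⟨z', hz'⟩ := (twoR_inj_right hq e i j e).2 (twoR Φ e i j x e)
  simp only at hz'
  have h1 : twoR Φ (Φ (fun _ => e)) i j (Φ (Function.update v i x)) (oneR Φ e i e)
      = twoR Φ (Φ (fun _ => e)) i j (Φ (Function.update v i e)) (oneR Φ e i z') := by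
    rw [key v x e, key v e z', hz']
  have h2 : twoR Φ (Φ (fun _ => e)) i j (Φ (Function.update w i x)) (oneR Φ e i e)
      = twoR Φ (Φ (fun _ => e)) i j (Φ (Function.update w i e)) (oneR Φ e i z') := by
    rw [key w x e, key w e z', hz']
  rw [hvw] at h1
  exact (twoR_inj_left hq (Φ (fun _ => e)) i j (oneR Φ e i e) hij).1 (h1.trans h2.symm)

/-- An `n`-ary medial quasigroup, `n ≥ 2`, is a sum of functions of one variable with respect to
some abelian group structure. -/
theorem medial_group (hn : 2 ≤ n) (hq : Quasi Φ) (hm : MedialLaw Φ) (e : K) :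
    ∃ (_ : AddCommGroup K) (u : Fin n → K → K), ∀ x : Fin n → K, Φ x = ∑ i, u i (x i) := by
  classical
  let i0 : Fin n := ⟨0, by omega⟩
  let i1 : Fin n := ⟨1, by omega⟩
  have h01 : i0 ≠ i1 := by
    intro h
    have := congrArg Fin.val h
    simp [i0, i1] at this
  let o : K := Φ (fun _ => e)
  let R0 : K ≃ K := Equiv.ofBijective (oneR Φ e i0) (hq _ _)
  let R1 : K ≃ K := Equiv.ofBijective (oneR Φ e i1) (hq _ _)
  have hR0 : ∀ x, R0 x = oneR Φ e i0 x := fun x => rfl
  have hR1 : ∀ x, R1 x = oneR Φ e i1 x := fun x => rfl
  let ad : K → K → K := fun a b => twoR Φ e i0 i1 (R0.symm a) (R1.symm b)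
  have hR0o : R0.symm o = e := by
    rw [Equiv.symm_apply_eq, hR0, oneR_e]
  have hR1o : R1.symm o = e := by
    rw [Equiv.symm_apply_eq, hR1, oneR_e]
  have had0 : ∀ a, ad a o = a := by
    intro a
    simp only [ad, hR1o]
    rw [twoR_left e i0 i1 _ h01, ← hR0, Equiv.apply_symm_apply]
  have h0ad : ∀ a, ad o a = a := by
    intro a
    simp only [ad, hR0o]
    rw [twoR_right e i0 i1 _ h01, ← hR1, Equiv.apply_symm_apply]
  have hrc : ∀ a b c, ad (ad a b) c = ad (ad a c) b := by
    intro a b c
    set a' := R0.symm a with ha'
    set b' := R1.symm b with hb'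
    set c' := R1.symm c with hc'
    have h1 : ad a b = twoR Φ e i0 i1 a' b' := rfl
    have h2 : ad a c = twoR Φ e i0 i1 a' c' := rfl
    set p := R0.symm (ad a b) with hp
    set q := R0.symm (ad a c) with hqq
    have hpe : twoR Φ e i0 i1 p e = twoR Φ e i0 i1 a' b' := by
      rw [twoR_left e i0 i1 _ h01, ← hR0, hp, Equiv.apply_symm_apply, h1]
    have hqe : twoR Φ e i0 i1 q e = twoR Φ e i0 i1 a' c' := by
      rw [twoR_left e i0 i1 _ h01, ← hR0, hqq, Equiv.apply_symm_apply, h2]
    change twoR Φ e i0 i1 p c' = twoR Φ e i0 i1 q b'
    apply (twoR_inj_left hq (Φ (fun _ => e)) i0 i1 (twoR Φ e i0 i1 e e) h01).1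
    simp only
    rw [twoR_medial hm e i0 i1 h01 p c' e e, hpe, twoR_medial hm e i0 i1 h01 q b' e e, hqe,
      twoR_medial hm e i0 i1 h01 a' b' c' e]
  have hcomm : ∀ a b, ad a b = ad b a := by
    intro a b
    have := hrc o a b
    rw [h0ad, h0ad] at this
    exact this
  have hassoc : ∀ a b c, ad (ad a b) c = ad a (ad b c) := by
    intro a b c
    rw [hcomm a b, hrc b a c, hcomm]
  have hneg : ∀ a, ∃ b, ad b a = o := by
    intro a
    obtain ⟨y, hy⟩ := (twoR_inj_right hq e i0 i1 (R0.symm a)).2 o
    refine ⟨R1 y, ?_⟩
    rw [hcomm]
    simp only [ad, Equiv.symm_apply_apply]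
    exact hy
  choose ng hng using hneg
  let _ : Zero K := ⟨o⟩
  let _ : Add K := ⟨ad⟩
  let _ : Neg K := ⟨ng⟩
  let G : AddCommGroup K :=
    { add_assoc := hassoc
      zero_add := h0ad
      add_zero := had0
      add_comm := hcomm
      neg_add_cancel := hng
      nsmul := nsmulRec
      zsmul := zsmulRec }
  refine ⟨G, fun i => oneR Φ e i, ?_⟩
  have step0 : ∀ (v : Fin n → K) (x : K), Φ (Function.update v i0 x)
      = ad (oneR Φ e i0 x) (Φ (Function.update v i0 e)) := by
    intro v x
    set y := R1.symm (Φ (Function.update v i0 e)) with hy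
    have h1 : Φ (Function.update v i0 e)
        = Φ (Function.update (Function.update (fun _ => e) i1 y) i0 e) := by
      have h2 : Φ (Function.update (Function.update (fun _ => e) i1 y) i0 e) = R1 y := by
        rw [hR1]
        exact twoR_left e i1 i0 y h01.symm
      rw [h2, hy, Equiv.apply_symm_apply]
    rw [projectivity hq hm e i0 i1 h01 v _ h1 x]
    change twoR Φ e i1 i0 y x = ad (oneR Φ e i0 x) (Φ (Function.update v i0 e))
    rw [twoR_comm e i1 i0 y x h01.symm]
    simp only [ad]
    rw [← hR0, Equiv.symm_apply_apply]
  have step : ∀ (i : Fin n) (v : Fin n → K) (x : K), Φ (Function.update v i x)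
      = ad (oneR Φ e i x) (Φ (Function.update v i e)) := by
    intro i v x
    by_cases hi : i = i0
    · subst hi; exact step0 v x
    · set y := R0.symm (Φ (Function.update v i e)) with hy
      have h1 : Φ (Function.update v i e)
          = Φ (Function.update (Function.update (fun _ => e) i0 y) i e) := by
        have h2 : Φ (Function.update (Function.update (fun _ => e) i0 y) i e) = R0 y := by
          rw [hR0]
          exact twoR_left e i0 i y (Ne.symm hi)
        rw [h2, hy, Equiv.apply_symm_apply]
      rw [projectivity hq hm e i i0 hi v _ h1 x]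
      rw [Function.update_comm (β := fun _ => K) (Ne.symm hi) y x, step0]
      have h3 : Φ (Function.update (Function.update (fun _ => e) i x) i0 e) = oneR Φ e i x :=
        twoR_left e i i0 x hi
      rw [h3, ← hR0, hy, Equiv.apply_symm_apply, hcomm]
  intro x
  have key : ∀ S : Finset (Fin n), Φ (fun i => if i ∈ S then x i else e)
      = ∑ i ∈ S, oneR Φ e i (x i) := by
    intro S
    induction S using Finset.induction_on with
    | empty => rfl
    | insert a S ha ih =>
      rw [Finset.sum_insert ha, ← ih]
      have h1 : (fun i => if i ∈ insert a S then x i else e)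
          = Function.update (fun i => if i ∈ S then x i else e) a (x a) := by
        funext i
        by_cases hi : i = a
        · subst hi; simp
        · simp [hi]
      have h2 : Function.update (fun i => if i ∈ S then x i else e) a e
          = (fun i => if i ∈ S then x i else e) := by
        funext i
        by_cases hi : i = a
        · subst hi; simp [ha]
        · simp [hi]
      rw [h1, step a _ (x a), h2]
      rfl
  have h1 := key Finset.univ
  simpa using h1

end medial

end Pool.Agent.H716R2
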