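import Pool.Agent.H716R2.Weak

set_option autoImplicit false
open MeasureTheory Filter Topology

namespace Pool.Agent.H716R2

variable {X : Type*} [MeasurableSpace X]

/-- Strong mixing of an automorphism `T` (that is, mixing of multiplicity `1`). -/
def Mixing (μ : Measure X) (T : X ≃ᵐ X) : Prop :=
  ∀ A B : Set X, MeasurableSet A → MeasurableSet B →
    Tendsto (fun n : ℕ => μ.real (A ∩ (⇑T)^[n] ⁻¹' B)) atTop (𝓝 (μ.real A * μ.real B))

theorem iter_mp {μ : Measure X} {T : X ≃ᵐ X} (hT : MeasurePreserving T μ μ) (n : ℕ) :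
    MeasurePreserving (⇑T)^[n] μ μ := hT.iterate n

theorem iter_meas (T : X ≃ᵐ X) (n : ℕ) : Measurable (⇑T)^[n] := T.measurable.iterate n

/-- The inverse image under the `a`-th iterate of the inverse. -/
theorem symm_iter_left (T : X ≃ᵐ X) (n : ℕ) (x : X) : (⇑T.symm)^[n] ((⇑T)^[n] x) = x := by
  have : Function.LeftInverse (⇑T.symm)^[n] (⇑T)^[n] :=
    Function.LeftInverse.iterate (fun x => T.symm_apply_apply x) n
  exact this x

theorem symm_iter_right (T : X ≃ᵐ X) (n : ℕ) (x : X) : (⇑T)^[n] ((⇑T.symm)^[n] x) = x := by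
  have : Function.LeftInverse (⇑T)^[n] (⇑T.symm)^[n] :=
    Function.LeftInverse.iterate (fun x => T.apply_symm_apply x) n
  exact this x

theorem preimage_inter_shift (T : X ≃ᵐ X) (n : ℕ) (A E : Set X) :
    (⇑T)^[n] ⁻¹' ((⇑T.symm)^[n] ⁻¹' A ∩ E) = A ∩ (⇑T)^[n] ⁻¹' E := by
  ext x
  simp [symm_iter_left]

theorem measure_inter_shift {μ : Measure X} {T : X ≃ᵐ X} (hT : MeasurePreserving T μ μ) (n : ℕ)
    {A E : Set X} (hA : MeasurableSet A) (hE : MeasurableSet E) :
    μ.real (A ∩ (⇑T)^[n] ⁻¹' E) = μ.real ((⇑T.symm)^[n] ⁻¹' A ∩ E) := by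
  rw [← preimage_inter_shift]
  have hm : MeasurableSet ((⇑T.symm)^[n] ⁻¹' A ∩ E) :=
    ((iter_meas T.symm n) hA).inter hE
  simp only [Measure.real]
  rw [(iter_mp hT n).measure_preimage hm.nullMeasurableSet]

theorem mp_symm {μ : Measure X} {T : X ≃ᵐ X} (hT : MeasurePreserving T μ μ) :
    MeasurePreserving T.symm μ μ := hT.symm T

/-- Mixing passes to the inverse. -/
theorem Mixing.symm {μ : Measure X} {T : X ≃ᵐ X} (hT : MeasurePreserving T μ μ)
    (h : Mixing μ T) : Mixing μ T.symm := by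
  intro A B hA hB
  have := h B A hB hA
  rw [mul_comm] at this
  refine this.congr (fun n => ?_)
  rw [measure_inter_shift hT n hB hA, Set.inter_comm]

theorem mixing_fun {μ : Measure X} [IsProbabilityMeasure μ] {T : X ≃ᵐ X}
    (hT : MeasurePreserving T μ μ) (hmix : Mixing μ T) {β : X → ℝ} (hβ : Integrable β μ)
    {A : Set X} (hA : MeasurableSet A) :
    Tendsto (fun n : ℕ => ∫ x in A, β ((⇑T)^[n] x) ∂μ) atTop (𝓝 (μ.real A * ∫ x, β x ∂μ)) := by
  have hint : ∀ {g : X → ℝ}, Integrable g μ → ∀ n : ℕ, Integrable (fun x => g ((⇑T)^[n] x)) μ := by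
    intro g hg n
    exact ((iter_mp hT n).integrable_comp hg.aestronglyMeasurable).2 hg
  have habs : ∀ {g : X → ℝ}, Integrable g μ → ∀ n : ℕ,
      |∫ x in A, g ((⇑T)^[n] x) ∂μ| ≤ ∫ x, |g x| ∂μ := by
    intro g hg n
    calc |∫ x in A, g ((⇑T)^[n] x) ∂μ| ≤ ∫ x in A, |g ((⇑T)^[n] x)| ∂μ :=
          abs_integral_le_integral_abs
      _ ≤ ∫ x, |g ((⇑T)^[n] x)| ∂μ :=
          setIntegral_le_integral (hint hg n).abs (Eventually.of_forall fun _ => abs_nonneg _)
      _ = ∫ x, |g x| ∂μ := by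
          have := (iter_mp hT n).integral_comp' (f := (⟨⟨(⇑T)^[n], (⇑T.symm)^[n],
            fun x => symm_iter_left T n x, fun x => symm_iter_right T n x⟩, iter_meas T n,
            iter_meas T.symm n⟩ : X ≃ᵐ X)) (g := fun x => |g x|)
          exact this
  refine Integrable.induction (fun β : X → ℝ => Tendsto (fun n : ℕ => ∫ x in A, β ((⇑T)^[n] x) ∂μ)
    atTop (𝓝 (μ.real A * ∫ x, β x ∂μ))) ?_ ?_ ?_ ?_ hβ
  · intro c s hs _
    have h := (hmix A s hA hs).mul_const c
    have e1 : ∀ n : ℕ, μ.real (A ∩ (⇑T)^[n] ⁻¹' s) * c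
        = ∫ x in A, s.indicator (fun _ => c) ((⇑T)^[n] x) ∂μ := by
      intro n
      have : (fun x => s.indicator (fun _ => c) ((⇑T)^[n] x))
          = ((⇑T)^[n] ⁻¹' s).indicator (fun _ => c) := by
        ext x; rfl
      rw [this, integral_indicator ((iter_meas T n) hs)]
      simp [Measure.restrict_restrict ((iter_meas T n) hs), Set.inter_comm, Measure.real]
    have e2 : μ.real A * μ.real s * c = μ.real A * ∫ x, s.indicator (fun _ => c) x ∂μ := by
      rw [integral_indicator hs]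
      simp [Measure.real, mul_assoc]
    rw [e2] at h
    exact h.congr e1
  · intro f g _ hf hg Pf Pg
    have h := Pf.add Pg
    have e2 : μ.real A * ∫ x, f x ∂μ + μ.real A * ∫ x, g x ∂μ = μ.real A * ∫ x, (f + g) x ∂μ := by
      rw [← mul_add, ← integral_add hf hg]; rfl
    rw [e2] at h
    refine h.congr (fun n => ?_)
    rw [← integral_add (hint hf n).integrableOn (hint hg n).integrableOn]
    rfl
  · refine isClosed_of_closure_subset ?_
    intro f hf
    rw [Metric.mem_closure_iff] at hf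
    simp only [Set.mem_ofPred_eq]
    rw [Metric.tendsto_atTop]
    intro ε hε
    obtain ⟨g, hg, hfg⟩ := hf (ε / 3) (by positivity)
    simp only [Set.mem_ofPred_eq] at hg
    rw [Metric.tendsto_atTop] at hg
    obtain ⟨N, hN⟩ := hg (ε / 3) (by positivity)
    refine ⟨N, fun n hn => ?_⟩
    have hfi : Integrable f μ := L1.integrable_coeFn f
    have hgi : Integrable g μ := L1.integrable_coeFn g
    have hd : ∫ x, |f x - g x| ∂μ < ε / 3 := by
      have : dist f g = ∫ x, |f x - g x| ∂μ := by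
        rw [dist_eq_norm, L1.norm_eq_integral_norm]
        apply integral_congr_ae
        filter_upwards [Lp.coeFn_sub f g] with x hx
        rw [hx]; rfl
      rw [← this]; exact hfg
    have h1 := habs (hfi.sub hgi) n
    have h1' : |∫ x in A, f ((⇑T)^[n] x) ∂μ - ∫ x in A, g ((⇑T)^[n] x) ∂μ| < ε / 3 := by
      rw [← integral_sub (hint hfi n).integrableOn (hint hgi n).integrableOn]
      exact lt_of_le_of_lt h1 hd
    have h2 := hN n hn
    rw [Real.dist_eq] at h2 ⊢
    have h3 : |μ.real A * ∫ x, f x ∂μ - μ.real A * ∫ x, g x ∂μ| < ε / 3 := by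
      rw [← mul_sub, ← integral_sub hfi hgi, abs_mul]
      have hA1 : |μ.real A| ≤ 1 := by
        rw [abs_of_nonneg measureReal_nonneg]; exact measureReal_le_one
      calc |μ.real A| * |∫ x, (f x - g x) ∂μ| ≤ 1 * ∫ x, |f x - g x| ∂μ := by
            gcongr
            exact abs_integral_le_integral_abs
        _ < ε / 3 := by rw [one_mul]; exact hd
    rw [abs_lt] at *
    constructor <;> linarith [h1'.1, h1'.2, h2.1, h2.2, h3.1, h3.2]
  · intro f g hfg hf Pf
    have e2 : ∫ x, f x ∂μ = ∫ x, g x ∂μ := integral_congr_ae hfg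
    rw [e2] at Pf
    refine Pf.congr (fun n => ?_)
    apply integral_congr_ae
    apply ae_restrict_of_ae
    exact (iter_mp hT n).quasiMeasurePreserving.ae_eq_comp hfg

end Pool.Agent.H716R2
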