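import Pool.Agent.H716R2.WeakLim

set_option autoImplicit false
set_option linter.unusedSectionVars false
open MeasureTheory Filter Topology

namespace Pool.Agent.H716R2

variable {X : Type*} [MeasurableSpace X]

/-- `v` is the weak limit of the functions `y n` along the ultrafilter `U`. -/
def WLim (μ : Measure X) (U : Ultrafilter ℕ) (y : ℕ → X → ℝ) (v : X → ℝ) : Prop :=
  ∀ g : X → ℝ, Measurable g → (∃ C, ∀ x, |g x| ≤ C) →
    Tendsto (fun n => ∫ x, g x * y n x ∂μ) U (𝓝 (∫ x, g x * v x ∂μ))

variable {μ : Measure X} [IsProbabilityMeasure μ] {U : Ultrafilter ℕ}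

theorem int_of_bound {g : X → ℝ} (hg : Measurable g) {C : ℝ} (hC : ∀ x, |g x| ≤ C) :
    Integrable g μ :=
  Integrable.of_bound hg.aestronglyMeasurable C (Eventually.of_forall hC)

theorem exists_wlim (μ : Measure X) [IsProbabilityMeasure μ] (U : Ultrafilter ℕ)
    (y : ℕ → X → ℝ) (hy : ∀ n, Measurable (y n)) (C : ℝ) (hC : ∀ n x, |y n x| ≤ C) :
    ∃ v : X → ℝ, Measurable v ∧ (∀ x, |v x| ≤ C) ∧ WLim μ U y v := by
  have hmem : ∀ n, MemLp (y n) 2 μ := fun n =>
    MemLp.of_bound (hy n).aestronglyMeasurable C (Eventually.of_forall (hC n))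
  let Y : ℕ → Lp ℝ 2 μ := fun n => (hmem n).toLp (y n)
  have hY : ∀ n, ‖Y n‖ ≤ C := by
    intro n
    have h0 : 0 ≤ C := by
      have : Nonempty X := by
        by_contra h
        rw [not_nonempty_iff] at h
        have := (measure_univ (μ := μ))
        rw [Set.univ_eq_empty_iff.2 h] at this
        simp at this
      obtain ⟨x⟩ := this
      exact (abs_nonneg _).trans (hC 0 x)
    have h1 := Lp.norm_le_of_ae_bound (p := 2) (f := Y n) h0 (by
      filter_upwards [(hmem n).coeFn_toLp] with x hx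
      rw [hx]
      exact hC n x)
    have h2 : measureUnivNNReal μ = 1 := by simp [measureUnivNNReal]
    rw [h2] at h1
    simpa using h1
  obtain ⟨w, hw⟩ := hilbert_weak_limit U Y C hY
  have hlim : ∀ g : X → ℝ, Measurable g → (∃ C, ∀ x, |g x| ≤ C) →
        Tendsto (fun n => ∫ x, g x * y n x ∂μ) U (𝓝 (∫ x, g x * w x ∂μ)) := by
    intro g hg ⟨C', hC'⟩
    have hgm : MemLp g 2 μ :=
      MemLp.of_bound hg.aestronglyMeasurable C' (Eventually.of_forall hC')
    have h := hw (hgm.toLp g)
    have h1 : ∀ n, inner ℝ (Y n) (hgm.toLp g) = ∫ x, g x * y n x ∂μ := by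
      intro n
      rw [L2.inner_def]
      apply integral_congr_ae
      filter_upwards [hgm.coeFn_toLp, (hmem n).coeFn_toLp] with x hx hx2
      rw [hx, hx2]
      simp
    have h2 : inner ℝ w (hgm.toLp g) = ∫ x, g x * w x ∂μ := by
      rw [L2.inner_def]
      apply integral_congr_ae
      filter_upwards [hgm.coeFn_toLp] with x hx
      rw [hx]
      simp
    simp only [h1] at h
    rw [h2] at h
    exact h
  have hwint : Integrable w μ := (Lp.memLp w).integrable (by norm_num)
  have hset : ∀ s : Set X, MeasurableSet s →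
      Tendsto (fun n => ∫ x in s, y n x ∂μ) U (𝓝 (∫ x in s, w x ∂μ)) := by
    intro s hs
    have h := hlim (s.indicator (fun _ => (1 : ℝ))) (measurable_const.indicator hs)
      ⟨1, fun x => by by_cases hx : x ∈ s <;> simp [hx]⟩
    have h1 : ∀ v : X → ℝ, ∫ x, s.indicator (fun _ => (1 : ℝ)) x * v x ∂μ
        = ∫ x in s, v x ∂μ := by
      intro v
      rw [← integral_indicator hs]
      apply integral_congr_ae
      filter_upwards with x
      by_cases hx : x ∈ s <;> simp [hx]
    simp only [h1] at h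
    exact h
  have hle : w ≤ᵐ[μ] fun _ => C := by
    apply ae_le_of_forall_setIntegral_le hwint (integrable_const _)
    intro s hs _
    refine le_of_tendsto' (hset s hs) (fun n => ?_)
    exact setIntegral_mono (int_of_bound (hy n) (hC n)).integrableOn
      (integrable_const _).integrableOn (fun x => (abs_le.1 (hC n x)).2)
  have hge : (fun _ => -C) ≤ᵐ[μ] w := by
    apply ae_le_of_forall_setIntegral_le (integrable_const _) hwint
    intro s hs _
    refine ge_of_tendsto' (hset s hs) (fun n => ?_)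
    exact setIntegral_mono (integrable_const _).integrableOn
      (int_of_bound (hy n) (hC n)).integrableOn (fun x => (abs_le.1 (hC n x)).1)
  have hC0 : 0 ≤ C := by
    have : Nonempty X := by
      by_contra h
      rw [not_nonempty_iff] at h
      have := (measure_univ (μ := μ))
      rw [Set.univ_eq_empty_iff.2 h] at this
      simp at this
    obtain ⟨x⟩ := this
    exact (abs_nonneg _).trans (hC 0 x)
  refine ⟨fun x => max (-C) (min C (w x)), ?_, fun x => ?_, ?_⟩
  · exact measurable_const.max (measurable_const.min (Lp.stronglyMeasurable w).measurable)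
  · rw [abs_le]
    exact ⟨le_max_left _ _, max_le (by linarith) (min_le_left _ _)⟩
  · intro g hg hC
    have h := hlim g hg hC
    have h2 : ∫ x, g x * w x ∂μ = ∫ x, g x * max (-C) (min C (w x)) ∂μ := by
      apply integral_congr_ae
      filter_upwards [hle, hge] with x h0 h1
      rw [min_eq_right h0, max_eq_right h1]
    rw [← h2]
    exact h

theorem ind_mul (s : Set X) (hs : MeasurableSet s) (v : X → ℝ) :
    ∫ x, s.indicator (fun _ => (1 : ℝ)) x * v x ∂μ = ∫ x in s, v x ∂μ := by
  rw [← integral_indicator hs]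
  apply integral_congr_ae
  filter_upwards with x
  by_cases hx : x ∈ s <;> simp [hx]

theorem WLim.set {y : ℕ → X → ℝ} {v : X → ℝ} (h : WLim μ U y v) {A : Set X}
    (hA : MeasurableSet A) :
    Tendsto (fun n => ∫ x in A, y n x ∂μ) U (𝓝 (∫ x in A, v x ∂μ)) := by
  have h := h (A.indicator (fun _ => (1 : ℝ))) (measurable_const.indicator hA)
    ⟨1, fun x => by by_cases hx : x ∈ A <;> simp [hx]⟩
  simp only [ind_mul A hA] at h
  exact h

theorem WLim.setMul {y : ℕ → X → ℝ} {v : X → ℝ} (h : WLim μ U y v) {A : Set X}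
    (hA : MeasurableSet A) {g : X → ℝ} (hg : Measurable g) {C : ℝ} (hC : ∀ x, |g x| ≤ C) :
    Tendsto (fun n => ∫ x in A, g x * y n x ∂μ) U (𝓝 (∫ x in A, g x * v x ∂μ)) := by
  have h := h (A.indicator g) (hg.indicator hA)
    ⟨C, fun x => by
      by_cases hx : x ∈ A
      · rw [Set.indicator_of_mem hx]; exact hC x
      · rw [Set.indicator_of_notMem hx, abs_zero]; exact (abs_nonneg _).trans (hC x)⟩
  have e : ∀ w : X → ℝ, ∫ x, A.indicator g x * w x ∂μ = ∫ x in A, g x * w x ∂μ := by
    intro w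
    rw [← integral_indicator hA]
    congr 1
    ext x
    by_cases hx : x ∈ A <;> simp [hx]
  simp only [e] at h
  exact h

theorem WLim.univ {y : ℕ → X → ℝ} {v : X → ℝ} (h : WLim μ U y v) :
    Tendsto (fun n => ∫ x, y n x ∂μ) U (𝓝 (∫ x, v x ∂μ)) := by
  have := h.set MeasurableSet.univ
  simpa using this

theorem WLim.shift {T : X ≃ᵐ X} (hT : MeasurePreserving T μ μ) {y : ℕ → X → ℝ} {v : X → ℝ}
    (h : WLim μ U y v) (a : ℕ) {A : Set X} (hA : MeasurableSet A) :
    Tendsto (fun n => ∫ x in A, y n ((⇑T)^[a] x) ∂μ) U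
      (𝓝 (∫ x in A, v ((⇑T)^[a] x) ∂μ)) := by
  have h1 := h.set ((iter_meas T.symm a) hA)
  rw [setIntegral_shift hT v a hA] at h1
  refine h1.congr (fun n => ?_)
  rw [setIntegral_shift hT (y n) a hA]

/-- Decorrelation of two functions under mixing. -/
theorem mixing_fun2 {T : X ≃ᵐ X} (hT : MeasurePreserving T μ μ) (hmix : Mixing μ T)
    {φ β : X → ℝ} (hφ : Integrable φ μ) (hβm : Measurable β) {C : ℝ} (hC : ∀ x, |β x| ≤ C) :
    Tendsto (fun n : ℕ => ∫ x, φ x * β ((⇑T)^[n] x) ∂μ) atTop
      (𝓝 ((∫ x, φ x ∂μ) * ∫ x, β x ∂μ)) := by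
  have hβ : Integrable β μ := int_of_bound hβm hC
  have hβn : ∀ n : ℕ, Measurable (fun x => β ((⇑T)^[n] x)) := fun n => hβm.comp (iter_meas T n)
  have hint : ∀ {g : X → ℝ}, Integrable g μ → ∀ n : ℕ,
      Integrable (fun x => g x * β ((⇑T)^[n] x)) μ := by
    intro g hg n
    have := hg.mul_bdd (c := C) (hβn n).aestronglyMeasurable
      (Eventually.of_forall (fun x => hC ((⇑T)^[n] x)))
    exact this
  have hC0 : 0 ≤ C := by
    have : Nonempty X := by
      by_contra h
      rw [not_nonempty_iff] at h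
      have := (measure_univ (μ := μ))
      rw [Set.univ_eq_empty_iff.2 h] at this
      simp at this
    obtain ⟨x⟩ := this
    exact (abs_nonneg _).trans (hC x)
  have hβC : |∫ x, β x ∂μ| ≤ C := by
    refine abs_integral_le_integral_abs.trans ?_
    have := integral_mono hβ.abs (integrable_const C) hC
    simpa using this
  refine Integrable.induction (fun φ : X → ℝ => Tendsto (fun n : ℕ =>
    ∫ x, φ x * β ((⇑T)^[n] x) ∂μ) atTop (𝓝 ((∫ x, φ x ∂μ) * ∫ x, β x ∂μ))) ?_ ?_ ?_ ?_ hφ
  · intro c s hs _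
    have h := (mixing_fun hT hmix hβ hs).const_mul c
    have e1 : ∀ n : ℕ, c * ∫ x in s, β ((⇑T)^[n] x) ∂μ
        = ∫ x, s.indicator (fun _ => c) x * β ((⇑T)^[n] x) ∂μ := by
      intro n
      rw [← integral_const_mul, ← integral_indicator hs]
      congr 1
      ext x
      by_cases hx : x ∈ s <;> simp [hx]
    have e2 : c * (μ.real s * ∫ x, β x ∂μ)
        = (∫ x, s.indicator (fun _ => c) x ∂μ) * ∫ x, β x ∂μ := by
      rw [integral_indicator hs]
      simp [Measure.real]
      ring
    rw [e2] at h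
    exact h.congr e1
  · intro f g _ hf hg Pf Pg
    have h := Pf.add Pg
    have e2 : (∫ x, f x ∂μ) * ∫ x, β x ∂μ + (∫ x, g x ∂μ) * ∫ x, β x ∂μ
        = (∫ x, (f + g) x ∂μ) * ∫ x, β x ∂μ := by
      rw [← add_mul, ← integral_add hf hg]; rfl
    rw [e2] at h
    refine h.congr (fun n => ?_)
    rw [← integral_add (hint hf n) (hint hg n)]
    congr 1
    ext x
    simp [add_mul]
  · refine isClosed_of_closure_subset ?_
    intro f hf
    rw [Metric.mem_closure_iff] at hf
    simp only [Set.mem_ofPred_eq]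
    rw [Metric.tendsto_atTop]
    intro ε hε
    obtain ⟨g, hg, hfg⟩ := hf (ε / (3 * (C + 1))) (by positivity)
    simp only [Set.mem_ofPred_eq] at hg
    rw [Metric.tendsto_atTop] at hg
    obtain ⟨N, hN⟩ := hg (ε / 3) (by positivity)
    refine ⟨N, fun n hn => ?_⟩
    have hfi : Integrable f μ := L1.integrable_coeFn f
    have hgi : Integrable g μ := L1.integrable_coeFn g
    have hd : ∫ x, |f x - g x| ∂μ < ε / (3 * (C + 1)) := by
      have : dist f g = ∫ x, |f x - g x| ∂μ := by
        rw [dist_eq_norm, L1.norm_eq_integral_norm]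
        apply integral_congr_ae
        filter_upwards [Lp.coeFn_sub f g] with x hx
        rw [hx]; rfl
      rw [← this]; exact hfg
    have hd2 : C * ∫ x, |f x - g x| ∂μ < ε / 3 := by
      have h1 : C * ∫ x, |f x - g x| ∂μ ≤ (C + 1) * ∫ x, |f x - g x| ∂μ := by
        have : 0 ≤ ∫ x, |f x - g x| ∂μ := integral_nonneg (fun _ => abs_nonneg _)
        nlinarith
      have h2 : (C + 1) * ∫ x, |f x - g x| ∂μ < (C + 1) * (ε / (3 * (C + 1))) :=
        mul_lt_mul_of_pos_left hd (by positivity)
      have h3 : (C + 1) * (ε / (3 * (C + 1))) = ε / 3 := by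
        field_simp
      linarith
    have h1' : |∫ x, f x * β ((⇑T)^[n] x) ∂μ - ∫ x, g x * β ((⇑T)^[n] x) ∂μ| < ε / 3 := by
      rw [← integral_sub (hint hfi n) (hint hgi n)]
      refine lt_of_le_of_lt abs_integral_le_integral_abs ?_
      refine lt_of_le_of_lt ?_ hd2
      rw [← integral_const_mul]
      refine integral_mono ((hint hfi n).sub (hint hgi n)).abs ((hfi.sub hgi).abs.const_mul C)
        (fun x => ?_)
      simp only
      rw [← sub_mul, abs_mul, mul_comm]
      exact mul_le_mul_of_nonneg_right (hC _) (abs_nonneg _)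
    have h2 := hN n hn
    rw [Real.dist_eq] at h2 ⊢
    have h3 : |(∫ x, f x ∂μ) * ∫ x, β x ∂μ - (∫ x, g x ∂μ) * ∫ x, β x ∂μ| < ε / 3 := by
      rw [← sub_mul, ← integral_sub hfi hgi, abs_mul, mul_comm]
      refine lt_of_le_of_lt ?_ hd2
      exact mul_le_mul hβC abs_integral_le_integral_abs (abs_nonneg _) hC0
    rw [abs_lt] at *
    constructor <;> linarith [h1'.1, h1'.2, h2.1, h2.2, h3.1, h3.2]
  · intro f g hfg hf Pf
    have e2 : ∫ x, f x ∂μ = ∫ x, g x ∂μ := integral_congr_ae hfg
    rw [e2] at Pf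
    refine Pf.congr (fun n => ?_)
    apply integral_congr_ae
    filter_upwards [hfg] with x hx
    rw [hx]

end Pool.Agent.H716R2
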