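import Mathlib

set_option autoImplicit false
open MeasureTheory Filter Topology

namespace Pool.Agent.H716R2

/-- Bounded families in a real Hilbert space have weak ultrafilter limits. -/
theorem hilbert_weak_limit {ι : Type*} {H : Type*} [NormedAddCommGroup H] [InnerProductSpace ℝ H]
    [CompleteSpace H] (U : Ultrafilter ι) (y : ι → H) (C : ℝ) (hy : ∀ n, ‖y n‖ ≤ C) :
    ∃ w : H, ∀ z : H, Tendsto (fun n => inner ℝ (y n) z) U (𝓝 (inner ℝ w z)) := by
  let F : ι → WeakDual ℝ H := fun n => StrongDual.toWeakDual (InnerProductSpace.toDual ℝ H (y n))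
  have hK := WeakDual.isCompact_closedBall (𝕜 := ℝ) (E := H) (0 : StrongDual ℝ H) C
  have hmem : ∀ n, F n ∈ (WeakDual.toStrongDual ⁻¹' Metric.closedBall (0 : StrongDual ℝ H) C) := by
    intro n
    simp only [Set.mem_preimage, Metric.mem_closedBall, dist_zero_right]
    have : WeakDual.toStrongDual (F n) = InnerProductSpace.toDual ℝ H (y n) := rfl
    rw [this]
    simpa using hy n
  obtain ⟨φ, -, hφ⟩ := hK.ultrafilter_le_nhds (U.map F)
    (by
      rw [le_principal_iff]
      exact Filter.mem_map.2 (Filter.univ_mem' hmem))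
  refine ⟨(InnerProductSpace.toDual ℝ H).symm (WeakDual.toStrongDual φ), fun z => ?_⟩
  have h1 : Tendsto F U (𝓝 φ) := hφ
  have h2 : Tendsto (fun n => F n z) U (𝓝 (φ z)) :=
    ((WeakDual.eval_continuous z).tendsto φ).comp h1
  have h3 : φ z = inner ℝ ((InnerProductSpace.toDual ℝ H).symm (WeakDual.toStrongDual φ)) z := by
    rw [InnerProductSpace.toDual_symm_apply]
    rfl
  rw [← h3]
  exact h2

variable {X : Type*} [MeasurableSpace X]

/-- Weak limits of indicator functions along an ultrafilter. -/
theorem exists_weak_limit (μ : Measure X) [IsProbabilityMeasure μ] (U : Ultrafilter ℕ)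
    (E : ℕ → Set X) (hE : ∀ n, MeasurableSet (E n)) :
    ∃ v : X → ℝ, Measurable v ∧ (∀ x, 0 ≤ v x) ∧ (∀ x, v x ≤ 1) ∧
      ∀ g : X → ℝ, Measurable g → (∃ C, ∀ x, |g x| ≤ C) →
        Tendsto (fun n => ∫ x in E n, g x ∂μ) U (𝓝 (∫ x, g x * v x ∂μ)) := by
  have hfin : ∀ n, μ (E n) ≠ ⊤ := fun n => measure_ne_top μ _
  let y : ℕ → Lp ℝ 2 μ := fun n => indicatorConstLp 2 (hE n) (hfin n) (1 : ℝ)
  have hy : ∀ n, ‖y n‖ ≤ 1 := by
    intro n
    have := norm_indicatorConstLp_le (μ := μ) (p := 2) (hs := hE n) (hμs := hfin n) (c := (1 : ℝ))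
    refine this.trans ?_
    simp only [norm_one, one_mul]
    exact Real.rpow_le_one ENNReal.toReal_nonneg (by
      have := prob_le_one (μ := μ) (s := E n)
      exact ENNReal.toReal_le_of_le_ofReal zero_le_one (by simpa using this)) (by simp)
  obtain ⟨w, hw⟩ := hilbert_weak_limit U y 1 hy
  have hlim : ∀ g : X → ℝ, Measurable g → (∃ C, ∀ x, |g x| ≤ C) →
        Tendsto (fun n => ∫ x in E n, g x ∂μ) U (𝓝 (∫ x, g x * w x ∂μ)) := by
    intro g hg ⟨C, hC⟩
    have hgm : MemLp g 2 μ :=
      MemLp.of_bound hg.aestronglyMeasurable C (Eventually.of_forall hC)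
    have h := hw (hgm.toLp g)
    have h1 : ∀ n, inner ℝ (y n) (hgm.toLp g) = ∫ x in E n, g x ∂μ := by
      intro n
      rw [L2.inner_indicatorConstLp_one]
      apply setIntegral_congr_ae (hE n)
      filter_upwards [hgm.coeFn_toLp] with x hx _
      exact hx
    have h2 : inner ℝ w (hgm.toLp g) = ∫ x, g x * w x ∂μ := by
      rw [L2.inner_def]
      apply integral_congr_ae
      filter_upwards [hgm.coeFn_toLp] with x hx
      rw [hx]
      simp
    simp only [h1] at h
    rw [h2] at h
    exact h
  have hwint : Integrable w μ := (Lp.memLp w).integrable (by norm_num)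
  -- nonnegativity
  have hset : ∀ s : Set X, MeasurableSet s →
      Tendsto (fun n => μ.real (E n ∩ s)) U (𝓝 (∫ x in s, w x ∂μ)) := by
    intro s hs
    have h := hlim (s.indicator (fun _ => (1 : ℝ))) (measurable_const.indicator hs)
      ⟨1, fun x => by by_cases hx : x ∈ s <;> simp [hx]⟩
    have h1 : ∀ n, ∫ x in E n, s.indicator (fun _ => (1 : ℝ)) x ∂μ = μ.real (E n ∩ s) := by
      intro n
      rw [integral_indicator hs]
      simp [Measure.restrict_restrict hs, Set.inter_comm, Measure.real]
    have h2 : ∫ x, s.indicator (fun _ => (1 : ℝ)) x * w x ∂μ = ∫ x in s, w x ∂μ := by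
      rw [← integral_indicator hs]
      apply integral_congr_ae
      filter_upwards with x
      by_cases hx : x ∈ s <;> simp [hx]
    simp only [h1] at h
    rw [h2] at h
    exact h
  have hnonneg : 0 ≤ᵐ[μ] w := by
    apply ae_nonneg_of_forall_setIntegral_nonneg hwint
    intro s hs _
    exact ge_of_tendsto' (hset s hs) (fun n => measureReal_nonneg)
  have hle : w ≤ᵐ[μ] fun _ => (1 : ℝ) := by
    apply ae_le_of_forall_setIntegral_le hwint (integrable_const _)
    intro s hs _
    refine le_of_tendsto' (hset s hs) (fun n => ?_)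
    simp only [integral_const, MeasurableSet.univ, measureReal_restrict_apply, Set.univ_inter,
      smul_eq_mul, mul_one]
    exact measureReal_mono Set.inter_subset_right
  -- modify
  have hwm : AEMeasurable w μ := (Lp.stronglyMeasurable w).measurable.aemeasurable
  refine ⟨fun x => max 0 (min 1 (w x)), ?_, fun x => le_max_left _ _, fun x => ?_, ?_⟩
  · exact measurable_const.max (measurable_const.min (Lp.stronglyMeasurable w).measurable)
  · exact max_le zero_le_one (min_le_left _ _)
  · intro g hg hC
    have h := hlim g hg hC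
    have h2 : ∫ x, g x * w x ∂μ = ∫ x, g x * max 0 (min 1 (w x)) ∂μ := by
      apply integral_congr_ae
      filter_upwards [hnonneg, hle] with x h0 h1
      have h0' : 0 ≤ w x := h0
      rw [min_eq_right h1, max_eq_right h0']
    rw [← h2]
    exact h

end Pool.Agent.H716R2
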