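import Pool.Agent.H716R2.Mix

set_option autoImplicit false
open MeasureTheory Filter Topology

namespace Pool.Agent.H716R2

variable {X : Type*} [MeasurableSpace X]

/-- `v` is the weak limit of the indicators of the sets `E n` along the ultrafilter `U`. -/
def WeakLim (μ : Measure X) (U : Ultrafilter ℕ) (E : ℕ → Set X) (v : X → ℝ) : Prop :=
  ∀ g : X → ℝ, Measurable g → (∃ C, ∀ x, |g x| ≤ C) →
    Tendsto (fun n => ∫ x in E n, g x ∂μ) U (𝓝 (∫ x, g x * v x ∂μ))

variable {μ : Measure X} [IsProbabilityMeasure μ] {U : Ultrafilter ℕ} {E : ℕ → Set X} {v : X → ℝ}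

theorem WeakLim.set (h : WeakLim μ U E v) {A : Set X} (hA : MeasurableSet A) :
    Tendsto (fun n => μ.real (A ∩ E n)) U (𝓝 (∫ x in A, v x ∂μ)) := by
  have h := h (A.indicator (fun _ => (1 : ℝ))) (measurable_const.indicator hA)
    ⟨1, fun x => by by_cases hx : x ∈ A <;> simp [hx]⟩
  have h1 : ∀ n, ∫ x in E n, A.indicator (fun _ => (1 : ℝ)) x ∂μ = μ.real (A ∩ E n) := by
    intro n
    rw [integral_indicator hA]
    simp [Measure.restrict_restrict hA, Measure.real]
  have h2 : ∫ x, A.indicator (fun _ => (1 : ℝ)) x * v x ∂μ = ∫ x in A, v x ∂μ := by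
    rw [← integral_indicator hA]
    apply integral_congr_ae
    filter_upwards with x
    by_cases hx : x ∈ A <;> simp [hx]
  simp only [h1] at h
  rw [h2] at h
  exact h

theorem WeakLim.univ (h : WeakLim μ U E v) :
    Tendsto (fun n => μ.real (E n)) U (𝓝 (∫ x, v x ∂μ)) := by
  have := h.set MeasurableSet.univ
  simpa using this

theorem setIntegral_shift {T : X ≃ᵐ X} (hT : MeasurePreserving T μ μ) (v : X → ℝ) (a : ℕ)
    {A : Set X} (hA : MeasurableSet A) :
    ∫ x in (⇑T.symm)^[a] ⁻¹' A, v x ∂μ = ∫ x in A, v ((⇑T)^[a] x) ∂μ := by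
  let Ta : X ≃ᵐ X := ⟨⟨(⇑T)^[a], (⇑T.symm)^[a], fun x => symm_iter_left T a x,
    fun x => symm_iter_right T a x⟩, iter_meas T a, iter_meas T.symm a⟩
  have hTa : MeasurePreserving Ta μ μ := iter_mp hT a
  have h := hTa.setIntegral_preimage_emb Ta.measurableEmbedding v ((⇑T.symm)^[a] ⁻¹' A)
  rw [← h]
  have : Ta ⁻¹' ((⇑T.symm)^[a] ⁻¹' A) = A := by
    ext x
    simp only [Set.mem_preimage]
    have : (⇑T.symm)^[a] (Ta x) = x := symm_iter_left T a x
    rw [this]
  rw [this]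
  rfl

theorem WeakLim.shift {T : X ≃ᵐ X} (hT : MeasurePreserving T μ μ) (hE : ∀ n, MeasurableSet (E n))
    (h : WeakLim μ U E v) (a : ℕ) {A : Set X} (hA : MeasurableSet A) :
    Tendsto (fun n => μ.real (A ∩ (⇑T)^[a] ⁻¹' E n)) U (𝓝 (∫ x in A, v ((⇑T)^[a] x) ∂μ)) := by
  have h1 := h.set ((iter_meas T.symm a) hA)
  rw [setIntegral_shift hT v a hA] at h1
  refine h1.congr (fun n => ?_)
  rw [measure_inter_shift hT a hA (hE n)]

end Pool.Agent.H716R2
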